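import Pool.Agent.H60.OC.Conf

/-!
# OC Bal: balanced monomials in the differences of `k + 1` points
-/

set_option autoImplicit false

open Filter Topology

noncomputable section

namespace Pool.Agent.H60.OC

/-- The monomial `prod_(i<j) (y_i - y_j) ^ (E i j)`. -/
def mono {K : ℕ} (E : Fin K → Fin K → ℤ) (y : Fin K → ℂ) : ℂ := ∏ i, ∏ j ∈ Finset.Ioi i, (y i - y j) ^ E i j

/-- Symmetric exponents with zero diagonal and zero row sums. -/
structure Bal {K : ℕ} (E : Fin K → Fin K → ℤ) : Prop where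
  symm : ∀ i j, E i j = E j i
  diag : ∀ i, E i i = 0
  bal : ∀ i, ∑ j, E i j = 0

theorem mono_eq {K : ℕ} (E : Fin K → Fin K → ℤ) (y : Fin K → ℂ) : mono E y = ∏ p : Pr K, ell p y ^ E p.1.1 p.1.2 :=
  prod_pairs fun i j => (y i - y j) ^ E i j

theorem mono_ne {K : ℕ} (E : Fin K → Fin K → ℤ) {y : Fin K → ℂ} (hy : Function.Injective y) : mono E y ≠ 0 :=
  Finset.prod_ne_zero_iff.2 fun _ _ => Finset.prod_ne_zero_iff.2 fun _ hj =>
    zpow_ne_zero _ (sub_ne_zero.2 fun h => (Finset.mem_Ioi.1 hj).ne (hy h))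

theorem mono_add {K : ℕ} (E F : Fin K → Fin K → ℤ) {y : Fin K → ℂ} (hy : Function.Injective y) :
    mono (fun i j => E i j + F i j) y = mono E y * mono F y := by
  unfold mono
  rw [← Finset.prod_mul_distrib]
  refine Finset.prod_congr rfl fun i _ => ?_
  rw [← Finset.prod_mul_distrib]
  refine Finset.prod_congr rfl fun j hj => ?_
  rw [zpow_add₀ (sub_ne_zero.2 fun h => (Finset.mem_Ioi.1 hj).ne (hy h))]

theorem mono_zero {K : ℕ} (y : Fin K → ℂ) : mono (fun _ _ => 0) y = 1 := by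
  unfold mono
  simp

/-- The `k` points `1 / (y_(i+1) - y_0)`. -/
def rx {k : ℕ} (y : Fin (k + 1) → ℂ) : Fin k → ℂ := fun i => (y i.succ - y 0)⁻¹

theorem rx_inj {k : ℕ} {y : Fin (k + 1) → ℂ} (hy : Function.Injective y) : Function.Injective (rx y) := by
  intro i j h
  have h1 : y i.succ - y 0 = y j.succ - y 0 := inv_injective h
  have h2 : y i.succ = y j.succ := by linear_combination h1
  exact Fin.succ_injective _ (hy h2)

/-- Full sum against the sum over pairs. -/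
theorem sum_sym {k : ℕ} (B : Fin k → Fin k → ℤ) (hs : ∀ i j, B i j = B j i) (hd : ∀ i, B i i = 0) :
    ∑ i, ∑ j, B i j = 2 * ∑ i, ∑ j ∈ Finset.Ioi i, B i j := by
  have h1 : ∀ i, ∑ j, B i j = ∑ j ∈ {i}ᶜ, B j i := by
    intro i
    rw [← Finset.sum_add_sum_compl {i} (B i), Finset.sum_singleton, hd, zero_add]
    exact Finset.sum_congr rfl fun j _ => hs i j
  rw [Finset.sum_congr rfl fun i _ => h1 i, ← Finset.sum_sum_Ioi_add_eq_sum_sum_off_diag, Finset.mul_sum]
  refine Finset.sum_congr rfl fun i _ => ?_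
  rw [Finset.mul_sum]
  refine Finset.sum_congr rfl fun j _ => ?_
  rw [hs j i]
  ring

theorem prod_sym {k : ℕ} (B : Fin k → Fin k → ℤ) (hs : ∀ i j, B i j = B j i) (hd : ∀ i, B i i = 0) {v : Fin k → ℂ}
    (hv : ∀ i, v i ≠ 0) : ∏ i, ∏ j ∈ Finset.Ioi i, (v i * v j) ^ B i j = ∏ i, v i ^ ∑ j, B i j := by
  have h1 : ∀ i, v i ^ ∑ j, B i j = ∏ j ∈ {i}ᶜ, v i ^ B j i := by
    intro i
    rw [← prod_zpow_sum _ _ (hv i), ← Finset.prod_mul_prod_compl {i} (fun j => v i ^ B i j), Finset.prod_singleton, hd,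
      zpow_zero, one_mul]
    exact Finset.prod_congr rfl fun j _ => by rw [hs i j]
  rw [Finset.prod_congr rfl fun i _ => h1 i]
  rw [← Finset.prod_prod_Ioi_mul_eq_prod_prod_off_diag (fun j i => v i ^ B j i)]
  refine Finset.prod_congr rfl fun i _ => Finset.prod_congr rfl fun j _ => ?_
  rw [mul_zpow, hs j i]

theorem transfer {k : ℕ} {c : ℂ} (hc : c ≠ 0) (b : Pr k → ℤ) (hb : ∑ H, b H = 0) :
    ∃ (c' : ℂ) (E : Fin (k + 1) → Fin (k + 1) → ℤ), c' ≠ 0 ∧ Bal E ∧
      (∀ y, Function.Injective y → c * ∏ H, ell H (rx y) ^ b H = c' * mono E y) ∧ (E = (fun _ _ => 0) → b = fun _ => 0) := by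
  classical
  set B : Fin k → Fin k → ℤ := fun i j => if h : i < j then b ⟨(i, j), h⟩ else if h : j < i then b ⟨(j, i), h⟩ else 0 with hB
  have hBlt : ∀ i j (h : i < j), B i j = b ⟨(i, j), h⟩ := fun i j h => by rw [hB]; exact dif_pos h
  have hBs : ∀ i j, B i j = B j i := by
    intro i j
    rcases lt_trichotomy i j with h | h | h
    · rw [hBlt i j h, hB]
      show _ = (if h : j < i then b ⟨(j, i), h⟩ else if h : i < j then b ⟨(i, j), h⟩ else 0)
      rw [dif_neg h.asymm, dif_pos h]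
    · rw [h]
    · rw [hBlt j i h, hB]
      show (if h : i < j then b ⟨(i, j), h⟩ else if h : j < i then b ⟨(j, i), h⟩ else 0) = _
      rw [dif_neg h.asymm, dif_pos h]
  have hBd : ∀ i, B i i = 0 := fun i => by
    rw [hB]
    show (if h : i < i then b ⟨(i, i), h⟩ else if h : i < i then b ⟨(i, i), h⟩ else 0) = 0
    rw [dif_neg (lt_irrefl i), dif_neg (lt_irrefl i)]
  have hbB : ∀ H : Pr k, b H = B H.1.1 H.1.2 := fun H => (hBlt _ _ H.2).symm
  have hBsum : ∑ i, ∑ j ∈ Finset.Ioi i, B i j = 0 := by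
    rw [sum_pairs, ← hb]
    exact Finset.sum_congr rfl fun H _ => (hbB H).symm
  set d : Fin k → ℤ := fun i => ∑ j, B i j with hd
  set E : Fin (k + 1) → Fin (k + 1) → ℤ :=
    fun i j => Fin.cases (Fin.cases 0 (fun j' => -d j') j) (fun i' => Fin.cases (-d i') (fun j' => B i' j') j) i with hE
  have E00 : E 0 0 = 0 := rfl
  have E0s : ∀ j : Fin k, E 0 j.succ = -d j := fun j => rfl
  have Es0 : ∀ i : Fin k, E i.succ 0 = -d i := fun i => rfl
  have Ess : ∀ i j : Fin k, E i.succ j.succ = B i j := fun i j => rfl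
  have hdsum : ∑ i, d i = 0 := by
    rw [hd, sum_sym B hBs hBd, hBsum, mul_zero]
  refine ⟨c * (∏ i : Fin k, ∏ j ∈ Finset.Ioi i, (-1 : ℂ) ^ B i j) * ∏ i : Fin k, (-1 : ℂ) ^ d i, E, ?_, ⟨?_, ?_, ?_⟩, ?_, ?_⟩
  · have h1 : ∀ n : ℤ, (-1 : ℂ) ^ n ≠ 0 := fun n => zpow_ne_zero _ (by norm_num)
    exact mul_ne_zero (mul_ne_zero hc (Finset.prod_ne_zero_iff.2 fun i _ => Finset.prod_ne_zero_iff.2 fun j _ => h1 _))
      (Finset.prod_ne_zero_iff.2 fun i _ => h1 _)
  · intro i j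
    refine Fin.cases ?_ (fun i' => ?_) i
    · refine Fin.cases rfl (fun j' => ?_) j
      rw [E0s, Es0]
    · refine Fin.cases ?_ (fun j' => ?_) j
      · rw [E0s, Es0]
      · rw [Ess, Ess, hBs]
  · intro i
    refine Fin.cases rfl (fun i' => ?_) i
    rw [Ess, hBd]
  · intro i
    refine Fin.cases ?_ (fun i' => ?_) i
    · rw [Fin.sum_univ_succ, E00, zero_add]
      simp only [E0s]
      rw [Finset.sum_neg_distrib, hdsum, neg_zero]
    · rw [Fin.sum_univ_succ, Es0]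
      simp only [Ess]
      rw [hd]
      ring
  · intro y hy
    have h0 : ∀ i : Fin k, y i.succ - y 0 ≠ 0 := fun i => sub_ne_zero.2 fun h => Fin.succ_ne_zero i (hy h)
    have h0' : ∀ i : Fin k, y 0 - y i.succ ≠ 0 := fun i => sub_ne_zero.2 fun h => Fin.succ_ne_zero i (hy h).symm
    have h1 : ∏ H, ell H (rx y) ^ b H = ∏ i, ∏ j ∈ Finset.Ioi i, (rx y i - rx y j) ^ B i j := by
      rw [prod_pairs]
      exact Finset.prod_congr rfl fun H _ => by rw [hbB H]; rfl
    have h2 : ∀ i j : Fin k, (rx y i - rx y j) ^ B i j = (-1) ^ B i j * (y i.succ - y j.succ) ^ B i j *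
        ((y i.succ - y 0)⁻¹ * (y j.succ - y 0)⁻¹) ^ B i j := by
      intro i j
      rw [← mul_zpow, ← mul_zpow]
      congr 1
      unfold rx
      have h3 := h0 i
      have h4 := h0 j
      field_simp
      ring
    have h3 : ∏ i : Fin k, ∏ j ∈ Finset.Ioi i, ((y i.succ - y 0)⁻¹ * (y j.succ - y 0)⁻¹) ^ B i j =
        ∏ i : Fin k, ((y i.succ - y 0)⁻¹) ^ d i := prod_sym B hBs hBd (v := fun i => (y i.succ - y 0)⁻¹) fun i => inv_ne_zero (h0 i)
    have h4 : ∀ i : Fin k, ((y i.succ - y 0)⁻¹) ^ d i = (-1) ^ d i * (y 0 - y i.succ) ^ (-d i) := by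
      intro i
      rw [zpow_neg, ← inv_zpow, ← mul_zpow]
      congr 1
      have h5 := h0 i
      have h6 := h0' i
      field_simp
      ring
    have h5 : mono E y = (∏ j : Fin k, (y 0 - y j.succ) ^ (-d j)) * ∏ i : Fin k, ∏ j ∈ Finset.Ioi i, (y i.succ - y j.succ) ^ B i j := by
      unfold mono
      rw [Fin.prod_univ_succ, Fin.prod_Ioi_zero]
      congr 1
      refine Finset.prod_congr rfl fun i _ => ?_
      rw [Fin.prod_Ioi_succ]
      exact Finset.prod_congr rfl fun j _ => by rw [Ess]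
    rw [h1, h5]
    simp only [h2, Finset.prod_mul_distrib]
    rw [h3]
    simp only [h4, Finset.prod_mul_distrib]
    ring
  · intro h
    funext H
    rw [hbB H, ← Ess, h]

end Pool.Agent.H60.OC
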