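import Pool.Agent.H60.OC.TD

/-!
# OC CR: cross ratios which are never equal
-/

set_option autoImplicit false

open Filter Topology

noncomputable section

namespace Pool.Agent.H60.OC

variable {K : ℕ}

theorem cr_k1 (y : Fin K → ℂ) (a b c s : Fin K) : cr y b a s c = cr y a b c s := by
  unfold cr
  congr 1 <;> ring

theorem cr_k2 (y : Fin K → ℂ) (a b c s : Fin K) : cr y c s a b = cr y a b c s := by
  unfold cr
  congr 1 <;> ring

theorem cr_k3 (y : Fin K → ℂ) (a b c s : Fin K) : cr y s c b a = cr y a b c s := by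
  unfold cr
  congr 1 <;> ring

/-- A configuration with exactly one coincidence. -/
def mg (x x' : Fin K) : Fin K → ℂ := fun i => if i = x' then ((x : ℕ) : ℂ) else ((i : ℕ) : ℂ)

theorem mg_eq {x x' : Fin K} (_ : x ≠ x') {i j : Fin K} (hij : i ≠ j) (he : mg x x' i - mg x x' j = 0) :
    (i = x ∧ j = x') ∨ (i = x' ∧ j = x) := by
  have h1 : mg x x' i = mg x x' j := sub_eq_zero.1 he
  unfold mg at h1
  split_ifs at h1 with h2 h3 h3
  · exact absurd (h2.trans h3.symm) hij
  · have h4 : x = j := Fin.ext (by exact_mod_cast h1)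
    exact Or.inr ⟨h2, h4.symm⟩
  · have h4 : i = x := Fin.ext (by exact_mod_cast h1)
    exact Or.inl ⟨h4, h3⟩
  · have h4 : i = j := Fin.ext (by exact_mod_cast h1)
    exact absurd h4 hij

theorem mg_self (x x' : Fin K) : mg x x' x - mg x x' x' = 0 := by
  unfold mg
  rw [if_pos rfl]
  split_ifs <;> simp

/-- The polynomial identity of the proof of `never`. -/
theorem klein_of {a b c s a' b' c' g : Fin K} (hab : a ≠ b) (hac : a ≠ c) (has : a ≠ s) (hbc : b ≠ c) (hbs : b ≠ s) (hcs : c ≠ s)
    (hab' : a' ≠ b') (hac' : a' ≠ c') (hag' : a' ≠ g) (hbc' : b' ≠ c') (hcg' : c' ≠ g)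
    (h : ∀ z : Fin K → ℂ, (z g - z a') * (z b' - z c') * (z s - z c) * (z b - z a) -
      (z s - z a) * (z b - z c) * (z g - z c') * (z b' - z a') = 0) :
    (a' = a ∧ b' = b ∧ c' = c ∧ g = s) ∨ (a' = b ∧ b' = a ∧ c' = s ∧ g = c) ∨ (a' = c ∧ b' = s ∧ c' = a ∧ g = b) ∨
      (a' = s ∧ b' = c ∧ c' = b ∧ g = a) := by
  have e1 : ((g = s ∧ a' = a) ∨ (g = a ∧ a' = s)) ∨ ((b' = s ∧ c' = a) ∨ (b' = a ∧ c' = s)) := by
    have h1 := h (mg s a)
    rw [mg_self s a, zero_mul, zero_mul, zero_mul, sub_zero] at h1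
    rcases mul_eq_zero.1 h1 with h2 | h2
    · rcases mul_eq_zero.1 h2 with h3 | h3
      · rcases mul_eq_zero.1 h3 with h4 | h4
        · exact Or.inl (mg_eq has.symm hag'.symm h4)
        · exact Or.inr (mg_eq has.symm hbc' h4)
      · have := mg_eq has.symm hcs.symm h3
        grind
    · have := mg_eq has.symm hab.symm h2
      grind
  have e2 : ((g = b ∧ a' = c) ∨ (g = c ∧ a' = b)) ∨ ((b' = b ∧ c' = c) ∨ (b' = c ∧ c' = b)) := by
    have h1 := h (mg b c)
    rw [mg_self b c, mul_zero, zero_mul, zero_mul, sub_zero] at h1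
    rcases mul_eq_zero.1 h1 with h2 | h2
    · rcases mul_eq_zero.1 h2 with h3 | h3
      · rcases mul_eq_zero.1 h3 with h4 | h4
        · exact Or.inl (mg_eq hbc hag'.symm h4)
        · exact Or.inr (mg_eq hbc hbc' h4)
      · have := mg_eq hbc hcs.symm h3
        grind
    · have := mg_eq hbc hab.symm h2
      grind
  have e3 : ((g = s ∧ c' = c) ∨ (g = c ∧ c' = s)) ∨ ((b' = s ∧ a' = c) ∨ (b' = c ∧ a' = s)) := by
    have h1 := h (mg s c)
    rw [mg_self s c, mul_zero, zero_mul, zero_sub, neg_eq_zero] at h1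
    rcases mul_eq_zero.1 h1 with h2 | h2
    · rcases mul_eq_zero.1 h2 with h3 | h3
      · rcases mul_eq_zero.1 h3 with h4 | h4
        · have := mg_eq hcs.symm has.symm h4
          grind
        · have := mg_eq hcs.symm hbc h4
          grind
      · exact Or.inl (mg_eq hcs.symm hcg'.symm h3)
    · exact Or.inr (mg_eq hcs.symm hab'.symm h2)
  have e4 : ((g = b ∧ c' = a) ∨ (g = a ∧ c' = b)) ∨ ((b' = b ∧ a' = a) ∨ (b' = a ∧ a' = b)) := by
    have h1 := h (mg b a)
    rw [mg_self b a, mul_zero, zero_sub, neg_eq_zero] at h1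
    rcases mul_eq_zero.1 h1 with h2 | h2
    · rcases mul_eq_zero.1 h2 with h3 | h3
      · rcases mul_eq_zero.1 h3 with h4 | h4
        · have := mg_eq hab.symm has.symm h4
          grind
        · have := mg_eq hab.symm hbc h4
          grind
      · exact Or.inl (mg_eq hab.symm hcg'.symm h3)
    · exact Or.inr (mg_eq hab.symm hab'.symm h2)
  have f1 : (b' = b ∧ c' = c ∧ ((g = s ∧ a' = a) ∨ (g = a ∧ a' = s))) ∨ (b' = c ∧ c' = b ∧ ((g = s ∧ a' = a) ∨ (g = a ∧ a' = s))) ∨
      (((g = b ∧ a' = c) ∨ (g = c ∧ a' = b)) ∧ ((b' = s ∧ c' = a) ∨ (b' = a ∧ c' = s))) := by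
    rcases e1 with e1 | e1 <;> rcases e2 with e2 | e2 <;> grind
  rcases f1 with ⟨f2, f3, f4⟩ | ⟨f2, f3, f4⟩ | ⟨f2, f3⟩
  · grind
  · grind
  · rcases f2 with f2 | f2 <;> rcases f3 with f3 | f3 <;> grind

theorem not_simple {a b c s a' b' c' : Fin K} (hab : a ≠ b) (hac : a ≠ c) (has : a ≠ s) (hbc : b ≠ c) (hbs : b ≠ s) (hcs : c ≠ s)
    (hbc' : b' ≠ c')
    (h : ∀ z : Fin K → ℂ, (z b' - z c') * (z s - z c) * (z b - z a) - (z s - z a) * (z b - z c) * (z b' - z a') = 0) : False := by
  have e1 : (b' = s ∧ c' = a) ∨ (b' = a ∧ c' = s) := by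
    have h1 := h (mg s a)
    rw [mg_self s a, zero_mul, zero_mul, sub_zero] at h1
    rcases mul_eq_zero.1 h1 with h2 | h2
    · rcases mul_eq_zero.1 h2 with h3 | h3
      · exact mg_eq has.symm hbc' h3
      · have := mg_eq has.symm hcs.symm h3
        grind
    · have := mg_eq has.symm hab.symm h2
      grind
  have e2 : (b' = b ∧ c' = c) ∨ (b' = c ∧ c' = b) := by
    have h1 := h (mg b c)
    rw [mg_self b c, mul_zero, zero_mul, sub_zero] at h1
    rcases mul_eq_zero.1 h1 with h2 | h2
    · rcases mul_eq_zero.1 h2 with h3 | h3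
      · exact mg_eq hbc hbc' h3
      · have := mg_eq hbc hcs.symm h3
        grind
    · have := mg_eq hbc hab.symm h2
      grind
  grind

theorem never {a b c s a' b' c' s' : Fin K} (hab : a ≠ b) (hac : a ≠ c) (has : a ≠ s) (hbc : b ≠ c) (hbs : b ≠ s) (hcs : c ≠ s)
    (hab' : a' ≠ b') (hac' : a' ≠ c') (has' : a' ≠ s') (hbc' : b' ≠ c') (hbs' : b' ≠ s') (hcs' : c' ≠ s')
    (h1 : s' ≠ a) (h2 : s' ≠ b) (h3 : s' ≠ c) (h4 : s' ≠ s)
    (hn : ∀ y, Function.Injective y → cr y a b c s ≠ cr y a' b' c' s') :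
    ∃ g, (a' = a ∧ b' = b ∧ c' = c ∧ g = s) ∨ (a' = b ∧ b' = a ∧ c' = s ∧ g = c) ∨ (a' = c ∧ b' = s ∧ c' = a ∧ g = b) ∨
      (a' = s ∧ b' = c ∧ c' = b ∧ g = a) := by
  classical
  set G : Finset (Fin K) := Finset.univ.filter fun g => g ≠ a' ∧ g ≠ b' ∧ g ≠ c' ∧ g ≠ s' with hG
  -- the product of the values vanishes for the injective configurations
  set Pg : Fin K → MvPolynomial (Fin K) ℂ := fun g =>
    (MvPolynomial.X g - MvPolynomial.X a') * (MvPolynomial.X b' - MvPolynomial.X c') * (MvPolynomial.X s - MvPolynomial.X c) *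
      (MvPolynomial.X b - MvPolynomial.X a) - (MvPolynomial.X s - MvPolynomial.X a) * (MvPolynomial.X b - MvPolynomial.X c) *
      (MvPolynomial.X g - MvPolynomial.X c') * (MvPolynomial.X b' - MvPolynomial.X a') with hPg
  set Pi : MvPolynomial (Fin K) ℂ :=
    (MvPolynomial.X b' - MvPolynomial.X c') * (MvPolynomial.X s - MvPolynomial.X c) *
      (MvPolynomial.X b - MvPolynomial.X a) - (MvPolynomial.X s - MvPolynomial.X a) * (MvPolynomial.X b - MvPolynomial.X c) *
      (MvPolynomial.X b' - MvPolynomial.X a') with hPi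
  have evg : ∀ g z, MvPolynomial.eval z (Pg g) = (z g - z a') * (z b' - z c') * (z s - z c) * (z b - z a) -
      (z s - z a) * (z b - z c) * (z g - z c') * (z b' - z a') := by
    intro g z
    rw [hPg]
    simp
  have evi : ∀ z, MvPolynomial.eval z Pi = (z b' - z c') * (z s - z c) * (z b - z a) - (z s - z a) * (z b - z c) * (z b' - z a') := by
    intro z
    rw [hPi]
    simp
  have hzero : ∀ z, Function.Injective z → MvPolynomial.eval z (Pi * ∏ g ∈ G, Pg g) = 0 := by
    intro z hz
    have sub : ∀ {i j : Fin K}, i ≠ j → z i - z j ≠ 0 := fun {i j} hij => sub_ne_zero.2 fun h => hij (hz h)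
    rw [map_mul, map_prod]
    by_contra hcon
    have hPi0 : MvPolynomial.eval z Pi ≠ 0 := fun h => hcon (by rw [h, zero_mul])
    have hPg0 : ∀ g ∈ G, MvPolynomial.eval z (Pg g) ≠ 0 := fun g hg h => hcon (by rw [Finset.prod_eq_zero hg h, mul_zero])
    set w : ℂ := cr z a b c s with hw
    set De : ℂ := (z s - z c) * (z b - z a) with hDe
    set Nu : ℂ := (z s - z a) * (z b - z c) with hNu
    have hDe0 : De ≠ 0 := mul_ne_zero (sub hcs.symm) (sub hab.symm)
    have hNu0 : Nu ≠ 0 := mul_ne_zero (sub has.symm) (sub hbc)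
    have hwe : w * De = Nu := by rw [hw, cr, div_mul_cancel₀ _ hDe0]
    set D : ℂ := (z b' - z c') - w * (z b' - z a') with hD
    have hD0 : D ≠ 0 := by
      intro h0
      apply hPi0
      rw [evi]
      have h5 : (z b' - z c') * (z s - z c) * (z b - z a) - (z s - z a) * (z b - z c) * (z b' - z a') = D * De := by
        have hwe' := hwe
        rw [hDe, hNu] at hwe'
        rw [hD, hDe]
        linear_combination (z b' - z a') * hwe'
      rw [h5, h0, zero_mul]
    set p : ℂ := (z a' * (z b' - z c') - w * z c' * (z b' - z a')) / D with hp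
    have hpD : p * D = z a' * (z b' - z c') - w * z c' * (z b' - z a') := by rw [hp, div_mul_cancel₀ _ hD0]
    -- the equation of `p`
    have hpe : (p - z a') * (z b' - z c') = w * (p - z c') * (z b' - z a') := by
      rw [hD] at hpD
      linear_combination hpD
    have hpne : ∀ g, g ≠ s' → p ≠ z g := by
      intro g hg h0
      rw [h0] at hpe
      have hev : (z g - z a') * (z b' - z c') * De - Nu * (z g - z c') * (z b' - z a') = 0 := by
        rw [← hwe]
        linear_combination De * hpe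
      by_cases ga : g = a'
      · rw [ga, sub_self, zero_mul, zero_mul, zero_sub, neg_eq_zero] at hev
        exact mul_ne_zero (mul_ne_zero hNu0 (sub hac')) (sub hab'.symm) hev
      by_cases gc : g = c'
      · rw [gc, sub_self, mul_zero, zero_mul, sub_zero] at hev
        exact mul_ne_zero (mul_ne_zero (sub hac'.symm) (sub hbc')) hDe0 hev
      by_cases gb : g = b'
      · rw [gb] at hev
        have h5 : (z b' - z a') * (z b' - z c') * (De - Nu) = 0 := by linear_combination hev
        have h6 : De - Nu = (z s - z b) * (z c - z a) := by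
          rw [hDe, hNu]
          ring
        rw [h6] at h5
        exact mul_ne_zero (mul_ne_zero (sub hab'.symm) (sub hbc')) (mul_ne_zero (sub hbs.symm) (sub hac.symm)) h5
      · apply hPg0 g (Finset.mem_filter.2 ⟨Finset.mem_univ _, ga, gb, gc, hg⟩)
        rw [evg]
        linear_combination hev
    -- the configuration with `p` in place of `z s'`
    set y : Fin K → ℂ := Function.update z s' p with hy
    have yne : ∀ j, j ≠ s' → y j = z j := fun j hj => Function.update_of_ne hj _ _
    have ys : y s' = p := Function.update_self _ _ _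
    have hyi : Function.Injective y := by
      intro i j hij
      by_cases hi : i = s'
      · by_cases hj : j = s'
        · rw [hi, hj]
        · rw [hi, ys, yne j hj] at hij
          exact absurd hij (hpne j hj)
      · by_cases hj : j = s'
        · rw [hj, ys, yne i hi] at hij
          exact absurd hij.symm (hpne i hi)
        · rw [yne i hi, yne j hj] at hij
          exact hz hij
    apply hn y hyi
    have e1 : cr y a b c s = w := by
      rw [hw, cr, cr, yne a h1.symm, yne b h2.symm, yne c h3.symm, yne s h4.symm]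
    rw [e1, cr, yne a' has', yne b' hbs', yne c' hcs', ys]
    rw [eq_div_iff (mul_ne_zero (sub_ne_zero.2 (hpne c' hcs')) (sub hab'.symm)), hpe]
    ring
  have hall : ∀ z, MvPolynomial.eval z (Pi * ∏ g ∈ G, Pg g) = 0 :=
    ext_all (MvPolynomial.continuous_eval _) hzero
  have hQ : Pi * ∏ g ∈ G, Pg g = 0 := MvPolynomial.funext fun z => by rw [hall z, map_zero]
  rcases mul_eq_zero.1 hQ with h5 | h5
  · exfalso
    exact not_simple hab hac has hbc hbs hcs hbc' fun z => by rw [← evi z, h5, map_zero]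
  · obtain ⟨g, hg, h6⟩ := Finset.prod_eq_zero_iff.1 h5
    obtain ⟨-, ga, gb, gc, gs⟩ := Finset.mem_filter.1 hg
    exact ⟨g, klein_of hab hac has hbc hbs hcs hab' hac' ga.symm hbc' gc.symm fun z => by rw [← evg g z, h6, map_zero]⟩

end Pool.Agent.H60.OC
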