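import Pool.Agent.H60.OC.Bal

/-!
# OC Cfg: configurations with prescribed points
-/

set_option autoImplicit false

open Filter Topology

noncomputable section

namespace Pool.Agent.H60.OC

/-- The cross ratio: the value at `y_s` of the Moebius map with `y_a ↦ 0`, `y_b ↦ 1`, `y_c ↦ ∞`. -/
def cr {K : ℕ} (y : Fin K → ℂ) (a b c s : Fin K) : ℂ := (y s - y a) * (y b - y c) / ((y s - y c) * (y b - y a))

theorem inj4 {α : Type*} {a b c d : α} (hab : a ≠ b) (hac : a ≠ c) (had : a ≠ d) (hbc : b ≠ c) (hbd : b ≠ d) (hcd : c ≠ d) :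
    Function.Injective ![a, b, c, d] := by
  intro i j h
  fin_cases i <;> fin_cases j <;> simp_all

theorem inj5 {α : Type*} {a b c d e : α} (hab : a ≠ b) (hac : a ≠ c) (had : a ≠ d) (hae : a ≠ e) (hbc : b ≠ c) (hbd : b ≠ d)
    (hbe : b ≠ e) (hcd : c ≠ d) (hce : c ≠ e) (hde : d ≠ e) : Function.Injective ![a, b, c, d, e] := by
  intro i j h
  fin_cases i <;> fin_cases j <;> simp_all

theorem exists_inj {K n : ℕ} {σ : Fin n → Fin K} (hσ : Function.Injective σ) {v : Fin n → ℂ} (hv : Function.Injective v) :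
    ∃ y : Fin K → ℂ, Function.Injective y ∧ ∀ i, y (σ i) = v i := by
  classical
  set S : ℝ := ∑ i, ‖v i‖ with hS
  have hle : ∀ i, ‖v i‖ ≤ S := fun i => Finset.single_le_sum (f := fun i => ‖v i‖) (fun i _ => norm_nonneg _) (Finset.mem_univ i)
  have hS0 : 0 ≤ S := Finset.sum_nonneg fun i _ => norm_nonneg _
  set w : Fin K → ℂ := fun j => ((1 + S + (j : ℕ) : ℝ) : ℂ) with hw
  have hwn : ∀ j, S < ‖w j‖ := by
    intro j
    have h0 : (0 : ℝ) ≤ (j : ℕ) := Nat.cast_nonneg _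
    rw [hw]
    show S < ‖((1 + S + (j : ℕ) : ℝ) : ℂ)‖
    rw [Complex.norm_real, Real.norm_of_nonneg (by linarith)]
    linarith
  have hne : ∀ i j, v i ≠ w j := fun i j h => by
    have h1 := hle i
    have h2 := hwn j
    rw [h] at h1
    linarith
  refine ⟨Function.extend σ v w, ?_, fun i => hσ.extend_apply v w i⟩
  intro x x' h
  by_cases h1 : ∃ i, σ i = x
  · obtain ⟨i, rfl⟩ := h1
    rw [hσ.extend_apply] at h
    by_cases h2 : ∃ i, σ i = x'
    · obtain ⟨i', rfl⟩ := h2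
      rw [hσ.extend_apply] at h
      rw [hv h]
    · rw [Function.extend_apply' _ _ _ h2] at h
      exact absurd h (hne _ _)
  · rw [Function.extend_apply' _ _ _ h1] at h
    by_cases h2 : ∃ i, σ i = x'
    · obtain ⟨i', rfl⟩ := h2
      rw [hσ.extend_apply] at h
      exact absurd h.symm (hne _ _)
    · rw [Function.extend_apply' _ _ _ h2] at h
      have h3' : ((1 + S + (x : ℕ) : ℝ) : ℂ) = ((1 + S + (x' : ℕ) : ℝ) : ℂ) := h
      have h3 : (1 + S + (x : ℕ) : ℝ) = 1 + S + (x' : ℕ) := Complex.ofReal_injective h3'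
      exact Fin.ext (by
        have h4 : ((x : ℕ) : ℝ) = (x' : ℕ) := by linarith
        exact_mod_cast h4)

theorem exists_inj4 {K : ℕ} {a b c d : Fin K} (hab : a ≠ b) (hac : a ≠ c) (had : a ≠ d) (hbc : b ≠ c) (hbd : b ≠ d) (hcd : c ≠ d)
    {A B C D : ℂ} (hAB : A ≠ B) (hAC : A ≠ C) (hAD : A ≠ D) (hBC : B ≠ C) (hBD : B ≠ D) (hCD : C ≠ D) :
    ∃ y : Fin K → ℂ, Function.Injective y ∧ y a = A ∧ y b = B ∧ y c = C ∧ y d = D := by
  obtain ⟨y, hy, h⟩ := exists_inj (inj4 hab hac had hbc hbd hcd) (inj4 hAB hAC hAD hBC hBD hCD)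
  exact ⟨y, hy, h 0, h 1, h 2, h 3⟩

theorem exists_inj5 {K : ℕ} {a b c d e : Fin K} (hab : a ≠ b) (hac : a ≠ c) (had : a ≠ d) (hae : a ≠ e) (hbc : b ≠ c)
    (hbd : b ≠ d) (hbe : b ≠ e) (hcd : c ≠ d) (hce : c ≠ e) (hde : d ≠ e)
    {A B C D E : ℂ} (hAB : A ≠ B) (hAC : A ≠ C) (hAD : A ≠ D) (hAE : A ≠ E) (hBC : B ≠ C) (hBD : B ≠ D) (hBE : B ≠ E)
    (hCD : C ≠ D) (hCE : C ≠ E) (hDE : D ≠ E) :
    ∃ y : Fin K → ℂ, Function.Injective y ∧ y a = A ∧ y b = B ∧ y c = C ∧ y d = D ∧ y e = E := by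
  obtain ⟨y, hy, h⟩ := exists_inj (inj5 hab hac had hae hbc hbd hbe hcd hce hde) (inj5 hAB hAC hAD hAE hBC hBD hBE hCD hCE hDE)
  exact ⟨y, hy, h 0, h 1, h 2, h 3, h 4⟩

/-- The cross ratio takes every value except `0` and `1`. -/
theorem cr_surj {K : ℕ} {a b c s : Fin K} (hab : a ≠ b) (hac : a ≠ c) (has : a ≠ s) (hbc : b ≠ c) (hbs : b ≠ s) (hcs : c ≠ s)
    {w : ℂ} (h0 : w ≠ 0) (h1 : w ≠ 1) : ∃ y : Fin K → ℂ, Function.Injective y ∧ cr y a b c s = w := by
  by_cases h2 : w = -1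
  · obtain ⟨y, hy, ha, hb, hc, hs⟩ := exists_inj4 hab hac has hbc hbs hcs (A := 0) (B := 1) (C := 3) (D := -3)
      (by norm_num) (by norm_num) (by norm_num) (by norm_num) (by norm_num) (by norm_num)
    refine ⟨y, hy, ?_⟩
    rw [cr, ha, hb, hc, hs, h2]
    norm_num
  by_cases h3 : w = 2
  · obtain ⟨y, hy, ha, hb, hc, hs⟩ := exists_inj4 hab hac has hbc hbs hcs (A := 0) (B := 1) (C := 3) (D := 3 / 2)
      (by norm_num) (by norm_num) (by norm_num) (by norm_num) (by norm_num) (by norm_num)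
    refine ⟨y, hy, ?_⟩
    rw [cr, ha, hb, hc, hs, h3]
    norm_num
  · -- `(0, 1, -1, s)` with `s (1 + 1) = w (s + 1)`, `s = w / (2 - w)`
    have h4 : (2 : ℂ) - w ≠ 0 := sub_ne_zero.2 (Ne.symm h3)
    obtain ⟨y, hy, ha, hb, hc, hs⟩ := exists_inj4 hab hac has hbc hbs hcs (A := 0) (B := 1) (C := -1) (D := w / (2 - w))
      (by norm_num) (by norm_num) (fun h => (div_ne_zero h0 h4) h.symm) (by norm_num)
      (fun h => by
        rw [eq_div_iff h4] at h
        apply h1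
        linear_combination -h / 2)
      (fun h => by
        rw [eq_div_iff h4] at h
        have h5 : (2 : ℂ) = 0 := by linear_combination -h
        norm_num at h5)
    refine ⟨y, hy, ?_⟩
    rw [cr, ha, hb, hc, hs]
    have h5 : w / (2 - w) - -1 ≠ 0 := by
      intro h6
      have h7 : w + (2 - w) = 0 := by
        have h8 : (w / (2 - w) - -1) * (2 - w) = w + (2 - w) := by field_simp; ring
        rw [← h8, h6, zero_mul]
      have h9 : (2 : ℂ) = 0 := by linear_combination h7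
      norm_num at h9
    rw [div_eq_iff (mul_ne_zero h5 (by norm_num))]
    field_simp
    ring

end Pool.Agent.H60.OC
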