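import Pool.Agent.H60.OC.Defs

/-!
# OC Conf: pairs, the normalised configuration
-/

set_option autoImplicit false

open Filter Topology

noncomputable section

namespace Pool.Agent.H60.OC

/-- The pairs `i < j`. -/
abbrev Pr (k : ℕ) : Type := {p : Fin k × Fin k // p.1 < p.2}

/-- The number of pairs. -/
abbrev NN (k : ℕ) : ℕ := Fintype.card (Pr k)

/-- The linear form `x_i - x_j` of a pair. -/
def ell {k : ℕ} (p : Pr k) (x : Fin k → ℂ) : ℂ := x p.1.1 - x p.1.2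

theorem prod_zpow_sum {ι : Type*} (s : Finset ι) (f : ι → ℤ) {a : ℂ} (ha : a ≠ 0) :
    ∏ i ∈ s, a ^ f i = a ^ ∑ i ∈ s, f i := by
  classical
  induction s using Finset.induction_on with
  | empty => simp
  | insert i s hi ih => rw [Finset.prod_insert hi, Finset.sum_insert hi, ih, zpow_add₀ ha]

theorem prod_pairs {k : ℕ} {M : Type*} [CommMonoid M] (f : Fin k → Fin k → M) :
    ∏ i, ∏ j ∈ Finset.Ioi i, f i j = ∏ p : Pr k, f p.1.1 p.1.2 := by
  rw [Finset.prod_sigma']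
  refine Finset.prod_bij' (fun (x : (_ : Fin k) × Fin k) hx => (⟨(x.1, x.2), by
    rw [Finset.mem_sigma, Finset.mem_Ioi] at hx
    exact hx.2⟩ : Pr k)) (fun (p : Pr k) _ => (⟨p.1.1, p.1.2⟩ : (_ : Fin k) × Fin k)) ?_ ?_ ?_ ?_ ?_
  · intro _ _
    exact Finset.mem_univ _
  · intro p _
    rw [Finset.mem_sigma, Finset.mem_Ioi]
    exact ⟨Finset.mem_univ _, p.2⟩
  · intro _ _
    rfl
  · intro _ _
    rfl
  · intro _ _
    rfl

theorem sum_pairs {k : ℕ} (f : Fin k → Fin k → ℤ) :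
    ∑ i, ∑ j ∈ Finset.Ioi i, f i j = ∑ p : Pr k, f p.1.1 p.1.2 := by
  have h := prod_pairs (M := Multiplicative ℤ) fun i j => Multiplicative.ofAdd (f i j)
  exact h

theorem vd_eq {k : ℕ} (x : Fin k → ℂ) : vd x = ∏ p : Pr k, ell p x := prod_pairs fun i j => x i - x j

theorem vd_ne_iff {k : ℕ} {x : Fin k → ℂ} : vd x ≠ 0 ↔ Function.Injective x := by
  rw [vd_eq, Finset.prod_ne_zero_iff]
  constructor
  · intro h i j hij
    by_contra hne
    rcases lt_or_gt_of_ne hne with h1 | h1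
    · exact h ⟨(i, j), h1⟩ (Finset.mem_univ _) (sub_eq_zero.2 hij)
    · exact h ⟨(j, i), h1⟩ (Finset.mem_univ _) (sub_eq_zero.2 hij.symm)
  · intro h p _ h0
    exact p.2.ne (h (sub_eq_zero.1 h0))

theorem NN_pos {k : ℕ} (hk : 2 ≤ k) : 0 < NN k :=
  Fintype.card_pos_iff.2 ⟨⟨(⟨0, by omega⟩, ⟨1, by omega⟩), by simp⟩⟩

/-- The normalised configuration. -/
def nm {k : ℕ} (x : Fin k → ℂ) (t : ℂ) : Fin k → ℂ := fun i => (x i - (∑ j, x j) / k) / t

theorem ell_nm {k : ℕ} (p : Pr k) (x : Fin k → ℂ) (t : ℂ) : ell p (nm x t) = ell p x / t := by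
  unfold ell nm
  ring

theorem vd_nm {k : ℕ} (x : Fin k → ℂ) (t : ℂ) : vd (nm x t) = vd x / t ^ NN k := by
  rw [vd_eq, vd_eq]
  simp only [ell_nm]
  rw [Finset.prod_div_distrib, Finset.prod_const, Finset.card_univ]

theorem nm_mem {k : ℕ} (hk : 2 ≤ k) {x : Fin k → ℂ} {t : ℂ} (ht0 : t ≠ 0) (ht : t ^ NN k = vd x) : nm x t ∈ MF k := by
  have hkC : (k : ℂ) ≠ 0 := by
    have : k ≠ 0 := by omega
    exact_mod_cast this
  constructor
  · unfold nm
    rw [← Finset.sum_div, Finset.sum_sub_distrib, Finset.sum_const, Finset.card_univ, Fintype.card_fin, nsmul_eq_mul,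
      mul_div_cancel₀ _ hkC, sub_self, zero_div]
  · rw [vd_nm, ht]
    exact div_self (by rw [← ht]; exact pow_ne_zero _ ht0)

theorem nm_self {k : ℕ} {x : Fin k → ℂ} (hx : x ∈ MF k) : nm x 1 = x := by
  funext i
  unfold nm
  rw [hx.1, zero_div, sub_zero, div_one]

theorem inj_of_mem {k : ℕ} {x : Fin k → ℂ} (hx : x ∈ MF k) : Function.Injective x := by
  rw [← vd_ne_iff, hx.2]
  exact one_ne_zero

theorem nm_smul {k : ℕ} (x : Fin k → ℂ) {t l : ℂ} (hl : l ≠ 0) : nm (fun i => l * x i) (l * t) = nm x t := by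
  funext i
  unfold nm
  rw [← Finset.mul_sum, mul_div_assoc, ← mul_sub, mul_div_mul_left _ _ hl]

/-- The hypotheses on a function on `MF k`. -/
structure Hy {k : ℕ} (u : (Fin k → ℂ) → ℂ) : Prop where
  hol : CHol (MF k) u
  cont : ContinuousOn u (MF k)
  om : ∀ x ∈ MF k, u x ≠ 0 ∧ u x ≠ 1

theorem Hy.sub {k : ℕ} {u : (Fin k → ℂ) → ℂ} (h : Hy u) : Hy (fun x => 1 - u x) where
  hol γ w₀ h1 h2 := analyticAt_const.fun_sub (h.hol γ w₀ h1 h2)
  cont := continuousOn_const.sub h.cont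
  om x hx := ⟨sub_ne_zero.2 (h.om x hx).2.symm, fun h1 => (h.om x hx).1 (by linear_combination -h1)⟩

end Pool.Agent.H60.OC
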