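import Pool.Agent.H60.OC.CR

/-!
# OC Count: at most `K - 3` cross ratios which are pairwise never equal
-/

set_option autoImplicit false

open Filter Topology

noncomputable section

namespace Pool.Agent.H60.OC

variable {K : ℕ}

/-- The cross ratios obtained from `cr a b c s` by replacing one of the four points by `e`. -/
def rep (a b c s e : Fin K) (i : Fin 4) (y : Fin K → ℂ) : ℂ :=
  match i with
  | 0 => cr y e b c s
  | 1 => cr y a e c s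
  | 2 => cr y a b e s
  | 3 => cr y a b c e

theorem rep_meet {a b c s e : Fin K} (hab : a ≠ b) (hac : a ≠ c) (has : a ≠ s) (hae : a ≠ e) (hbc : b ≠ c) (hbs : b ≠ s) (hbe : b ≠ e)
    (hcs : c ≠ s) (hce : c ≠ e) (hse : s ≠ e) (i j : Fin 4) :
    ∃ y, Function.Injective y ∧ rep a b c s e i y = rep a b c s e j y := by
  obtain ⟨y₁, hy₁, a₁, b₁, c₁, s₁, e₁⟩ := exists_inj5 hab hac has hae hbc hbs hbe hcs hce hse (A := 1) (B := 1 / 2) (C := 1 / 3)
    (D := 1 / 4) (E := 0) (by norm_num) (by norm_num) (by norm_num) (by norm_num) (by norm_num) (by norm_num) (by norm_num)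
    (by norm_num) (by norm_num) (by norm_num)
  obtain ⟨y₂, hy₂, a₂, b₂, c₂, s₂, e₂⟩ := exists_inj5 hab hac has hae hbc hbs hbe hcs hce hse (A := 1) (B := 1 / 2) (C := 1 / 4)
    (D := 1 / 3) (E := 0) (by norm_num) (by norm_num) (by norm_num) (by norm_num) (by norm_num) (by norm_num) (by norm_num)
    (by norm_num) (by norm_num) (by norm_num)
  obtain ⟨y₃, hy₃, a₃, b₃, c₃, s₃, e₃⟩ := exists_inj5 hab hac has hae hbc hbs hbe hcs hce hse (A := 1) (B := 1 / 4) (C := 1 / 2)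
    (D := 1 / 3) (E := 0) (by norm_num) (by norm_num) (by norm_num) (by norm_num) (by norm_num) (by norm_num) (by norm_num)
    (by norm_num) (by norm_num) (by norm_num)
  fin_cases i <;> fin_cases j
  · exact ⟨y₁, hy₁, rfl⟩
  · refine ⟨y₃, hy₃, ?_⟩
    simp only [rep, cr, a₃, b₃, c₃, s₃, e₃]
    norm_num
  · refine ⟨y₂, hy₂, ?_⟩
    simp only [rep, cr, a₂, b₂, c₂, s₂, e₂]
    norm_num
  · refine ⟨y₁, hy₁, ?_⟩
    simp only [rep, cr, a₁, b₁, c₁, s₁, e₁]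
    norm_num
  · refine ⟨y₃, hy₃, ?_⟩
    simp only [rep, cr, a₃, b₃, c₃, s₃, e₃]
    norm_num
  · exact ⟨y₁, hy₁, rfl⟩
  · refine ⟨y₁, hy₁, ?_⟩
    simp only [rep, cr, a₁, b₁, c₁, s₁, e₁]
    norm_num
  · refine ⟨y₂, hy₂, ?_⟩
    simp only [rep, cr, a₂, b₂, c₂, s₂, e₂]
    norm_num
  · refine ⟨y₂, hy₂, ?_⟩
    simp only [rep, cr, a₂, b₂, c₂, s₂, e₂]
    norm_num
  · refine ⟨y₁, hy₁, ?_⟩
    simp only [rep, cr, a₁, b₁, c₁, s₁, e₁]
    norm_num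
  · exact ⟨y₁, hy₁, rfl⟩
  · refine ⟨y₃, hy₃, ?_⟩
    simp only [rep, cr, a₃, b₃, c₃, s₃, e₃]
    norm_num
  · refine ⟨y₁, hy₁, ?_⟩
    simp only [rep, cr, a₁, b₁, c₁, s₁, e₁]
    norm_num
  · refine ⟨y₂, hy₂, ?_⟩
    simp only [rep, cr, a₂, b₂, c₂, s₂, e₂]
    norm_num
  · refine ⟨y₃, hy₃, ?_⟩
    simp only [rep, cr, a₃, b₃, c₃, s₃, e₃]
    norm_num
  · exact ⟨y₁, hy₁, rfl⟩

theorem cr_swap1 {y : Fin K → ℂ} (hy : Function.Injective y) {a b c s : Fin K} (hab : a ≠ b) (hcs : c ≠ s) :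
    cr y b a c s = 1 - cr y a b c s := by
  have h1 : y s - y c ≠ 0 := sub_ne_zero.2 fun h => hcs (hy h).symm
  have h2 : y b - y a ≠ 0 := sub_ne_zero.2 fun h => hab (hy h).symm
  have h3 : y a - y b ≠ 0 := sub_ne_zero.2 fun h => hab (hy h)
  unfold cr
  field_simp
  ring

theorem cr_swap2 (y : Fin K → ℂ) (a b c s : Fin K) : cr y c b a s = (cr y a b c s)⁻¹ := by
  unfold cr
  rw [inv_div]

/-- Two cross ratios of the same four points agree somewhere. -/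
theorem same_supp {a b c s a' b' c' : Fin K} (hab : a ≠ b) (hac : a ≠ c) (has : a ≠ s) (hbc : b ≠ c) (hbs : b ≠ s) (hcs : c ≠ s)
    (h : (a' = a ∧ b' = b ∧ c' = c) ∨ (a' = b ∧ b' = a ∧ c' = c) ∨ (a' = a ∧ b' = c ∧ c' = b) ∨ (a' = c ∧ b' = b ∧ c' = a) ∨
      (a' = b ∧ b' = c ∧ c' = a) ∨ (a' = c ∧ b' = a ∧ c' = b)) :
    ∃ y, Function.Injective y ∧ cr y a b c s = cr y a' b' c' s := by
  -- `1 / 2`, `2`, `-1` and a root of `w ^ 2 - w + 1`
  obtain ⟨r, hr⟩ := IsAlgClosed.exists_pow_nat_eq (-3 : ℂ) (n := 2) (by norm_num)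
  set w : ℂ := (1 + r) / 2 with hw
  have hw2 : w ^ 2 - w + 1 = 0 := by
    rw [hw]
    linear_combination hr / 4
  have hw0 : w ≠ 0 := fun h0 => by
    rw [h0] at hw2
    norm_num at hw2
  have hw1 : w ≠ 1 := fun h0 => by
    rw [h0] at hw2
    norm_num at hw2
  have p4 : ∀ y : Fin K → ℂ, Function.Injective y → cr y b c a s = 1 - (cr y a b c s)⁻¹ := fun y hy => by
    rw [cr_swap1 hy hbc.symm has, cr_swap2 y a b c s]
  rcases h with ⟨e1, e2, e3⟩ | ⟨e1, e2, e3⟩ | ⟨e1, e2, e3⟩ | ⟨e1, e2, e3⟩ | ⟨e1, e2, e3⟩ | ⟨e1, e2, e3⟩ <;> rw [e1, e2, e3]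
  · obtain ⟨y, hy, -⟩ := cr_surj hab hac has hbc hbs hcs hw0 hw1
    exact ⟨y, hy, rfl⟩
  · obtain ⟨y, hy, h1⟩ := cr_surj hab hac has hbc hbs hcs (w := 1 / 2) (by norm_num) (by norm_num)
    refine ⟨y, hy, ?_⟩
    rw [cr_swap1 hy hab hcs, h1]
    norm_num
  · obtain ⟨y, hy, h1⟩ := cr_surj hab hac has hbc hbs hcs (w := 2) (by norm_num) (by norm_num)
    refine ⟨y, hy, ?_⟩
    rw [cr_swap2 y b c a s, p4 y hy, h1]
    norm_num
  · obtain ⟨y, hy, h1⟩ := cr_surj hab hac has hbc hbs hcs (w := -1) (by norm_num) (by norm_num)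
    refine ⟨y, hy, ?_⟩
    rw [cr_swap2 y a b c s, h1]
    norm_num
  · obtain ⟨y, hy, h1⟩ := cr_surj hab hac has hbc hbs hcs hw0 hw1
    refine ⟨y, hy, ?_⟩
    rw [p4 y hy, h1]
    field_simp
    linear_combination hw2
  · obtain ⟨y, hy, h1⟩ := cr_surj hab hac has hbc hbs hcs hw0 hw1
    refine ⟨y, hy, ?_⟩
    rw [cr_swap2 y b a c s, cr_swap1 hy hab hcs, h1, eq_comm, inv_eq_iff_eq_inv, eq_comm]
    field_simp
    linear_combination hw2

/-- Two cross ratios which are never equal differ in one of the points. -/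
theorem never_rep {a b c s a' b' c' s' : Fin K} (hab : a ≠ b) (hac : a ≠ c) (has : a ≠ s) (hbc : b ≠ c) (hbs : b ≠ s) (hcs : c ≠ s)
    (hab' : a' ≠ b') (hac' : a' ≠ c') (has' : a' ≠ s') (hbc' : b' ≠ c') (hbs' : b' ≠ s') (hcs' : c' ≠ s')
    (hn : ∀ y, Function.Injective y → cr y a b c s ≠ cr y a' b' c' s') :
    ∃ e, e ≠ a ∧ e ≠ b ∧ e ≠ c ∧ e ≠ s ∧ ∃ i, ∀ y, cr y a' b' c' s' = rep a b c s e i y := by
  -- the new point in the last position
  have key : ∀ α β γ e : Fin K, α ≠ β → α ≠ γ → α ≠ e → β ≠ γ → β ≠ e → γ ≠ e → e ≠ a → e ≠ b → e ≠ c → e ≠ s →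
      (∀ y, Function.Injective y → cr y a b c s ≠ cr y α β γ e) → ∃ i, ∀ y, cr y α β γ e = rep a b c s e i y := by
    intro α β γ e h1 h2 h3 h4 h5 h6 h7 h8 h9 h10 h11
    obtain ⟨g, h | h | h | h⟩ := never hab hac has hbc hbs hcs h1 h2 h3 h4 h5 h6 h7 h8 h9 h10 h11
    · obtain ⟨rfl, rfl, rfl, -⟩ := h
      exact ⟨3, fun y => rfl⟩
    · obtain ⟨rfl, rfl, rfl, -⟩ := h
      refine ⟨2, fun y => ?_⟩
      show cr y α β γ e = cr y β α e γ
      rw [cr_k1]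
    · obtain ⟨rfl, rfl, rfl, -⟩ := h
      refine ⟨1, fun y => ?_⟩
      show cr y α β γ e = cr y γ e α β
      rw [cr_k2]
    · obtain ⟨rfl, rfl, rfl, -⟩ := h
      refine ⟨0, fun y => ?_⟩
      show cr y α β γ e = cr y e γ β α
      rw [cr_k3]
  by_cases n4 : s' ≠ a ∧ s' ≠ b ∧ s' ≠ c ∧ s' ≠ s
  · exact ⟨s', n4.1, n4.2.1, n4.2.2.1, n4.2.2.2, key a' b' c' s' hab' hac' has' hbc' hbs' hcs' n4.1 n4.2.1 n4.2.2.1 n4.2.2.2 hn⟩
  by_cases n3 : c' ≠ a ∧ c' ≠ b ∧ c' ≠ c ∧ c' ≠ s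
  · obtain ⟨i, hi⟩ := key b' a' s' c' hab'.symm hbs' hbc' has' hac' hcs'.symm n3.1 n3.2.1 n3.2.2.1 n3.2.2.2
      (fun y hy => by rw [cr_k1 y a' b' c' s']; exact hn y hy)
    exact ⟨c', n3.1, n3.2.1, n3.2.2.1, n3.2.2.2, i, fun y => by rw [← hi y, cr_k1]⟩
  by_cases n2 : b' ≠ a ∧ b' ≠ b ∧ b' ≠ c ∧ b' ≠ s
  · obtain ⟨i, hi⟩ := key c' s' a' b' hcs' hac'.symm hbc'.symm has'.symm hbs'.symm hab' n2.1 n2.2.1 n2.2.2.1 n2.2.2.2
      (fun y hy => by rw [cr_k2 y a' b' c' s']; exact hn y hy)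
    exact ⟨b', n2.1, n2.2.1, n2.2.2.1, n2.2.2.2, i, fun y => by rw [← hi y, cr_k2]⟩
  by_cases n1 : a' ≠ a ∧ a' ≠ b ∧ a' ≠ c ∧ a' ≠ s
  · obtain ⟨i, hi⟩ := key s' c' b' a' hcs'.symm hbs'.symm has'.symm hbc'.symm hac'.symm hab'.symm n1.1 n1.2.1 n1.2.2.1 n1.2.2.2
      (fun y hy => by rw [cr_k3 y a' b' c' s']; exact hn y hy)
    exact ⟨a', n1.1, n1.2.1, n1.2.2.1, n1.2.2.2, i, fun y => by rw [← hi y, cr_k3]⟩
  -- the same four points
  exfalso
  have kk : ∃ α β γ : Fin K, (∀ y, cr y α β γ s = cr y a' b' c' s') ∧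
      ((α = a ∧ β = b ∧ γ = c) ∨ (α = b ∧ β = a ∧ γ = c) ∨ (α = a ∧ β = c ∧ γ = b) ∨ (α = c ∧ β = b ∧ γ = a) ∨
      (α = b ∧ β = c ∧ γ = a) ∨ (α = c ∧ β = a ∧ γ = b)) := by
    have hs : s' = s ∨ c' = s ∨ b' = s ∨ a' = s := by grind
    rcases hs with h | h | h | h
    · exact ⟨a', b', c', fun y => by rw [h], by grind⟩
    · exact ⟨b', a', s', fun y => by rw [← h, cr_k1], by grind⟩
    · exact ⟨c', s', a', fun y => by rw [← h, cr_k2], by grind⟩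
    · exact ⟨s', c', b', fun y => by rw [← h, cr_k3], by grind⟩
  obtain ⟨α, β, γ, h1, h2⟩ := kk
  obtain ⟨y, hy, h3⟩ := same_supp hab hac has hbc hbs hcs h2
  exact hn y hy (by rw [h3, h1])

/-- At most `K - 3` cross ratios which are pairwise never equal. -/
theorem count {m : ℕ} (W : Fin m → (Fin K → ℂ) → ℂ)
    (hW : ∀ r, ∃ a b c s : Fin K, a ≠ b ∧ a ≠ c ∧ a ≠ s ∧ b ≠ c ∧ b ≠ s ∧ c ≠ s ∧ ∀ y, Function.Injective y → W r y = cr y a b c s)
    (hn : ∀ r r', r ≠ r' → ∀ y, Function.Injective y → W r y ≠ W r' y) : m ≤ K - 3 := by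
  classical
  rcases Nat.eq_zero_or_pos m with h0 | h0
  · omega
  obtain ⟨a, b, c, s, hab, hac, has, hbc, hbs, hcs, hw0⟩ := hW ⟨0, h0⟩
  have key : ∀ r : {r : Fin m // r ≠ ⟨0, h0⟩}, ∃ e : {e : Fin K // e ∉ ({a, b, c, s} : Finset (Fin K))}, ∃ i,
      ∀ y, Function.Injective y → W r.1 y = rep a b c s e.1 i y := by
    intro r
    obtain ⟨a', b', c', s', hab', hac', has', hbc', hbs', hcs', hw⟩ := hW r.1
    obtain ⟨e, e1, e2, e3, e4, i, hi⟩ := never_rep hab hac has hbc hbs hcs hab' hac' has' hbc' hbs' hcs' (fun y hy => by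
      rw [← hw0 y hy, ← hw y hy]
      exact hn _ _ (Ne.symm r.2) y hy)
    exact ⟨⟨e, by simp [e1, e2, e3, e4]⟩, i, fun y hy => by rw [hw y hy, hi y]⟩
  choose e i hei using key
  have hinj : Function.Injective e := by
    intro r r' h
    by_contra hne
    have hne' : r.1 ≠ r'.1 := fun h1 => hne (Subtype.ext h1)
    have he := (e r).2
    simp only [Finset.mem_insert, Finset.mem_singleton, not_or] at he
    obtain ⟨y, hy, h1⟩ := rep_meet hab hac has (Ne.symm he.1) hbc hbs (Ne.symm he.2.1) hcs (Ne.symm he.2.2.1) (Ne.symm he.2.2.2) (i r) (i r')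
    apply hn r.1 r'.1 hne' y hy
    rw [hei r y hy, hei r' y hy, h1, h]
  have h1 := Fintype.card_le_of_injective e hinj
  have h2 : Fintype.card {r : Fin m // r ≠ ⟨0, h0⟩} = m - 1 := by
    rw [Fintype.card_subtype_compl, Fintype.card_subtype_eq, Fintype.card_fin]
  have h3 : Fintype.card {e : Fin K // e ∉ ({a, b, c, s} : Finset (Fin K))} = K - 4 := by
    rw [Fintype.card_subtype_compl, Fintype.card_fin]
    congr 1
    rw [Fintype.card_coe, Finset.card_insert_of_notMem (by simp [hab, hac, has]), Finset.card_insert_of_notMem (by simp [hbc, hbs]),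
      Finset.card_insert_of_notMem (by simp [hcs]), Finset.card_singleton]
  have h4 : 4 ≤ K := by
    have h5 : ({a, b, c, s} : Finset (Fin K)).card ≤ Fintype.card (Fin K) := Finset.card_le_univ _
    rw [Fintype.card_fin, Finset.card_insert_of_notMem (by simp [hab, hac, has]), Finset.card_insert_of_notMem (by simp [hbc, hbs]),
      Finset.card_insert_of_notMem (by simp [hcs]), Finset.card_singleton] at h5
    exact h5
  omega

end Pool.Agent.H60.OC
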