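import Mathlib

/-!
# OC Defs: ordered configurations and discriminant level sets

`P_z = X^n + z_1 X^(n-1) + ... + z_n`; `SG n` is the level set `z_1 = 0`, discriminant `1`; `MF k` is the set of the
ordered configurations `x` with `sum x = 0`, `prod_(i<j) (x_i - x_j) = 1`.
-/

set_option autoImplicit false

open Polynomial Filter Topology

noncomputable section

namespace Pool.Agent.H60.OC

/-- The polynomial `X^n + z_1 X^(n-1) + ... + z_n` (the coordinate `z_(i+1)` is `z i`). -/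
def poly {n : ℕ} (z : Fin n → ℂ) : ℂ[X] := X ^ n + ∑ i : Fin n, C (z i) * X ^ (n - 1 - (i : ℕ))

/-- `x` is a list of the roots of `P_z`, with multiplicities. -/
def IsRoots {n : ℕ} (x z : Fin n → ℂ) : Prop := poly z = ∏ i, (X - C (x i))

/-- The product `prod_(i<j) (x_i - x_j)`. -/
def vd {n : ℕ} (x : Fin n → ℂ) : ℂ := ∏ i, ∏ j ∈ Finset.Ioi i, (x i - x j)

/-- The level set `z_1 = 0`, `prod_(i<j) (x_i - x_j)^2 = 1` for the roots `x_1, ..., x_n` of `P_z`. -/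
def SG (n : ℕ) : Set (Fin n → ℂ) := {z | (∀ i : Fin n, (i : ℕ) = 0 → z i = 0) ∧ ∃ x, IsRoots x z ∧ vd x ^ 2 = 1}

/-- The ordered configurations `x` in `C^k` with `sum x = 0` and `prod_(i<j) (x_i - x_j) = 1`. -/
def MF (k : ℕ) : Set (Fin k → ℂ) := {x | ∑ i, x i = 0 ∧ vd x = 1}

/-- `f` is holomorphic on the (closed, non-singular) analytic set `S`: near every point of `S` it is the restriction of
a holomorphic map. -/
def HoloOn {a b : ℕ} (S : Set (Fin a → ℂ)) (f : (Fin a → ℂ) → (Fin b → ℂ)) : Prop :=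
  ∀ z ∈ S, ∃ g : (Fin a → ℂ) → (Fin b → ℂ), AnalyticAt ℂ g z ∧ ∀ᶠ w in 𝓝[S] z, f w = g w

/-- `u` is holomorphic along all holomorphic discs in `S`. -/
def CHol {a : ℕ} (S : Set (Fin a → ℂ)) (u : (Fin a → ℂ) → ℂ) : Prop :=
  ∀ (γ : ℂ → (Fin a → ℂ)) (w₀ : ℂ), AnalyticAt ℂ γ w₀ → (∀ᶠ w in 𝓝 w₀, γ w ∈ S) → AnalyticAt ℂ (fun w => u (γ w)) w₀

end Pool.Agent.H60.OC
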