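import Pool.Agent.H60.OC.Glob

/-!
# OC Mono: homogeneity, and the unit equation removes the `N`-th root
-/

set_option autoImplicit false

open Filter Topology

noncomputable section

namespace Pool.Agent.H60.OC

theorem vd_val_ne (k : ℕ) : vd (fun i : Fin k => ((i : ℕ) : ℂ)) ≠ 0 := by
  rw [vd_ne_iff]
  intro i j h
  have h1 : ((i : ℕ) : ℂ) = ((j : ℕ) : ℂ) := h
  exact Fin.ext (by exact_mod_cast h1)

theorem deg_zero {k : ℕ} (hk : 2 ≤ k) {u : (Fin k → ℂ) → ℂ} {c : ℂ} {r : ℤ} {b : Pr k → ℤ} (hc : c ≠ 0)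
    (h : ∀ x t, t ≠ 0 → t ^ NN k = vd x → u (nm x t) = c * t ^ r * ∏ H, ell H x ^ b H) : r + ∑ H, b H = 0 := by
  have hN := NN_pos hk
  set x : Fin k → ℂ := fun i => ((i : ℕ) : ℂ) with hx
  have hvx : vd x ≠ 0 := vd_val_ne k
  obtain ⟨t, ht⟩ := IsAlgClosed.exists_pow_nat_eq (vd x) hN
  have ht0 : t ≠ 0 := pow_ne_of hN ht hvx
  have hell : ∀ H : Pr k, ell H x ≠ 0 := by
    rw [vd_eq] at hvx
    exact fun H => Finset.prod_ne_zero_iff.1 hvx H (Finset.mem_univ H)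
  have h2 : ∀ H : Pr k, ell H (fun i => (2 : ℂ) * x i) = 2 * ell H x := by
    intro H
    unfold ell
    ring
  have hvd : (2 * t) ^ NN k = vd (fun i => (2 : ℂ) * x i) := by
    rw [mul_pow, ht, vd_eq, vd_eq]
    simp only [h2]
    rw [Finset.prod_mul_distrib, Finset.prod_const, Finset.card_univ]
  have e1 := h x t ht0 ht
  have e2 := h (fun i => 2 * x i) (2 * t) (mul_ne_zero two_ne_zero ht0) hvd
  rw [nm_smul x two_ne_zero, e1] at e2
  simp only [h2, mul_zpow] at e2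
  rw [Finset.prod_mul_distrib, prod_zpow_sum _ _ two_ne_zero] at e2
  have h3 : c * t ^ r * ∏ H, ell H x ^ b H ≠ 0 :=
    mul_ne_zero (mul_ne_zero hc (zpow_ne_zero _ ht0)) (Finset.prod_ne_zero_iff.2 fun H _ => zpow_ne_zero _ (hell H))
  have h4 : (2 : ℂ) ^ (r + ∑ H, b H) = 1 := by
    refine mul_right_cancel₀ h3 ?_
    rw [zpow_add₀ two_ne_zero]
    calc (2 : ℂ) ^ r * 2 ^ (∑ H, b H) * (c * t ^ r * ∏ H, ell H x ^ b H)
        = c * (2 ^ r * t ^ r) * (2 ^ (∑ H, b H) * ∏ H, ell H x ^ b H) := by ring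
      _ = 1 * (c * t ^ r * ∏ H, ell H x ^ b H) := by rw [← e2, one_mul]
  have h5 : (2 : ℝ) ^ (r + ∑ H, b H) = 1 := by
    have := congrArg norm h4
    rw [norm_zpow, norm_one, Complex.norm_ofNat] at this
    exact this
  exact (zpow_eq_one_iff_right₀ (by norm_num) (by norm_num)).1 h5

theorem mono_form {k : ℕ} (hk : 2 ≤ k) {u : (Fin k → ℂ) → ℂ} (hu : Hy u) :
    ∃ (c : ℂ) (b : Pr k → ℤ), c ≠ 0 ∧ ∑ H, b H = 0 ∧ ∀ x t, t ≠ 0 → t ^ NN k = vd x →
      u (nm x t) = c * ∏ H, ell H x ^ b H := by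
  have hN := NN_pos hk
  obtain ⟨c, r, b, hc, h⟩ := glob hk hu
  obtain ⟨c', r', b', -, h'⟩ := glob hk hu.sub
  have hdeg := deg_zero hk hc h
  have hζ := Complex.isPrimitiveRoot_exp (NN k) hN.ne'
  set ζ : ℂ := Complex.exp (2 * Real.pi * Complex.I / (NN k : ℕ)) with hζd
  have hζ0 : ζ ≠ 0 := Complex.exp_ne_zero _
  have key : ∀ x t, t ≠ 0 → t ^ NN k = vd x → 1 - ζ ^ r' = (ζ ^ r - ζ ^ r') * u (nm x t) := by
    intro x t h0 ht
    have h1 : (ζ * t) ^ NN k = vd x := by rw [mul_pow, hζ.pow_eq_one, one_mul, ht]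
    have h2 := h x (ζ * t) (mul_ne_zero hζ0 h0) h1
    have h3 := h' x (ζ * t) (mul_ne_zero hζ0 h0) h1
    have h4 := h x t h0 ht
    have h5 := h' x t h0 ht
    rw [mul_zpow] at h2 h3
    have h6 : u (nm x (ζ * t)) = ζ ^ r * u (nm x t) := by
      rw [h2, h4]
      ring
    have h7 : 1 - u (nm x (ζ * t)) = ζ ^ r' * (1 - u (nm x t)) := by
      rw [h3, h5]
      ring
    rw [h6] at h7
    linear_combination h7
  by_cases hcase : ζ ^ r = ζ ^ r'
  · obtain ⟨x, hvx⟩ : ∃ x : Fin k → ℂ, vd x ≠ 0 := ⟨_, vd_val_ne k⟩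
    obtain ⟨t, ht⟩ := IsAlgClosed.exists_pow_nat_eq (vd x) hN
    have ht0 : t ≠ 0 := pow_ne_of hN ht hvx
    have h1 := key x t ht0 ht
    rw [hcase, sub_self, zero_mul] at h1
    have h2 : ζ ^ r = 1 := by
      rw [hcase]
      exact (sub_eq_zero.1 h1).symm
    obtain ⟨m, hm⟩ := (hζ.zpow_eq_one_iff_dvd r).1 h2
    refine ⟨c, fun H => b H + m, hc, ?_, fun x t h0 ht => ?_⟩
    · rw [Finset.sum_add_distrib, Finset.sum_const, Finset.card_univ, nsmul_eq_mul, ← hm]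
      linarith
    · have hvx : vd x ≠ 0 := by
        rw [← ht]
        exact pow_ne_zero _ h0
      have hell : ∀ H : Pr k, ell H x ≠ 0 := by
        rw [vd_eq] at hvx
        exact fun H => Finset.prod_ne_zero_iff.1 hvx H (Finset.mem_univ H)
      rw [h x t h0 ht, hm, zpow_mul, zpow_natCast, ht, vd_eq, ← Finset.prod_zpow,
        Finset.prod_congr rfl fun H _ => zpow_add₀ (hell H) (b H) m, Finset.prod_mul_distrib]
      ring
  · have h1 : ζ ^ r - ζ ^ r' ≠ 0 := sub_ne_zero.2 hcase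
    have h2 : ∀ x t, t ≠ 0 → t ^ NN k = vd x → u (nm x t) = (1 - ζ ^ r') / (ζ ^ r - ζ ^ r') := by
      intro x t h0 ht
      rw [eq_div_iff h1, key x t h0 ht]
      ring
    refine ⟨(1 - ζ ^ r') / (ζ ^ r - ζ ^ r'), fun _ => 0, ?_, by simp, fun x t h0 ht => ?_⟩
    · obtain ⟨x, hvx⟩ : ∃ x : Fin k → ℂ, vd x ≠ 0 := ⟨_, vd_val_ne k⟩
      obtain ⟨t, ht⟩ := IsAlgClosed.exists_pow_nat_eq (vd x) hN
      have ht0 : t ≠ 0 := pow_ne_of hN ht hvx
      rw [← h2 x t ht0 ht]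
      exact (hu.om _ (nm_mem hk ht0 ht)).1
    · rw [h2 x t h0 ht]
      simp

end Pool.Agent.H60.OC
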