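import Pool.Agent.H60.OC.TD
import Pool.Agent.H60.OC.Mono

/-!
# OC Dich: a function without the values `0` and `1` is constant or a cross ratio
-/

set_option autoImplicit false

open Filter Topology

noncomputable section

namespace Pool.Agent.H60.OC

/-- The point of the ordered level set given by `k + 1` points. -/
def pull {k : ℕ} (hk : 2 ≤ k) (y : Fin (k + 1) → ℂ) : Fin k → ℂ :=
  nm (rx y) (Classical.choose (IsAlgClosed.exists_pow_nat_eq (vd (rx y)) (NN_pos hk)))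

theorem pull_spec {k : ℕ} (hk : 2 ≤ k) {y : Fin (k + 1) → ℂ} (hy : Function.Injective y) :
    ∃ t : ℂ, t ≠ 0 ∧ t ^ NN k = vd (rx y) ∧ pull hk y = nm (rx y) t := by
  have h := Classical.choose_spec (IsAlgClosed.exists_pow_nat_eq (vd (rx y)) (NN_pos hk))
  exact ⟨_, pow_ne_of (NN_pos hk) h (vd_ne_iff.2 (rx_inj hy)), h, rfl⟩

theorem pull_mem {k : ℕ} (hk : 2 ≤ k) {y : Fin (k + 1) → ℂ} (hy : Function.Injective y) : pull hk y ∈ MF k := by
  obtain ⟨t, h0, ht, he⟩ := pull_spec hk hy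
  rw [he]
  exact nm_mem hk h0 ht

theorem dich {k : ℕ} (hk : 2 ≤ k) {u : (Fin k → ℂ) → ℂ} (hu : Hy u) :
    (∃ c, ∀ x ∈ MF k, u x = c) ∨ ∃ a b c s : Fin (k + 1), a ≠ b ∧ a ≠ c ∧ a ≠ s ∧ b ≠ c ∧ b ≠ s ∧ c ≠ s ∧
      ∀ y, Function.Injective y → u (pull hk y) = cr y a b c s := by
  obtain ⟨c, b, hc, hb, h⟩ := mono_form hk hu
  obtain ⟨c', b', hc', hb', h'⟩ := mono_form hk hu.sub
  obtain ⟨c₁, E, hc₁, hE, he, hE0⟩ := transfer hc b hb
  obtain ⟨c₁', E', hc₁', hE', he', -⟩ := transfer hc' b' hb'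
  have key : ∀ y, Function.Injective y → u (pull hk y) = c₁ * mono E y := by
    intro y hy
    obtain ⟨t, h0, ht, hp⟩ := pull_spec hk hy
    rw [hp, h _ t h0 ht, he y hy]
  have key' : ∀ y, Function.Injective y → 1 - u (pull hk y) = c₁' * mono E' y := by
    intro y hy
    obtain ⟨t, h0, ht, hp⟩ := pull_spec hk hy
    rw [hp, h' _ t h0 ht, he' y hy]
  rcases TD hc₁ hc₁' hE hE' (fun y hy => by rw [← key y hy, ← key' y hy]; ring) with h1 | ⟨α, β, γ, σ, n1, n2, n3, n4, n5, n6, h1⟩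
  · left
    have hb0 := hE0 h1
    refine ⟨c, fun x hx => ?_⟩
    have h2 := h x 1 one_ne_zero (by rw [one_pow, hx.2])
    rw [nm_self hx, hb0] at h2
    simpa using h2
  · right
    exact ⟨α, β, γ, σ, n1, n2, n3, n4, n5, n6, fun y hy => by rw [key y hy, h1 y hy]⟩

end Pool.Agent.H60.OC
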