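import Pool.Agent.H60.OC.GoodLine

/-!
# OC Expo: exponents are determined by the function; lines in general position
-/

set_option autoImplicit false

open Filter Topology Polynomial

noncomputable section

namespace Pool.Agent.H60.OC

theorem expo {ι : Type*} [Fintype ι] {s : ι → ℂ} (hs : Function.Injective s) {e : ι → ℤ} {c : ℂ} {T : Set ℂ}
    (hT : T.Infinite) (h : ∀ z ∈ T, (∀ i, z ≠ s i) ∧ ∏ i, (z - s i) ^ e i = c) : e = 0 := by
  obtain ⟨z₀, hz₀⟩ := hT.nonempty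
  have hc : c ≠ 0 := by
    rw [← (h z₀ hz₀).2]
    exact Finset.prod_ne_zero_iff.2 fun i _ => zpow_ne_zero _ (sub_ne_zero.2 ((h z₀ hz₀).1 i))
  set P : ℂ[X] := ∏ i, (X - C (s i)) ^ (e i).toNat - C c * ∏ i, (X - C (s i)) ^ (-e i).toNat with hP
  have hP0 : P = 0 := by
    refine Polynomial.eq_zero_of_infinite_isRoot P (hT.mono fun z hz => ?_)
    obtain ⟨h1, h2⟩ := h z hz
    show P.IsRoot z
    rw [Polynomial.IsRoot, hP, eval_sub, eval_mul, eval_C, eval_prod, eval_prod]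
    simp only [eval_pow, eval_sub, eval_X, eval_C]
    rw [← h2, ← Finset.prod_mul_distrib, sub_eq_zero]
    refine Finset.prod_congr rfl fun i _ => ?_
    have h3 : z - s i ≠ 0 := sub_ne_zero.2 (h1 i)
    rw [← zpow_natCast, ← zpow_natCast, ← zpow_add₀ h3]
    congr 1
    omega
  have hev : ∀ i, ∏ j, (s i - s j) ^ (e j).toNat = c * ∏ j, (s i - s j) ^ (-e j).toNat := by
    intro i
    have h1 : P.eval (s i) = 0 := by rw [hP0, eval_zero]
    rw [hP, eval_sub, eval_mul, eval_C, eval_prod, eval_prod, sub_eq_zero] at h1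
    simpa only [eval_pow, eval_sub, eval_X, eval_C] using h1
  funext i
  by_contra hne
  have hne' : e i ≠ 0 := hne
  rcases lt_or_gt_of_ne hne' with h1 | h1
  · have h2 : ∏ j, (s i - s j) ^ (-e j).toNat = 0 :=
      Finset.prod_eq_zero (Finset.mem_univ i) (by rw [sub_self, zero_pow (by omega)])
    have h3 := hev i
    rw [h2, mul_zero] at h3
    obtain ⟨j, -, hj⟩ := Finset.prod_eq_zero_iff.1 h3
    have h4 : (e j).toNat ≠ 0 := fun h5 => by
      rw [h5, pow_zero] at hj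
      exact one_ne_zero hj
    have h5 := hs (sub_eq_zero.1 (pow_eq_zero_iff h4 |>.1 hj))
    subst h5
    omega
  · have h2 : ∏ j, (s i - s j) ^ (e j).toNat = 0 :=
      Finset.prod_eq_zero (Finset.mem_univ i) (by rw [sub_self, zero_pow (by omega)])
    have h3 := hev i
    rw [h2] at h3
    obtain ⟨j, -, hj⟩ := Finset.prod_eq_zero_iff.1 ((mul_eq_zero.1 h3.symm).resolve_left hc)
    have h4 : (-e j).toNat ≠ 0 := fun h5 => by
      rw [h5, pow_zero] at hj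
      exact one_ne_zero hj
    have h5 := hs (sub_eq_zero.1 (pow_eq_zero_iff h4 |>.1 hj))
    subst h5
    omega

theorem two_pow_sum {a b c d : ℕ} (hab : a < b) (hcd : c < d) (h : 2 ^ a + 2 ^ b = 2 ^ c + 2 ^ d) : a = c ∧ b = d := by
  have key : ∀ a b c d : ℕ, a < b → c < d → 2 ^ a + 2 ^ b = 2 ^ c + 2 ^ d → b ≤ d := by
    intro a b c d h1 h2 h3
    by_contra hcon
    have h4 : d + 1 ≤ b := by omega
    have h5 : 2 ^ (d + 1) ≤ 2 ^ b := Nat.pow_le_pow_right (by norm_num) h4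
    have h6 : 2 ^ c < 2 ^ d := Nat.pow_lt_pow_right (by norm_num) h2
    have h7 : 0 < 2 ^ a := by positivity
    rw [pow_succ] at h5
    omega
  have h1 : b = d := le_antisymm (key a b c d hab hcd h) (key c d a b hcd hab h.symm)
  subst h1
  have h2 : 2 ^ a = 2 ^ c := by omega
  exact ⟨Nat.pow_right_injective le_rfl h2, rfl⟩

theorem exists_good (k : ℕ) : ∃ p y : Fin k → ℂ, Good p y := by
  refine ⟨fun i => (4 : ℂ) ^ (i : ℕ), fun i => (2 : ℂ) ^ (i : ℕ), ?_, ?_⟩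
  · rintro ⟨⟨i, j⟩, hij⟩ h0
    have h1 : (2 : ℂ) ^ (i : ℕ) = (2 : ℂ) ^ (j : ℕ) := sub_eq_zero.1 h0
    have h2 : 2 ^ (i : ℕ) = 2 ^ (j : ℕ) := by exact_mod_cast h1
    have h3 := Nat.pow_right_injective le_rfl h2
    exact hij.ne (Fin.ext h3)
  · have hval : ∀ H : Pr k, -ell H (fun i => (4 : ℂ) ^ (i : ℕ)) / ell H (fun i => (2 : ℂ) ^ (i : ℕ)) =
        -((2 : ℂ) ^ (H.1.1 : ℕ) + (2 : ℂ) ^ (H.1.2 : ℕ)) := by
      rintro ⟨⟨i, j⟩, hij⟩
      have h0 : (2 : ℂ) ^ (i : ℕ) - (2 : ℂ) ^ (j : ℕ) ≠ 0 := by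
        intro h0
        have h1 : (2 : ℂ) ^ (i : ℕ) = (2 : ℂ) ^ (j : ℕ) := sub_eq_zero.1 h0
        have h2 : 2 ^ (i : ℕ) = 2 ^ (j : ℕ) := by exact_mod_cast h1
        have h3 := Nat.pow_right_injective le_rfl h2
        exact hij.ne (Fin.ext h3)
      unfold ell
      show -((4 : ℂ) ^ (i : ℕ) - (4 : ℂ) ^ (j : ℕ)) / ((2 : ℂ) ^ (i : ℕ) - (2 : ℂ) ^ (j : ℕ)) = _
      rw [div_eq_iff h0, show (4 : ℂ) = 2 ^ 2 by norm_num, ← pow_mul, ← pow_mul, mul_comm 2 (i : ℕ), mul_comm 2 (j : ℕ), pow_mul, pow_mul]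
      ring
    intro H H' h
    simp only [hval] at h
    have h1 : (2 : ℂ) ^ (H.1.1 : ℕ) + (2 : ℂ) ^ (H.1.2 : ℕ) = (2 : ℂ) ^ (H'.1.1 : ℕ) + (2 : ℂ) ^ (H'.1.2 : ℕ) := neg_injective h
    have h2 : 2 ^ (H.1.1 : ℕ) + 2 ^ (H.1.2 : ℕ) = 2 ^ (H'.1.1 : ℕ) + 2 ^ (H'.1.2 : ℕ) := by exact_mod_cast h1
    obtain ⟨h3, h4⟩ := two_pow_sum H.2 H'.2 h2
    exact Subtype.ext (Prod.ext (Fin.ext h3) (Fin.ext h4))

theorem lin_fin {α β : ℂ} (h : α ≠ 0 ∨ β ≠ 0) : {σ : ℂ | α + σ * β = 0}.Finite := by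
  by_cases hβ : β = 0
  · refine Set.Finite.subset Set.finite_empty fun σ hσ => ?_
    have h1 : α + σ * β = 0 := hσ
    rw [hβ, mul_zero, add_zero] at h1
    rcases h with h | h
    · exact h h1
    · exact h hβ
  · refine Set.Finite.subset (Set.finite_singleton (-α / β)) fun σ hσ => ?_
    have h1 : α + σ * β = 0 := hσ
    rw [Set.mem_singleton_iff, eq_div_iff hβ]
    linear_combination h1

/-- For a good line `p + σ y` and a configuration `x`, the line through `p + σ y` and `x` is good for all but finitely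
many `σ`. -/
theorem good_cofin {k : ℕ} {p y x : Fin k → ℂ} (h : Good p y) (hx : Function.Injective x) :
    {σ : ℂ | ¬ (Good (fun i => p i + σ * y i) (fun i => x i - (p i + σ * y i)) ∧
      ∀ H : Pr k, ell H (fun i => p i + σ * y i) ≠ 0)}.Finite := by
  have hx0 : ∀ H : Pr k, ell H x ≠ 0 := fun H => sub_ne_zero.2 fun h1 => H.2.ne (hx h1)
  set F₁ : Set ℂ := ⋃ q : {q : Pr k × Pr k // q.1 ≠ q.2},
    {σ : ℂ | (ell q.1.1 p * ell q.1.2 x - ell q.1.2 p * ell q.1.1 x) + σ * (ell q.1.1 y * ell q.1.2 x - ell q.1.2 y * ell q.1.1 x) = 0} with hF₁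
  set F₂ : Set ℂ := ⋃ H : Pr k, {σ : ℂ | (ell H p - ell H x) + σ * ell H y = 0} with hF₂
  set F₃ : Set ℂ := ⋃ H : Pr k, {σ : ℂ | ell H p + σ * ell H y = 0} with hF₃
  have hfin : (F₁ ∪ F₂ ∪ F₃).Finite := by
    refine ((Set.finite_iUnion fun q => lin_fin ?_).union (Set.finite_iUnion fun H => lin_fin (Or.inr (h.1 H)))).union
      (Set.finite_iUnion fun H => lin_fin (Or.inr (h.1 H)))
    obtain ⟨⟨H, H'⟩, hne⟩ := q
    by_contra hcon
    push Not at hcon
    obtain ⟨h1, h2⟩ := hcon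
    refine hne (h.2 ?_)
    show -ell H p / ell H y = -ell H' p / ell H' y
    rw [div_eq_div_iff (h.1 H) (h.1 H')]
    have h1' : ell H p * ell H' x = ell H' p * ell H x := sub_eq_zero.1 h1
    have h2' : ell H y * ell H' x = ell H' y * ell H x := sub_eq_zero.1 h2
    have h3 : (-ell H p * ell H' y - -ell H' p * ell H y) * ell H x = 0 := by
      linear_combination ell H p * h2' - ell H y * h1'
    exact sub_eq_zero.1 ((mul_eq_zero.1 h3).resolve_right (hx0 H))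
  refine hfin.subset fun σ hσ => ?_
  by_contra hcon
  apply hσ
  have h1 : ∀ H H' : Pr k, H ≠ H' →
      (ell H p * ell H' x - ell H' p * ell H x) + σ * (ell H y * ell H' x - ell H' y * ell H x) ≠ 0 :=
    fun H H' hne h0 => hcon (Or.inl (Or.inl (Set.mem_iUnion.2 ⟨⟨(H, H'), hne⟩, h0⟩)))
  have h2 : ∀ H : Pr k, (ell H p - ell H x) + σ * ell H y ≠ 0 :=
    fun H h0 => hcon (Or.inl (Or.inr (Set.mem_iUnion.2 ⟨H, h0⟩)))
  have h3 : ∀ H : Pr k, ell H p + σ * ell H y ≠ 0 := fun H h0 => hcon (Or.inr (Set.mem_iUnion.2 ⟨H, h0⟩))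
  have h4 : ∀ H : Pr k, ell H (fun i => x i - (p i + σ * y i)) = -((ell H p - ell H x) + σ * ell H y) := by
    intro H
    unfold ell
    ring
  have h5 : ∀ H : Pr k, ell H (fun i => x i - (p i + σ * y i)) ≠ 0 := fun H => by
    rw [h4]
    exact neg_ne_zero.2 (h2 H)
  refine ⟨⟨h5, fun H H' hHH => ?_⟩, fun H => by rw [ell_line]; exact h3 H⟩
  by_contra hne
  simp only at hHH
  rw [div_eq_div_iff (h5 H) (h5 H')] at hHH
  simp only [h4, ell_line] at hHH
  apply h1 H H' hne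
  linear_combination -hHH

end Pool.Agent.H60.OC
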