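import Pool.Agent.H60.OC.Punct

/-!
# OC Fib: Fourier coefficients along the fibres
-/

set_option autoImplicit false

open Filter Topology

noncomputable section

namespace Pool.Agent.H60.OC

variable {ι : Type*} [Fintype ι]

/-- The `r`-th Fourier coefficient of `V z` on the fibre `t ^ N = Q z`. -/
def cf (N : ℕ) (s : ι → ℂ) (κ : ℂ) (V : ℂ → ℂ → ℂ) (r : ℕ) (z : ℂ) : ℂ :=
  (N : ℂ)⁻¹ * ((Polynomial.nthRoots N (Q s κ z)).map (fun t => V z t * (t ^ r)⁻¹)).sum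

theorem cf_eq {N : ℕ} {s : ι → ℂ} {κ : ℂ} {V : ℂ → ℂ → ℂ} {ζ : ℂ} (hζ : IsPrimitiveRoot ζ N) (r : ℕ) {z t : ℂ}
    (ht : t ^ N = Q s κ z) :
    cf N s κ V r z = (N : ℂ)⁻¹ * ∑ j ∈ Finset.range N, V z (ζ ^ j * t) * ((ζ ^ j * t) ^ r)⁻¹ := by
  rw [cf, hζ.nthRoots_eq ht, Multiset.map_map]
  rfl

theorem cf_diff {N : ℕ} (hN : 0 < N) {s : ι → ℂ} {κ : ℂ} {V : ℂ → ℂ → ℂ} (h : Line N s κ V) (hκ : κ ≠ 0) (r : ℕ)
    {z₀ : ℂ} (hz : ∀ i, z₀ ≠ s i) : DifferentiableAt ℂ (cf N s κ V r) z₀ := by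
  have hζ := Complex.isPrimitiveRoot_exp N hN.ne'
  set ζ : ℂ := Complex.exp (2 * Real.pi * Complex.I / N) with hζd
  have hζ0 : ζ ≠ 0 := Complex.exp_ne_zero _
  obtain ⟨t₀, ht₀⟩ := IsAlgClosed.exists_pow_nat_eq (Q s κ z₀) hN
  have hQ0 : Q s κ z₀ ≠ 0 := Q_ne hκ hz
  have ht0 : t₀ ≠ 0 := pow_ne_of hN ht₀ hQ0
  have hQa : ∀ z, AnalyticAt ℂ (fun w => Q s κ w) z := fun z => Q_analyticAt analyticAt_id
  set τ : ℂ → ℂ := fun w => rt N t₀ (Q s κ w) with hτ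
  have hτa : AnalyticAt ℂ τ z₀ := rt_comp ht0 (hQa z₀) ht₀
  have hev : ∀ᶠ w in 𝓝 z₀, Q s κ w ≠ 0 := (hQa z₀).continuousAt.eventually_ne hQ0
  have hτe : ∀ᶠ w in 𝓝 z₀, τ w ^ N = Q s κ w := by
    filter_upwards [hev] with w hw using rt_pow hN ht0 hw
  have hζN : ∀ j : ℕ, (ζ ^ j) ^ N = 1 := fun j => by rw [← pow_mul, mul_comm, pow_mul, hζ.pow_eq_one, one_pow]
  have hj : ∀ j : ℕ, AnalyticAt ℂ (fun w => V w (ζ ^ j * τ w) * ((ζ ^ j * τ w) ^ r)⁻¹) z₀ := by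
    intro j
    have h1 : AnalyticAt ℂ (fun w => ζ ^ j * τ w) z₀ := analyticAt_const.fun_mul hτa
    have h0 : ζ ^ j * τ z₀ ≠ 0 := mul_ne_zero (pow_ne_zero _ hζ0) (rt_ne ht0)
    refine (h.hol (fun w => w) (fun w => ζ ^ j * τ w) z₀ analyticAt_id h1 h0 ?_).fun_mul
      ((h1.fun_pow r).fun_inv (pow_ne_zero _ h0))
    filter_upwards [hτe] with w hw
    rw [mul_pow, hζN, one_mul, hw]
  have hsum : AnalyticAt ℂ (fun w => (N : ℂ)⁻¹ * ∑ j ∈ Finset.range N, V w (ζ ^ j * τ w) * ((ζ ^ j * τ w) ^ r)⁻¹) z₀ :=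
    analyticAt_const.fun_mul (Finset.analyticAt_fun_sum _ fun j _ => hj j)
  refine hsum.differentiableAt.congr_of_eventuallyEq ?_
  filter_upwards [hτe] with w hw using cf_eq hζ r hw

theorem cf_sum {N : ℕ} (hN : 0 < N) {s : ι → ℂ} {κ : ℂ} {V : ℂ → ℂ → ℂ} {z t : ℂ} (h0 : t ≠ 0) (ht : t ^ N = Q s κ z) :
    ∑ r ∈ Finset.range N, cf N s κ V r z * t ^ r = V z t := by
  have hζ := Complex.isPrimitiveRoot_exp N hN.ne'
  set ζ : ℂ := Complex.exp (2 * Real.pi * Complex.I / N) with hζd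
  have hζ0 : ζ ≠ 0 := Complex.exp_ne_zero _
  have hNC : (N : ℂ) ≠ 0 := by exact_mod_cast hN.ne'
  have h1 : ∀ r, cf N s κ V r z * t ^ r = (N : ℂ)⁻¹ * ∑ j ∈ Finset.range N, V z (ζ ^ j * t) * ((ζ ^ j)⁻¹) ^ r := by
    intro r
    rw [cf_eq hζ r ht, mul_assoc, Finset.sum_mul]
    congr 1
    refine Finset.sum_congr rfl fun j _ => ?_
    rw [mul_pow, mul_inv, mul_assoc, mul_assoc, inv_mul_cancel₀ (pow_ne_zero r h0), mul_one, inv_pow]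
  simp only [h1]
  rw [← Finset.mul_sum, Finset.sum_comm]
  have h2 : ∀ j ∈ Finset.range N, ∑ r ∈ Finset.range N, V z (ζ ^ j * t) * ((ζ ^ j)⁻¹) ^ r = if j = 0 then V z t * N else 0 := by
    intro j hj
    rw [← Finset.mul_sum]
    split_ifs with hj0
    · subst hj0
      simp
    · have h3 : (ζ ^ j)⁻¹ ≠ 1 := by
        rw [Ne, inv_eq_one]
        exact hζ.pow_ne_one_of_pos_of_lt hj0 (Finset.mem_range.1 hj)
      rw [geom_sum_eq h3, ← inv_pow, ← pow_mul, mul_comm j N, pow_mul, inv_pow ζ N, hζ.pow_eq_one, inv_one, one_pow]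
      simp
  rw [Finset.sum_congr rfl h2, Finset.sum_ite_eq' (Finset.range N) 0 (fun _ => V z t * N), if_pos (Finset.mem_range.2 hN)]
  rw [mul_comm (V z t), ← mul_assoc, inv_mul_cancel₀ hNC, one_mul]

theorem cf_le {N : ℕ} (hN : 0 < N) {s : ι → ℂ} {κ : ℂ} {V : ℂ → ℂ → ℂ} (r : ℕ) {z : ℂ} {A : ℝ}
    (hA : ∀ t, t ^ N = Q s κ z → ‖V z t‖ ≤ A) : ‖cf N s κ V r z‖ ≤ A * ‖Q s κ z‖ ^ (-(r : ℝ) / N) := by
  have hζ := Complex.isPrimitiveRoot_exp N hN.ne'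
  set ζ : ℂ := Complex.exp (2 * Real.pi * Complex.I / N) with hζd
  have hζ0 : ζ ≠ 0 := Complex.exp_ne_zero _
  obtain ⟨t, ht⟩ := IsAlgClosed.exists_pow_nat_eq (Q s κ z) hN
  have hζN : ∀ j : ℕ, (ζ ^ j) ^ N = 1 := fun j => by rw [← pow_mul, mul_comm, pow_mul, hζ.pow_eq_one, one_pow]
  have hroot : ∀ j : ℕ, (ζ ^ j * t) ^ N = Q s κ z := fun j => by rw [mul_pow, hζN, one_mul, ht]
  have hnorm : ∀ v : ℂ, v ^ N = Q s κ z → ‖(v ^ r)⁻¹‖ = ‖Q s κ z‖ ^ (-(r : ℝ) / N) := by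
    intro v hv
    rw [← hv, norm_pow, ← Real.rpow_natCast ‖v‖ N, ← Real.rpow_mul (norm_nonneg _), norm_inv, norm_pow,
      show (N : ℝ) * (-(r : ℝ) / N) = -(r : ℝ) by field_simp, Real.rpow_neg (norm_nonneg _), Real.rpow_natCast]
  rw [cf_eq hζ r ht, norm_mul, norm_inv, Complex.norm_natCast]
  have h1 : ‖∑ j ∈ Finset.range N, V z (ζ ^ j * t) * ((ζ ^ j * t) ^ r)⁻¹‖ ≤ N * (A * ‖Q s κ z‖ ^ (-(r : ℝ) / N)) := by
    refine (norm_sum_le _ _).trans ?_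
    have h2 : ∀ j ∈ Finset.range N, ‖V z (ζ ^ j * t) * ((ζ ^ j * t) ^ r)⁻¹‖ ≤ A * ‖Q s κ z‖ ^ (-(r : ℝ) / N) := by
      intro j _
      rw [norm_mul, hnorm _ (hroot j)]
      exact mul_le_mul_of_nonneg_right (hA _ (hroot j)) (Real.rpow_nonneg (norm_nonneg _) _)
    refine (Finset.sum_le_sum h2).trans ?_
    rw [Finset.sum_const, Finset.card_range, nsmul_eq_mul]
  have hNR : (0 : ℝ) < N := by exact_mod_cast hN
  rw [inv_mul_le_iff₀ hNR]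
  exact h1

end Pool.Agent.H60.OC
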