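import Pool.Agent.H60.OC.Expo

/-!
# OC Glob: the functions on the ordered level set are monomials in the differences
-/

set_option autoImplicit false

open Filter Topology

noncomputable section

namespace Pool.Agent.H60.OC

theorem pigeon {β : Type*} [Countable β] {F : Set ℂ} (hF : F.Finite) (g : ℂ → β) : ∃ b, {σ | σ ∉ F ∧ g σ = b}.Infinite := by
  by_contra hcon
  push Not at hcon
  apply not_countable_complex
  have h1 : (Set.univ : Set ℂ) ⊆ F ∪ ⋃ b, {σ | σ ∉ F ∧ g σ = b} := by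
    intro σ _
    by_cases h : σ ∈ F
    · exact Or.inl h
    · exact Or.inr (Set.mem_iUnion.2 ⟨g σ, h, rfl⟩)
  refine Set.Countable.mono h1 (hF.countable.union (Set.countable_iUnion fun b => ?_))
  exact (hcon b).countable

theorem glob {k : ℕ} (hk : 2 ≤ k) {u : (Fin k → ℂ) → ℂ} (hu : Hy u) :
    ∃ (c : ℂ) (r : ℤ) (b : Pr k → ℤ), c ≠ 0 ∧ ∀ x t, t ≠ 0 → t ^ NN k = vd x →
      u (nm x t) = c * t ^ r * ∏ H, ell H x ^ b H := by
  have hN := NN_pos hk
  obtain ⟨p, y, hpy⟩ := exists_good k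
  obtain ⟨c₀, r₀, b₀, hc₀, h₀⟩ := goodline hk hu hpy
  refine ⟨c₀, r₀, b₀, hc₀, fun x t ht0 ht => ?_⟩
  have hx : Function.Injective x := by
    rw [← vd_ne_iff, ← ht]
    exact pow_ne_zero _ ht0
  have hx0 : ∀ H : Pr k, ell H x ≠ 0 := fun H => sub_ne_zero.2 fun h1 => H.2.ne (hx h1)
  have hF := good_cofin hpy hx
  set F : Set ℂ := {σ : ℂ | ¬ (Good (fun i => p i + σ * y i) (fun i => x i - (p i + σ * y i)) ∧
      ∀ H : Pr k, ell H (fun i => p i + σ * y i) ≠ 0)} with hFd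
  have key : ∀ σ : ℂ, ∃ q : ℂ × ℤ × (Pr k → ℤ), σ ∉ F → q.1 ≠ 0 ∧
      (u (nm x t) = q.1 * t ^ q.2.1 * ∏ H, ell H x ^ q.2.2 H) ∧
      ∀ τ, τ ≠ 0 → τ ^ NN k = vd (fun i => p i + σ * y i) →
        u (nm (fun i => p i + σ * y i) τ) = q.1 * τ ^ q.2.1 * ∏ H, ell H (fun i => p i + σ * y i) ^ q.2.2 H := by
    intro σ
    by_cases hσ : σ ∈ F
    · exact ⟨⟨0, 0, 0⟩, fun h => absurd hσ h⟩
    · have hσ' : Good (fun i => p i + σ * y i) (fun i => x i - (p i + σ * y i)) := by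
        by_contra hcon
        exact hσ (fun h => hcon h.1)
      obtain ⟨c, r, b, hc, hcb⟩ := goodline hk hu hσ'
      refine ⟨⟨c, r, b⟩, fun _ => ⟨hc, ?_, ?_⟩⟩
      · have h1 := hcb 1 t ht0
        have h2 : (fun i => (p i + σ * y i) + 1 * (x i - (p i + σ * y i))) = x := by
          funext i
          ring
        simp only [h2] at h1
        exact h1 ht
      · intro τ hτ0 hτ
        have h1 := hcb 0 τ hτ0
        have h2 : (fun i => (p i + σ * y i) + 0 * (x i - (p i + σ * y i))) = fun i => p i + σ * y i := by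
          funext i
          ring
        simp only [h2] at h1
        exact h1 hτ
  choose q hq using key
  obtain ⟨⟨r, b⟩, hT⟩ := pigeon hF (fun σ => (q σ).2)
  set T : Set ℂ := {σ | σ ∉ F ∧ (q σ).2 = (r, b)} with hTd
  -- the constant does not depend on `σ`
  set X : ℂ := t ^ r * ∏ H, ell H x ^ b H with hX
  have hX0 : X ≠ 0 := mul_ne_zero (zpow_ne_zero _ ht0) (Finset.prod_ne_zero_iff.2 fun H _ => zpow_ne_zero _ (hx0 H))
  have hcon : ∀ σ ∈ T, (q σ).1 = u (nm x t) / X := by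
    intro σ hσ
    have h1 := (hq σ hσ.1).2.1
    rw [hσ.2] at h1
    rw [eq_div_iff hX0, h1, hX]
    ring
  set c' : ℂ := u (nm x t) / X with hc'
  have hc'0 : c' ≠ 0 := by
    obtain ⟨σ, hσ⟩ := hT.nonempty
    rw [← hcon σ hσ]
    exact (hq σ hσ.1).1
  have hell : ∀ σ ∈ T, ∀ H : Pr k, ell H (fun i => p i + σ * y i) ≠ 0 := by
    intro σ hσ
    by_contra hcon
    exact hσ.1 (fun h => hcon h.2)
  have hvd : ∀ σ ∈ T, vd (fun i => p i + σ * y i) ≠ 0 := fun σ hσ => by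
    rw [vd_eq]
    exact Finset.prod_ne_zero_iff.2 fun H _ => hell σ hσ H
  have heq : ∀ σ ∈ T, ∀ τ, τ ≠ 0 → τ ^ NN k = vd (fun i => p i + σ * y i) →
      c' * τ ^ r * ∏ H, ell H (fun i => p i + σ * y i) ^ b H = c₀ * τ ^ r₀ * ∏ H, ell H (fun i => p i + σ * y i) ^ b₀ H := by
    intro σ hσ τ hτ0 hτ
    have h1 := (hq σ hσ.1).2.2 τ hτ0 hτ
    rw [hσ.2, hcon σ hσ] at h1
    rw [← h1, h₀ σ τ hτ0 hτ]
  -- the congruence of the exponents of `t`
  obtain ⟨m, hm⟩ : (NN k : ℤ) ∣ r₀ - r := by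
    obtain ⟨σ, hσ⟩ := hT.nonempty
    obtain ⟨τ, hτ⟩ := IsAlgClosed.exists_pow_nat_eq (vd (fun i => p i + σ * y i)) hN
    have hτ0 : τ ≠ 0 := pow_ne_of hN hτ (hvd σ hσ)
    have hζ := Complex.isPrimitiveRoot_exp (NN k) hN.ne'
    set ζ : ℂ := Complex.exp (2 * Real.pi * Complex.I / (NN k : ℕ)) with hζd
    have hζ0 : ζ ≠ 0 := Complex.exp_ne_zero _
    have h1 := heq σ hσ τ hτ0 hτ
    have h2 := heq σ hσ (ζ * τ) (mul_ne_zero hζ0 hτ0) (by rw [mul_pow, hζ.pow_eq_one, one_mul, hτ])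
    rw [mul_zpow, mul_zpow] at h2
    have h3 : c₀ * τ ^ r₀ * ∏ H, ell H (fun i => p i + σ * y i) ^ b₀ H ≠ 0 :=
      mul_ne_zero (mul_ne_zero hc₀ (zpow_ne_zero _ hτ0)) (Finset.prod_ne_zero_iff.2 fun H _ => zpow_ne_zero _ (hell σ hσ H))
    have h4 : ζ ^ r = ζ ^ r₀ := by
      refine mul_right_cancel₀ h3 ?_
      calc ζ ^ r * (c₀ * τ ^ r₀ * ∏ H, ell H (fun i => p i + σ * y i) ^ b₀ H)
          = ζ ^ r * (c' * τ ^ r * ∏ H, ell H (fun i => p i + σ * y i) ^ b H) := by rw [h1]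
        _ = c' * (ζ ^ r * τ ^ r) * ∏ H, ell H (fun i => p i + σ * y i) ^ b H := by ring
        _ = c₀ * (ζ ^ r₀ * τ ^ r₀) * ∏ H, ell H (fun i => p i + σ * y i) ^ b₀ H := h2
        _ = _ := by ring
    rw [← hζ.zpow_eq_one_iff_dvd, zpow_sub₀ hζ0, h4, div_self (zpow_ne_zero _ hζ0)]
  -- the exponents of the differences
  have hb : (fun H => b₀ H + m - b H) = (0 : Pr k → ℤ) := by
    refine expo (c := c' / c₀ * (∏ H : Pr k, ell H y ^ (b₀ H + m - b H))⁻¹) hpy.2 hT fun σ hσ => ⟨fun H hH => ?_, ?_⟩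
    · apply hell σ hσ H
      rw [ell_line' hpy.1, hH, sub_self, mul_zero]
    · obtain ⟨τ, hτ⟩ := IsAlgClosed.exists_pow_nat_eq (vd (fun i => p i + σ * y i)) hN
      have hτ0 : τ ≠ 0 := pow_ne_of hN hτ (hvd σ hσ)
      have h1 := heq σ hσ τ hτ0 hτ
      have h2 : τ ^ r₀ = τ ^ r * ∏ H : Pr k, ell H (fun i => p i + σ * y i) ^ m := by
        rw [show r₀ = r + NN k * m by rw [← hm]; ring, zpow_add₀ hτ0, zpow_mul, zpow_natCast, hτ, vd_eq, Finset.prod_zpow]
      have h3 : τ ^ r ≠ 0 := zpow_ne_zero _ hτ0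
      have h4 : c' * ∏ H : Pr k, ell H (fun i => p i + σ * y i) ^ b H =
          c₀ * ∏ H : Pr k, ell H (fun i => p i + σ * y i) ^ (b₀ H + m) := by
        refine mul_left_cancel₀ h3 ?_
        calc τ ^ r * (c' * ∏ H : Pr k, ell H (fun i => p i + σ * y i) ^ b H)
            = c' * τ ^ r * ∏ H : Pr k, ell H (fun i => p i + σ * y i) ^ b H := by ring
          _ = c₀ * (τ ^ r * ∏ H : Pr k, ell H (fun i => p i + σ * y i) ^ m) * ∏ H : Pr k, ell H (fun i => p i + σ * y i) ^ b₀ H := by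
              rw [h1, h2]
          _ = τ ^ r * (c₀ * ((∏ H : Pr k, ell H (fun i => p i + σ * y i) ^ b₀ H) * ∏ H : Pr k, ell H (fun i => p i + σ * y i) ^ m)) := by
              ring
          _ = _ := by
              rw [← Finset.prod_mul_distrib]
              congr 2
              refine Finset.prod_congr rfl fun H _ => ?_
              rw [zpow_add₀ (hell σ hσ H)]
      have h5 : ∏ H : Pr k, ell H (fun i => p i + σ * y i) ^ (b₀ H + m - b H) = c' / c₀ := by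
        have h6 : ∏ H : Pr k, ell H (fun i => p i + σ * y i) ^ b H ≠ 0 :=
          Finset.prod_ne_zero_iff.2 fun H _ => zpow_ne_zero _ (hell σ hσ H)
        rw [Finset.prod_congr rfl fun H _ => zpow_sub₀ (hell σ hσ H) _ _, Finset.prod_div_distrib, div_eq_div_iff h6 hc₀, mul_comm _ c₀, h4]
      rw [← h5, ← div_eq_mul_inv, eq_div_iff (Finset.prod_ne_zero_iff.2 fun H _ => zpow_ne_zero _ (hpy.1 H)), ← Finset.prod_mul_distrib]
      refine Finset.prod_congr rfl fun H _ => ?_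
      rw [ell_line' hpy.1, mul_zpow, mul_comm]
  have hb' : ∀ H, b H = b₀ H + m := fun H => by
    have := congrFun hb H
    simp only [Pi.zero_apply] at this
    omega
  have hcc : c' = c₀ := by
    obtain ⟨σ, hσ⟩ := hT.nonempty
    obtain ⟨τ, hτ⟩ := IsAlgClosed.exists_pow_nat_eq (vd (fun i => p i + σ * y i)) hN
    have hτ0 : τ ≠ 0 := pow_ne_of hN hτ (hvd σ hσ)
    have h1 := heq σ hσ τ hτ0 hτ
    have h2 : τ ^ r₀ = τ ^ r * ∏ H : Pr k, ell H (fun i => p i + σ * y i) ^ m := by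
      rw [show r₀ = r + NN k * m by rw [← hm]; ring, zpow_add₀ hτ0, zpow_mul, zpow_natCast, hτ, vd_eq, Finset.prod_zpow]
    have h3 : τ ^ r * ∏ H : Pr k, ell H (fun i => p i + σ * y i) ^ b H ≠ 0 :=
      mul_ne_zero (zpow_ne_zero _ hτ0) (Finset.prod_ne_zero_iff.2 fun H _ => zpow_ne_zero _ (hell σ hσ H))
    refine mul_right_cancel₀ h3 ?_
    rw [← mul_assoc, h1, h2]
    simp only [hb']
    rw [Finset.prod_congr rfl fun H _ => zpow_add₀ (hell σ hσ H) (b₀ H) m, Finset.prod_mul_distrib]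
    ring
  have h1 : u (nm x t) = c' * X := by rw [hc', div_mul_cancel₀ _ hX0]
  rw [h1, hcc, hX]
  simp only [hb']
  rw [Finset.prod_congr rfl fun H _ => zpow_add₀ (hx0 H) (b₀ H) m, Finset.prod_mul_distrib,
    show r₀ = r + NN k * m by rw [← hm]; ring, zpow_add₀ ht0, zpow_mul, zpow_natCast, ht, vd_eq, Finset.prod_zpow]
  ring

end Pool.Agent.H60.OC
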