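import Pool.Agent.H60.OC.Liou
import Pool.Agent.H60.OC.Fib

/-!
# OC LineMain: the functions on the curve `t ^ N = Q z`
-/

set_option autoImplicit false

open Filter Topology

noncomputable section

namespace Pool.Agent.H60.OC

variable {ι : Type*} [Fintype ι]

theorem core {N : ℕ} (hN : 0 < N) (hcard : Fintype.card ι = N) {s : ι → ℂ} {κ : ℂ} {V : ℂ → ℂ → ℂ} (h : Line N s κ V)
    (hs : Function.Injective s) (hκ : κ ≠ 0) {m : ι → ℤ}
    (hm : ∀ i, ∃ C ε : ℝ, 0 < ε ∧ ∀ z t, z ≠ s i → ‖z - s i‖ < ε → t ^ N = Q s κ z → ‖V z t‖ ≤ C * ‖z - s i‖ ^ ((m i : ℝ) / N))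
    (hsum : 0 ≤ ∑ i, m i) :
    ∃ (c : ℂ) (r : ℕ) (b : ι → ℤ), c ≠ 0 ∧ ∀ z t, t ≠ 0 → t ^ N = Q s κ z → V z t = c * t ^ r * ∏ i, (z - s i) ^ b i := by
  classical
  have hNR : (0 : ℝ) < N := by exact_mod_cast hN
  have key : ∀ r : ℕ, ∃ k : ℂ, (∀ z, (∀ i, z ≠ s i) → cf N s κ V r z = k * ∏ i, (z - s i) ^ ⌈((m i : ℝ) - r) / N⌉) ∧
      (-(r : ℝ) < ∑ i, (⌈((m i : ℝ) - r) / N⌉ : ℝ) → k = 0) := by
    intro r
    refine liou hs (fun z hz => cf_diff hN h hκ r hz) (e := fun i => ((m i : ℝ) - r) / N) ?_ (ρ := r) ?_ ?_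
    · intro i
      obtain ⟨C, ε, hε, hC⟩ := hm i
      obtain ⟨c, ε', hc, hε', hQ⟩ := Q_near s hκ hs i
      refine ⟨|C| * c ^ (-(r : ℝ) / N), min ε ε', lt_min hε hε', fun z hz hzε => ?_⟩
      have h0 : 0 < ‖z - s i‖ := norm_pos_iff.2 (sub_ne_zero.2 hz)
      have h1 := hQ z (hzε.trans_le (min_le_right _ _))
      have h2 : 0 < c * ‖z - s i‖ := mul_pos hc h0
      have hQ0 : Q s κ z ≠ 0 := norm_pos_iff.1 (h2.trans_le h1)
      have h3 := cf_le hN r (fun t ht => hC z t hz (hzε.trans_le (min_le_left _ _)) ht)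
      have h4 : ‖Q s κ z‖ ^ (-(r : ℝ) / N) ≤ (c * ‖z - s i‖) ^ (-(r : ℝ) / N) :=
        Real.rpow_le_rpow_of_nonpos h2 h1 (div_nonpos_of_nonpos_of_nonneg (neg_nonpos.2 (Nat.cast_nonneg r)) hNR.le)
      have h5 : C * ‖z - s i‖ ^ ((m i : ℝ) / N) ≤ |C| * ‖z - s i‖ ^ ((m i : ℝ) / N) := by
        gcongr
        exact le_abs_self C
      have h6 : ‖z - s i‖ ^ (((m i : ℝ) - r) / N) = ‖z - s i‖ ^ ((m i : ℝ) / N) * ‖z - s i‖ ^ (-(r : ℝ) / N) := by
        rw [← Real.rpow_add h0]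
        congr 1
        ring
      calc ‖cf N s κ V r z‖ ≤ C * ‖z - s i‖ ^ ((m i : ℝ) / N) * ‖Q s κ z‖ ^ (-(r : ℝ) / N) := h3
        _ ≤ (|C| * ‖z - s i‖ ^ ((m i : ℝ) / N)) * (c * ‖z - s i‖) ^ (-(r : ℝ) / N) :=
            mul_le_mul h5 h4 (by positivity) (by positivity)
        _ = |C| * c ^ (-(r : ℝ) / N) * ‖z - s i‖ ^ (((m i : ℝ) - r) / N) := by
            rw [h6, Real.mul_rpow hc.le h0.le]
            ring
    · obtain ⟨R, C, hC⟩ := h.bd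
      obtain ⟨c, R', hc, hR', hQ⟩ := Q_inf s hκ
      refine ⟨max R R', |C| * c ^ (-(r : ℝ) / N), fun z hz => ?_⟩
      have hz1 : R ≤ ‖z‖ := (le_max_left _ _).trans hz
      have hz2 : R' ≤ ‖z‖ := (le_max_right _ _).trans hz
      have hpos : 0 < ‖z‖ := by linarith
      obtain ⟨h1, h2⟩ := hQ z hz2
      have hQ0 : Q s κ z ≠ 0 := Q_ne hκ h1
      have h3 := cf_le hN r (fun t ht => (hC z t hz1 ht).1)
      rw [hcard] at h2
      have h4 : ‖Q s κ z‖ ^ (-(r : ℝ) / N) ≤ (c * ‖z‖ ^ N) ^ (-(r : ℝ) / N) :=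
        Real.rpow_le_rpow_of_nonpos (by positivity) h2 (div_nonpos_of_nonpos_of_nonneg (neg_nonpos.2 (Nat.cast_nonneg r)) hNR.le)
      have h5 : (c * ‖z‖ ^ N) ^ (-(r : ℝ) / N) = c ^ (-(r : ℝ) / N) * ‖z‖ ^ (-(r : ℝ)) := by
        rw [Real.mul_rpow hc.le (by positivity), ← Real.rpow_natCast ‖z‖ N, ← Real.rpow_mul hpos.le]
        congr 2
        field_simp
      calc ‖cf N s κ V r z‖ ≤ C * ‖Q s κ z‖ ^ (-(r : ℝ) / N) := h3
        _ ≤ |C| * ‖Q s κ z‖ ^ (-(r : ℝ) / N) := by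
            gcongr
            exact le_abs_self C
        _ ≤ |C| * (c * ‖z‖ ^ N) ^ (-(r : ℝ) / N) := by gcongr
        _ = _ := by rw [h5]; ring
    · have h1 : ∑ i, ((m i : ℝ) - r) / N = (∑ i, (m i : ℝ)) / N - r := by
        rw [← Finset.sum_div, Finset.sum_sub_distrib, Finset.sum_const, Finset.card_univ, hcard, nsmul_eq_mul]
        field_simp
      have h2 : ∑ i, ((m i : ℝ) - r) / N ≤ ∑ i, (⌈((m i : ℝ) - r) / N⌉ : ℝ) := Finset.sum_le_sum fun i _ => Int.le_ceil _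
      have h3 : (0 : ℝ) ≤ (∑ i, (m i : ℝ)) / N := by
        refine div_nonneg ?_ hNR.le
        exact_mod_cast hsum
      linarith
  choose k hk1 hk2 using key
  -- exponents
  have hexp : ∀ r, k r ≠ 0 → ∀ i, m i - r = N * ⌈((m i : ℝ) - r) / N⌉ := by
    intro r hr i
    have h0 : ∑ i, (⌈((m i : ℝ) - r) / N⌉ : ℝ) ≤ -(r : ℝ) := by
      by_contra hcon
      exact hr (hk2 r (not_le.1 hcon))
    have h1 : ∑ i, ((m i : ℝ) - r) / N = (∑ i, (m i : ℝ)) / N - r := by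
      rw [← Finset.sum_div, Finset.sum_sub_distrib, Finset.sum_const, Finset.card_univ, hcard, nsmul_eq_mul]
      field_simp
    have h3 : (0 : ℝ) ≤ (∑ i, (m i : ℝ)) / N := by
      refine div_nonneg ?_ hNR.le
      exact_mod_cast hsum
    have h4 : ∑ i, ((⌈((m i : ℝ) - r) / N⌉ : ℝ) - ((m i : ℝ) - r) / N) ≤ 0 := by
      rw [Finset.sum_sub_distrib]
      linarith
    have h5 : (⌈((m i : ℝ) - r) / N⌉ : ℝ) - ((m i : ℝ) - r) / N ≤ 0 :=
      (Finset.single_le_sum (f := fun i => (⌈((m i : ℝ) - r) / N⌉ : ℝ) - ((m i : ℝ) - r) / N)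
        (fun i _ => sub_nonneg.2 (Int.le_ceil _)) (Finset.mem_univ i)).trans h4
    have h6 : (⌈((m i : ℝ) - r) / N⌉ : ℝ) = ((m i : ℝ) - r) / N := le_antisymm (by linarith) (Int.le_ceil _)
    have h7 : ((m i - r : ℤ) : ℝ) = ((N * ⌈((m i : ℝ) - r) / N⌉ : ℤ) : ℝ) := by
      push_cast
      rw [h6]
      field_simp
    exact_mod_cast h7
  obtain ⟨i₀⟩ : Nonempty ι := Fintype.card_pos_iff.1 (by omega)
  have huniq : ∀ r r', r < N → r' < N → k r ≠ 0 → k r' ≠ 0 → r = r' := by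
    intro r r' hr hr' h1 h2
    have h3 := hexp r h1 i₀
    have h4 := hexp r' h2 i₀
    have h5 : (r' : ℤ) - r = N * (⌈((m i₀ : ℝ) - r) / N⌉ - ⌈((m i₀ : ℝ) - r') / N⌉) := by
      rw [mul_sub, ← h3, ← h4]
      ring
    have h6 : (N : ℤ) ∣ (r' : ℤ) - r := ⟨_, h5⟩
    have h7 := Int.eq_zero_of_abs_lt_dvd h6 (by rw [abs_lt]; constructor <;> omega)
    omega
  obtain ⟨cQ, RQ, -, hRQ, hQ⟩ := Q_inf s hκ
  obtain ⟨r, hr, hkr⟩ : ∃ r, r < N ∧ k r ≠ 0 := by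
    by_contra hcon
    push Not at hcon
    have h1 : RQ ≤ ‖(RQ : ℂ)‖ := by
      rw [Complex.norm_real, Real.norm_of_nonneg (by linarith)]
    have h2 := (hQ _ h1).1
    obtain ⟨t, ht⟩ := IsAlgClosed.exists_pow_nat_eq (Q s κ RQ) hN
    have ht0 : t ≠ 0 := pow_ne_of hN ht (Q_ne hκ h2)
    apply (h.om _ t ht0 ht).1
    rw [← cf_sum (V := V) hN ht0 ht]
    refine Finset.sum_eq_zero fun r hr => ?_
    rw [hk1 r _ h2, hcon r (Finset.mem_range.1 hr), zero_mul, zero_mul]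
  refine ⟨k r, r, fun i => ⌈((m i : ℝ) - r) / N⌉, hkr, fun z t h0 ht => ?_⟩
  have hz : ∀ i, z ≠ s i := (Q_ne_iff hκ).1 (by rw [← ht]; exact pow_ne_zero _ h0)
  rw [← cf_sum (V := V) hN h0 ht, Finset.sum_eq_single r]
  · rw [hk1 r z hz]
    ring
  · intro r' hr' hne
    rw [hk1 r' z hz]
    by_cases h1 : k r' = 0
    · rw [h1, zero_mul, zero_mul]
    · exact absurd (huniq r' r (Finset.mem_range.1 hr') hr h1 hkr) hne
  · intro h1
    exact absurd (Finset.mem_range.2 hr) h1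

/-- A function on the curve `t ^ N = Q z` (`deg Q = N`) without zeros and ones, bounded and bounded away from zero at
infinity, is `c t ^ r prod (z - s_i) ^ (b_i)`. -/
theorem Line.main {N : ℕ} (hN : 0 < N) (hcard : Fintype.card ι = N) {s : ι → ℂ} {κ : ℂ} {V : ℂ → ℂ → ℂ}
    (h : Line N s κ V) (hs : Function.Injective s) (hκ : κ ≠ 0) :
    ∃ (c : ℂ) (r : ℤ) (b : ι → ℤ), c ≠ 0 ∧ ∀ z t, t ≠ 0 → t ^ N = Q s κ z → V z t = c * t ^ r * ∏ i, (z - s i) ^ b i := by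
  choose m C ε hC hε hp using fun i => h.punct hN hs hκ i
  rcases le_total 0 (∑ i, m i) with h0 | h0
  · obtain ⟨c, r, b, hc, hb⟩ := core hN hcard h hs hκ (m := m)
      (fun i => ⟨C i, ε i, hε i, fun z t hz hzε ht => (hp i z t hz hzε ht).1⟩) h0
    exact ⟨c, r, b, hc, fun z t h1 h2 => by rw [hb z t h1 h2, zpow_natCast]⟩
  · obtain ⟨c, r, b, hc, hb⟩ := core hN hcard h.inv hs hκ (m := fun i => -m i)
      (fun i => ⟨C i, ε i, hε i, fun z t hz hzε ht => by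
        have h1 : 0 < ‖z - s i‖ := norm_pos_iff.2 (sub_ne_zero.2 hz)
        have h2 := (hp i z t hz hzε ht).2
        have h3 : 0 < ‖z - s i‖ ^ ((m i : ℝ) / N) := Real.rpow_pos_of_pos h1 _
        have h4 : 0 < ‖V z t‖ := by
          by_contra h4
          have h5 : ‖V z t‖ = 0 := le_antisymm (not_lt.1 h4) (norm_nonneg _)
          rw [h5, mul_zero] at h2
          linarith
        have h5 : ‖z - s i‖ ^ (((-m i : ℤ) : ℝ) / N) = (‖z - s i‖ ^ ((m i : ℝ) / N))⁻¹ := by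
          rw [← Real.rpow_neg h1.le]
          congr 1
          push_cast
          ring
        rw [h5, norm_inv, ← div_eq_mul_inv, le_div_iff₀ h3, inv_mul_le_iff₀ h4, mul_comm]
        exact h2⟩) (by rw [Finset.sum_neg_distrib]; omega)
    refine ⟨c⁻¹, -(r : ℤ), fun i => -b i, inv_ne_zero hc, fun z t h1 h2 => ?_⟩
    have h3 := hb z t h1 h2
    rw [← inv_inv (V z t), h3, mul_inv, mul_inv, ← Finset.prod_inv_distrib, zpow_neg, zpow_natCast]
    congr 1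
    refine Finset.prod_congr rfl fun i _ => ?_
    rw [zpow_neg]

end Pool.Agent.H60.OC
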