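import Pool.Agent.H60.OC.Conf
import Pool.Agent.H60.OC.LineMain

/-!
# OC GoodLine: functions on the ordered level set along lines
-/

set_option autoImplicit false

open Filter Topology

noncomputable section

namespace Pool.Agent.H60.OC

/-- `p + z y` is a line in general position with respect to the hyperplanes `x_i = x_j`. -/
def Good {k : ℕ} (p y : Fin k → ℂ) : Prop :=
  (∀ H : Pr k, ell H y ≠ 0) ∧ Function.Injective (fun H : Pr k => -ell H p / ell H y)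

theorem ell_line {k : ℕ} (H : Pr k) (p y : Fin k → ℂ) (z : ℂ) :
    ell H (fun i => p i + z * y i) = ell H p + z * ell H y := by
  unfold ell
  ring

theorem ell_line' {k : ℕ} {p y : Fin k → ℂ} (h : ∀ H : Pr k, ell H y ≠ 0) (H : Pr k) (z : ℂ) :
    ell H (fun i => p i + z * y i) = ell H y * (z - (-ell H p / ell H y)) := by
  rw [ell_line]
  have := h H
  field_simp
  ring

theorem vd_line {k : ℕ} {p y : Fin k → ℂ} (h : ∀ H : Pr k, ell H y ≠ 0) (z : ℂ) :
    vd (fun i => p i + z * y i) = Q (fun H : Pr k => -ell H p / ell H y) (vd y) z := by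
  rw [vd_eq, vd_eq, Q, ← Finset.prod_mul_distrib]
  exact Finset.prod_congr rfl fun H _ => ell_line' h H z

theorem vd_cont {k : ℕ} : Continuous (vd : (Fin k → ℂ) → ℂ) := by
  unfold vd
  fun_prop

theorem line_bd {k : ℕ} (hk : 2 ≤ k) {u : (Fin k → ℂ) → ℂ} (hu : Hy u) {p y : Fin k → ℂ} (h : ∀ H : Pr k, ell H y ≠ 0) :
    ∃ R C : ℝ, ∀ z t, R ≤ ‖z‖ → t ^ NN k = vd (fun i => p i + z * y i) →
      ‖u (nm (fun i => p i + z * y i) t)‖ ≤ C ∧ 1 ≤ C * ‖u (nm (fun i => p i + z * y i) t)‖ := by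
  have hN := NN_pos hk
  set D : ℂ → ℂ := fun ζ => vd (fun i => ζ * p i + y i) with hD
  have hDc : Continuous D := vd_cont.comp (by fun_prop)
  have hD0 : D 0 ≠ 0 := by
    rw [hD]
    simp only [zero_mul, zero_add]
    rw [vd_eq]
    exact Finset.prod_ne_zero_iff.2 fun H _ => h H
  have hev : ∀ᶠ ζ in 𝓝 (0 : ℂ), D ζ ≠ 0 := hDc.continuousAt.eventually_ne hD0
  obtain ⟨δ₀, hδ₀, hb⟩ := Metric.eventually_nhds_iff_ball.1 hev
  set δ : ℝ := δ₀ / 2 with hδd
  have hδ : 0 < δ := by positivity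
  have hb' : ∀ ζ : ℂ, ‖ζ‖ ≤ δ → D ζ ≠ 0 := fun ζ hζ => hb ζ (by rw [mem_ball_zero_iff]; linarith)
  set K : Set (ℂ × ℂ) := {q | ‖q.1‖ ≤ δ ∧ q.2 ^ NN k = D q.1} with hK
  have hKcl : IsClosed K := by
    refine IsClosed.inter (s₁ := {q : ℂ × ℂ | ‖q.1‖ ≤ δ}) (s₂ := {q : ℂ × ℂ | q.2 ^ NN k = D q.1}) ?_ ?_
    · exact isClosed_le (by fun_prop) continuous_const
    · exact isClosed_eq (by fun_prop) (hDc.comp continuous_fst)
  obtain ⟨B, hB⟩ := (isCompact_closedBall (0 : ℂ) δ).exists_bound_of_continuousOn hDc.continuousOn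
  have hKc : IsCompact K := by
    refine ((isCompact_closedBall (0 : ℂ) δ).prod (isCompact_closedBall (0 : ℂ) (max 1 B))).of_isClosed_subset hKcl ?_
    rintro ⟨ζ, τ⟩ ⟨h1, h2⟩
    refine ⟨by simpa using h1, ?_⟩
    rw [mem_closedBall_zero_iff]
    by_contra hcon
    have h3 : max 1 B < ‖τ‖ := not_le.1 hcon
    have h4 : 1 < ‖τ‖ := (le_max_left _ _).trans_lt h3
    have h5 : B < ‖τ‖ := (le_max_right _ _).trans_lt h3
    have h6 : ‖τ‖ ≤ ‖τ‖ ^ NN k := le_self_pow₀ h4.le hN.ne'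
    have h7 : ‖τ‖ ^ NN k ≤ B := by
      rw [← norm_pow]
      have h2' : τ ^ NN k = D ζ := h2
      rw [h2']
      exact hB ζ (by simpa using h1)
    linarith
  set Φ : ℂ × ℂ → (Fin k → ℂ) := fun q => nm (fun i => q.1 * p i + y i) q.2 with hΦ
  have hne : ∀ q ∈ K, q.2 ≠ 0 := fun q hq => pow_ne_of hN hq.2 (hb' _ hq.1)
  have hΦc : ContinuousOn Φ K := by
    refine continuousOn_pi.2 fun i => ?_
    show ContinuousOn (fun q : ℂ × ℂ => ((q.1 * p i + y i) - (∑ j, (q.1 * p j + y j)) / k) / q.2) K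
    refine ContinuousOn.div (Continuous.continuousOn (by fun_prop)) continuousOn_snd hne
  have hΦm : Set.MapsTo Φ K (MF k) := fun q hq => nm_mem hk (hne q hq) hq.2
  have huΦ : ContinuousOn (fun q => u (Φ q)) K := hu.cont.comp hΦc hΦm
  obtain ⟨C₁, hC₁⟩ := hKc.exists_bound_of_continuousOn huΦ
  obtain ⟨C₂, hC₂⟩ := hKc.exists_bound_of_continuousOn (huΦ.inv₀ fun q hq => (hu.om _ (hΦm hq)).1)
  refine ⟨max 1 δ⁻¹, max C₁ C₂, fun z t hz ht => ?_⟩
  have hz1 : 1 ≤ ‖z‖ := (le_max_left _ _).trans hz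
  have hz2 : δ⁻¹ ≤ ‖z‖ := (le_max_right _ _).trans hz
  have hz0 : z ≠ 0 := norm_pos_iff.1 (by linarith)
  have hfun : (fun i => p i + z * y i) = fun i => z * (z⁻¹ * p i + y i) := by
    funext i
    field_simp
  have hvd : vd (fun i => p i + z * y i) = z ^ NN k * D z⁻¹ := by
    rw [hD, vd_eq]
    show _ = z ^ NN k * vd (fun i => z⁻¹ * p i + y i)
    rw [vd_eq, hfun]
    have : ∀ H : Pr k, ell H (fun i => z * (z⁻¹ * p i + y i)) = z * ell H (fun i => z⁻¹ * p i + y i) := by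
      intro H
      unfold ell
      ring
    rw [Finset.prod_congr rfl fun H _ => this H, Finset.prod_mul_distrib, Finset.prod_const, Finset.card_univ]
  have hq : ((z⁻¹, t / z) : ℂ × ℂ) ∈ K := by
    refine ⟨?_, ?_⟩
    · show ‖z⁻¹‖ ≤ δ
      rw [norm_inv]
      exact inv_le_of_inv_le₀ hδ hz2
    · show (t / z) ^ NN k = D z⁻¹
      rw [div_pow, ht, hvd, mul_div_cancel_left₀ _ (pow_ne_zero _ hz0)]
  have hnm : nm (fun i => p i + z * y i) t = Φ (z⁻¹, t / z) := by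
    rw [hΦ, hfun]
    show _ = nm (fun i => z⁻¹ * p i + y i) (t / z)
    rw [← nm_smul (fun i => z⁻¹ * p i + y i) hz0, mul_div_cancel₀ _ hz0]
  rw [hnm]
  constructor
  · exact (hC₁ _ hq).trans (le_max_left _ _)
  · have h1 := hC₂ _ hq
    have h2 : 0 < ‖u (Φ (z⁻¹, t / z))‖ := norm_pos_iff.2 (hu.om _ (hΦm hq)).1
    have h3 : ‖(u (Φ (z⁻¹, t / z)))⁻¹‖ ≤ C₂ := h1
    rw [norm_inv, inv_le_iff_one_le_mul₀ h2] at h3
    exact h3.trans (mul_le_mul_of_nonneg_right (le_max_right _ _) h2.le)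

theorem line_of_good {k : ℕ} (hk : 2 ≤ k) {u : (Fin k → ℂ) → ℂ} (hu : Hy u) {p y : Fin k → ℂ} (h : ∀ H : Pr k, ell H y ≠ 0) :
    Line (NN k) (fun H : Pr k => -ell H p / ell H y) (vd y) (fun z t => u (nm (fun i => p i + z * y i) t)) where
  hol γ τ w₀ hγ hτ h0 he := by
    refine hu.hol (fun w => nm (fun i => p i + γ w * y i) (τ w)) w₀ ?_ ?_
    · refine analyticAt_pi_iff.2 fun i => ?_
      show AnalyticAt ℂ (fun w => ((p i + γ w * y i) - (∑ j, (p j + γ w * y j)) / k) / τ w) w₀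
      have h1 : ∀ j, AnalyticAt ℂ (fun w => p j + γ w * y j) w₀ := fun j =>
        analyticAt_const.fun_add (hγ.fun_mul analyticAt_const)
      refine ((h1 i).fun_sub ?_).fun_div hτ h0
      have h2 : AnalyticAt ℂ (fun w => ∑ j, (p j + γ w * y j)) w₀ := Finset.analyticAt_fun_sum _ fun j _ => h1 j
      by_cases hk0 : (k : ℂ) = 0
      · simp only [hk0, div_zero]
        exact analyticAt_const
      · exact h2.fun_div analyticAt_const hk0
    · filter_upwards [he, hτ.continuousAt.eventually_ne h0] with w h1 h2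
      refine nm_mem hk h2 ?_
      rw [vd_line h]
      exact h1
  om z t h0 ht := hu.om _ (nm_mem hk h0 (by rw [vd_line h]; exact ht))
  bd := by
    obtain ⟨R, C, hC⟩ := line_bd hk hu (p := p) h
    exact ⟨R, C, fun z t hz ht => hC z t hz (by rw [vd_line h]; exact ht)⟩

theorem goodline {k : ℕ} (hk : 2 ≤ k) {u : (Fin k → ℂ) → ℂ} (hu : Hy u) {p y : Fin k → ℂ} (h : Good p y) :
    ∃ (c : ℂ) (r : ℤ) (b : Pr k → ℤ), c ≠ 0 ∧ ∀ z t, t ≠ 0 → t ^ NN k = vd (fun i => p i + z * y i) →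
      u (nm (fun i => p i + z * y i) t) = c * t ^ r * ∏ H, ell H (fun i => p i + z * y i) ^ b H := by
  have hvd : vd y ≠ 0 := by
    rw [vd_eq]
    exact Finset.prod_ne_zero_iff.2 fun H _ => h.1 H
  obtain ⟨c, r, b, hc, hb⟩ := (line_of_good hk hu (p := p) h.1).main (NN_pos hk) rfl h.2 hvd
  refine ⟨c * (∏ H, ell H y ^ b H)⁻¹, r, b, mul_ne_zero hc (inv_ne_zero (Finset.prod_ne_zero_iff.2 fun H _ =>
    zpow_ne_zero _ (h.1 H))), fun z t h0 ht => ?_⟩
  rw [hb z t h0 (by rw [← vd_line h.1]; exact ht)]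
  have h1 : ∏ H, ell H (fun i => p i + z * y i) ^ b H =
      (∏ H : Pr k, ell H y ^ b H) * ∏ H : Pr k, (z - (-ell H p / ell H y)) ^ b H := by
    rw [← Finset.prod_mul_distrib]
    refine Finset.prod_congr rfl fun H _ => ?_
    rw [ell_line' h.1, mul_zpow]
  have h2 : ∏ H : Pr k, ell H y ^ b H ≠ 0 := Finset.prod_ne_zero_iff.2 fun H _ => zpow_ne_zero _ (h.1 H)
  rw [h1]
  field_simp

end Pool.Agent.H60.OC
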