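import Pool.Agent.H60.OC.Line

/-!
# OC Grow: elementary growth estimates
-/

set_option autoImplicit false

open Filter Topology

noncomputable section

namespace Pool.Agent.H60.OC

variable {ι : Type*} [Fintype ι]

theorem Q_near (s : ι → ℂ) {κ : ℂ} (hκ : κ ≠ 0) (hs : Function.Injective s) (i : ι) :
    ∃ c ε : ℝ, 0 < c ∧ 0 < ε ∧ ∀ z, ‖z - s i‖ < ε → c * ‖z - s i‖ ≤ ‖Q s κ z‖ := by
  classical
  set g : ℂ → ℂ := fun z => κ * ∏ j ∈ Finset.univ.erase i, (z - s j) with hg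
  have hgc : ContinuousAt g (s i) := by
    rw [hg]
    fun_prop
  have hg0 : g (s i) ≠ 0 := by
    refine mul_ne_zero hκ (Finset.prod_ne_zero_iff.2 fun j hj => ?_)
    exact sub_ne_zero.2 fun h1 => (Finset.ne_of_mem_erase hj) (hs h1.symm)
  have hpos : 0 < ‖g (s i)‖ := norm_pos_iff.2 hg0
  have hev : ∀ᶠ z in 𝓝 (s i), ‖g (s i)‖ / 2 < ‖g z‖ := continuousAt_const.eventually_lt hgc.norm (by linarith)
  obtain ⟨ε, hε, hb⟩ := Metric.eventually_nhds_iff_ball.1 hev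
  refine ⟨‖g (s i)‖ / 2, ε, by linarith, hε, fun z hz => ?_⟩
  have h1 : Q s κ z = (z - s i) * g z := by
    rw [Q, hg, ← Finset.mul_prod_erase Finset.univ _ (Finset.mem_univ i)]
    ring
  have h2 := (hb z (by rw [Metric.mem_ball, dist_eq_norm]; exact hz)).le
  calc ‖g (s i)‖ / 2 * ‖z - s i‖ ≤ ‖g z‖ * ‖z - s i‖ := mul_le_mul_of_nonneg_right h2 (norm_nonneg _)
    _ = ‖Q s κ z‖ := by
      rw [h1]
      exact (mul_comm _ _).trans (norm_mul (z - s i) (g z)).symm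

/-- For large `z` all `z - s i` have about the size of `z`. -/
theorem far (s : ι → ℂ) : ∃ R : ℝ, 1 ≤ R ∧ ∀ z, R ≤ ‖z‖ → ∀ i, ‖z‖ / 2 ≤ ‖z - s i‖ ∧ ‖z - s i‖ ≤ 2 * ‖z‖ := by
  refine ⟨1 + 2 * ∑ i, ‖s i‖, ?_, fun z hz i => ?_⟩
  · have : 0 ≤ ∑ i, ‖s i‖ := Finset.sum_nonneg fun i _ => norm_nonneg _
    linarith
  · have h1 : ‖s i‖ ≤ ∑ j, ‖s j‖ := Finset.single_le_sum (f := fun j => ‖s j‖) (fun j _ => norm_nonneg _) (Finset.mem_univ i)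
    have h2 := norm_sub_norm_le z (s i)
    have h3 := norm_sub_le z (s i)
    have h4 : 0 ≤ ‖s i‖ := norm_nonneg _
    constructor <;> linarith

theorem zpow_le {x y : ℝ} (hx : 0 < x) (h1 : x / 2 ≤ y) (h2 : y ≤ 2 * x) (c : ℤ) : y ^ c ≤ 2 ^ (|c| : ℤ) * x ^ c := by
  have hy : 0 < y := by linarith
  rcases le_total 0 c with hc | hc
  · rw [abs_of_nonneg hc, ← mul_zpow]
    exact zpow_le_zpow_left₀ hc hy.le h2
  · rw [abs_of_nonpos hc, zpow_neg, ← inv_zpow, ← mul_zpow]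
    have h3 : x / 2 = 2⁻¹ * x := by ring
    rw [← h3]
    have h4 : ∃ n : ℕ, c = -(n : ℤ) := ⟨c.natAbs, by omega⟩
    obtain ⟨n, rfl⟩ := h4
    rw [zpow_neg, zpow_neg, zpow_natCast, zpow_natCast]
    gcongr

theorem Q_inf (s : ι → ℂ) {κ : ℂ} (hκ : κ ≠ 0) :
    ∃ c R : ℝ, 0 < c ∧ 1 ≤ R ∧ ∀ z, R ≤ ‖z‖ → (∀ i, z ≠ s i) ∧ c * ‖z‖ ^ (Fintype.card ι) ≤ ‖Q s κ z‖ := by
  obtain ⟨R, hR, hf⟩ := far s
  refine ⟨‖κ‖ * (1 / 2) ^ (Fintype.card ι), R, by have := norm_pos_iff.2 hκ; positivity, hR, fun z hz => ⟨fun i hi => ?_, ?_⟩⟩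
  · have h1 := (hf z hz i).1
    rw [hi, sub_self, norm_zero] at h1
    rw [hi] at hz
    linarith
  · have hz0 : 0 ≤ ‖z‖ := norm_nonneg _
    rw [Q, norm_mul, norm_prod, mul_assoc, ← mul_pow, ← Finset.card_univ, ← Finset.prod_const]
    refine mul_le_mul_of_nonneg_left ?_ (norm_nonneg _)
    refine Finset.prod_le_prod (fun i _ => by positivity) fun i _ => ?_
    have := (hf z hz i).1
    linarith

end Pool.Agent.H60.OC
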