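import Mathlib

/-!
# OC Line: functions on the curve `t ^ N = κ prod (z - s_i)`
-/

set_option autoImplicit false

open Filter Topology

noncomputable section

namespace Pool.Agent.H60.OC

variable {ι : Type*} [Fintype ι]

/-- The polynomial `κ prod (z - s_i)`. -/
def Q (s : ι → ℂ) (κ z : ℂ) : ℂ := κ * ∏ i, (z - s i)

/-- `V z t` is a holomorphic function on the curve `t ^ N = Q z`, `t ≠ 0`, without the values `0` and `1`, bounded and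
bounded away from `0` near infinity. -/
structure Line (N : ℕ) (s : ι → ℂ) (κ : ℂ) (V : ℂ → ℂ → ℂ) : Prop where
  hol : ∀ (γ τ : ℂ → ℂ) (w₀ : ℂ), AnalyticAt ℂ γ w₀ → AnalyticAt ℂ τ w₀ → τ w₀ ≠ 0 →
    (∀ᶠ w in 𝓝 w₀, τ w ^ N = Q s κ (γ w)) → AnalyticAt ℂ (fun w => V (γ w) (τ w)) w₀
  om : ∀ z t, t ≠ 0 → t ^ N = Q s κ z → V z t ≠ 0 ∧ V z t ≠ 1
  bd : ∃ R C : ℝ, ∀ z t, R ≤ ‖z‖ → t ^ N = Q s κ z → ‖V z t‖ ≤ C ∧ 1 ≤ C * ‖V z t‖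

theorem Q_ne {s : ι → ℂ} {κ z : ℂ} (hκ : κ ≠ 0) (hz : ∀ i, z ≠ s i) : Q s κ z ≠ 0 :=
  mul_ne_zero hκ (Finset.prod_ne_zero_iff.2 fun i _ => sub_ne_zero.2 (hz i))

theorem Q_ne_iff {s : ι → ℂ} {κ z : ℂ} (hκ : κ ≠ 0) : Q s κ z ≠ 0 ↔ ∀ i, z ≠ s i := by
  refine ⟨fun h i hi => h ?_, Q_ne hκ⟩
  rw [Q, Finset.prod_eq_zero (Finset.mem_univ i) (sub_eq_zero.2 hi), mul_zero]

theorem Q_analyticAt {s : ι → ℂ} {κ : ℂ} {γ : ℂ → ℂ} {w₀ : ℂ} (hγ : AnalyticAt ℂ γ w₀) :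
    AnalyticAt ℂ (fun w => Q s κ (γ w)) w₀ := by
  unfold Q
  exact analyticAt_const.fun_mul (Finset.analyticAt_fun_prod _ fun i _ => hγ.fun_sub analyticAt_const)

theorem pow_ne_of {N : ℕ} (hN : 0 < N) {t q : ℂ} (ht : t ^ N = q) (hq : q ≠ 0) : t ≠ 0 := by
  rintro rfl
  rw [zero_pow hN.ne'] at ht
  exact hq ht.symm

theorem Line.inv {N : ℕ} {s : ι → ℂ} {κ : ℂ} {V : ℂ → ℂ → ℂ} (h : Line N s κ V) :
    Line N s κ (fun z t => (V z t)⁻¹) where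
  hol γ τ w₀ hγ hτ h0 he := (h.hol γ τ w₀ hγ hτ h0 he).fun_inv (h.om _ _ h0 he.self_of_nhds).1
  om z t h0 ht := ⟨inv_ne_zero (h.om z t h0 ht).1, fun h1 => (h.om z t h0 ht).2 (inv_eq_one.1 h1)⟩
  bd := by
    obtain ⟨R, C, hC⟩ := h.bd
    refine ⟨R, C, fun z t hz ht => ?_⟩
    obtain ⟨h1, h2⟩ := hC z t hz ht
    have h3 : 0 < ‖V z t‖ := by
      by_contra h3
      have h4 : ‖V z t‖ = 0 := le_antisymm (not_lt.1 h3) (norm_nonneg _)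
      rw [h4, mul_zero] at h2
      linarith
    rw [norm_inv]
    constructor
    · rw [inv_le_iff_one_le_mul₀ h3]
      exact h2
    · rw [← div_eq_mul_inv, one_le_div h3]
      exact h1

end Pool.Agent.H60.OC
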