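import Pool.Agent.H60.OC.Grow

/-!
# OC Liou: removable singularities and Liouville
-/

set_option autoImplicit false

open Filter Topology Asymptotics

noncomputable section

namespace Pool.Agent.H60.OC

/-- Removable singularities at finitely many points. -/
theorem exists_entire {K : ℂ → ℂ} {S : Set ℂ} (hS : S.Finite) (hd : ∀ z, z ∉ S → DifferentiableAt ℂ K z)
    (ho : ∀ c ∈ S, (fun z => K z - K c) =o[𝓝[≠] c] fun z => (z - c)⁻¹) :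
    ∃ F : ℂ → ℂ, Differentiable ℂ F ∧ ∀ z, z ∉ S → F z = K z := by
  have hopen : ∀ c, ∀ᶠ z in 𝓝[≠] c, z ∉ S := by
    intro c
    have h1 : ∀ᶠ z in 𝓝 c, z ∉ S \ {c} := (hS.subset Set.sdiff_subset).isClosed.isOpen_compl.mem_nhds (fun h => h.2 rfl)
    rw [eventually_nhdsWithin_iff]
    filter_upwards [h1] with z hz hzc hzS using hz ⟨hzS, hzc⟩
  have heq : ∀ z, z ∉ S → limUnder (𝓝[≠] z) K = K z := fun z hz =>
    ((hd z hz).continuousAt.continuousWithinAt (s := {z}ᶜ)).tendsto.limUnder_eq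
  refine ⟨fun z => limUnder (𝓝[≠] z) K, fun c => ?_, heq⟩
  by_cases hc : c ∈ S
  · have h1 : ∀ᶠ z in 𝓝 c, z ≠ c → z ∉ S := eventually_nhdsWithin_iff.1 (hopen c)
    have h2 : DifferentiableOn ℂ K ({z | z ≠ c → z ∉ S} \ {c}) := fun z hz => (hd z (hz.1 hz.2)).differentiableWithinAt
    have h3 := (Complex.differentiableOn_update_limUnder_of_isLittleO h1 h2 (ho c hc)).differentiableAt h1
    refine h3.congr_of_eventuallyEq ?_
    filter_upwards [h1] with z hz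
    by_cases hzc : z = c
    · subst hzc
      simp
    · rw [Function.update_of_ne hzc]
      exact heq z (hz hzc)
  · refine (hd c hc).congr_of_eventuallyEq ?_
    have h1 : ∀ᶠ z in 𝓝 c, z ∉ S := hS.isClosed.isOpen_compl.mem_nhds hc
    filter_upwards [h1] with z hz using heq z hz

variable {ι : Type*} [Fintype ι]

theorem liou {s : ι → ℂ} (hs : Function.Injective s) {a : ℂ → ℂ} (ha : ∀ z, (∀ i, z ≠ s i) → DifferentiableAt ℂ a z)
    {e : ι → ℝ} (hnear : ∀ i, ∃ C ε : ℝ, 0 < ε ∧ ∀ z, z ≠ s i → ‖z - s i‖ < ε → ‖a z‖ ≤ C * ‖z - s i‖ ^ (e i))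
    {ρ : ℝ} (hinf : ∃ R C : ℝ, ∀ z, R ≤ ‖z‖ → ‖a z‖ ≤ C * ‖z‖ ^ (-ρ)) (hsum : -ρ ≤ ∑ i, (⌈e i⌉ : ℝ)) :
    ∃ k : ℂ, (∀ z, (∀ i, z ≠ s i) → a z = k * ∏ i, (z - s i) ^ ⌈e i⌉) ∧ (-ρ < ∑ i, (⌈e i⌉ : ℝ) → k = 0) := by
  classical
  set K : ℂ → ℂ := fun z => a z * ∏ i, (z - s i) ^ (-⌈e i⌉) with hK
  have hKd : ∀ z, z ∉ Set.range s → DifferentiableAt ℂ K z := by
    intro z hz
    have hz' : ∀ i, z ≠ s i := fun i h => hz ⟨i, h.symm⟩
    refine (ha z hz').mul ?_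
    have h1 : DifferentiableAt ℂ (fun z => ∏ i, (z - s i) ^ (-⌈e i⌉)) z := by
      refine DifferentiableAt.fun_finsetProd fun i _ => ?_
      exact (differentiableAt_id.sub_const _).zpow (Or.inl (sub_ne_zero.2 (hz' i)))
    exact h1
  have hnear' : ∀ i, ∃ C ε : ℝ, 0 < ε ∧ ∀ z, z ≠ s i → ‖z - s i‖ < ε → ‖K z‖ ≤ C * ‖z - s i‖ ^ (e i - ⌈e i⌉) := by
    intro i
    obtain ⟨C, ε, hε, hC⟩ := hnear i
    set g : ℂ → ℂ := fun z => ∏ j ∈ Finset.univ.erase i, (z - s j) ^ (-⌈e j⌉) with hg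
    have hgc : ContinuousAt g (s i) := by
      have h1 : ∀ j ∈ Finset.univ.erase i, ContinuousAt (fun z => (z - s j) ^ (-⌈e j⌉)) (s i) := fun j hj =>
        (continuousAt_id.sub continuousAt_const).zpow₀ _ (Or.inl (sub_ne_zero.2 fun h1 => (Finset.ne_of_mem_erase hj) (hs h1.symm)))
      exact tendsto_finsetProd _ h1
    have hev : ∀ᶠ z in 𝓝 (s i), ‖g z‖ < ‖g (s i)‖ + 1 := hgc.norm.eventually_lt continuousAt_const (by linarith)
    obtain ⟨ε', hε', hb⟩ := Metric.eventually_nhds_iff_ball.1 hev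
    refine ⟨C * (‖g (s i)‖ + 1), min ε ε', lt_min hε hε', fun z hz hzε => ?_⟩
    have h0 : 0 < ‖z - s i‖ := norm_pos_iff.2 (sub_ne_zero.2 hz)
    have h1 : K z = a z * ((z - s i) ^ (-⌈e i⌉) * g z) := by
      rw [hK, hg]
      show a z * ∏ j, (z - s j) ^ (-⌈e j⌉) = _
      rw [← Finset.mul_prod_erase Finset.univ _ (Finset.mem_univ i)]
    have h2 : ‖g z‖ ≤ ‖g (s i)‖ + 1 :=
      (hb z (by rw [Metric.mem_ball, dist_eq_norm]; exact hzε.trans_le (min_le_right _ _))).le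
    have h3 := hC z hz (hzε.trans_le (min_le_left _ _))
    have h4 : ‖z - s i‖ ^ (e i - ⌈e i⌉) = ‖z - s i‖ ^ (e i) * ‖z - s i‖ ^ (-⌈e i⌉) := by
      rw [Real.rpow_sub h0, Real.rpow_intCast, zpow_neg]
      rfl
    rw [h1, norm_mul, norm_mul, norm_zpow, h4]
    have h5 : 0 ≤ ‖z - s i‖ ^ (-⌈e i⌉) := by positivity
    have h6 : 0 ≤ C * ‖z - s i‖ ^ (e i) := (norm_nonneg _).trans h3
    calc ‖a z‖ * (‖z - s i‖ ^ (-⌈e i⌉) * ‖g z‖) ≤ (C * ‖z - s i‖ ^ (e i)) * (‖z - s i‖ ^ (-⌈e i⌉) * (‖g (s i)‖ + 1)) := by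
          gcongr
      _ = _ := by ring
  have ho : ∀ c ∈ Set.range s, (fun z => K z - K c) =o[𝓝[≠] c] fun z => (z - c)⁻¹ := by
    rintro _ ⟨i, rfl⟩
    obtain ⟨C, ε, hε, hC⟩ := hnear' i
    have hexp : 0 < e i - ⌈e i⌉ + 1 := by
      have := Int.ceil_lt_add_one (e i)
      linarith
    have h1 : Tendsto (fun z : ℂ => ‖z - s i‖) (𝓝[≠] (s i)) (𝓝 0) := by
      have h2 : Tendsto (fun z : ℂ => ‖z - s i‖) (𝓝 (s i)) (𝓝 ‖s i - s i‖) := by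
        exact (continuous_id.sub continuous_const).norm.tendsto _
      rw [sub_self, norm_zero] at h2
      exact h2.mono_left nhdsWithin_le_nhds
    have h2 : Tendsto (fun z : ℂ => C * ‖z - s i‖ ^ (e i - ⌈e i⌉ + 1) + ‖K (s i)‖ * ‖z - s i‖) (𝓝[≠] (s i)) (𝓝 0) := by
      have h3 : Tendsto (fun z : ℂ => ‖z - s i‖ ^ (e i - ⌈e i⌉ + 1)) (𝓝[≠] (s i)) (𝓝 (0 ^ (e i - ⌈e i⌉ + 1))) :=
        h1.rpow_const (Or.inr hexp.le)
      rw [Real.zero_rpow hexp.ne'] at h3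
      have h4 := (h3.const_mul C).add (h1.const_mul ‖K (s i)‖)
      simpa using h4
    rw [isLittleO_iff]
    intro δ hδ
    have h3 : ∀ᶠ z in 𝓝[≠] (s i), C * ‖z - s i‖ ^ (e i - ⌈e i⌉ + 1) + ‖K (s i)‖ * ‖z - s i‖ < δ :=
      h2.eventually_lt tendsto_const_nhds hδ
    have h4 : ∀ᶠ z in 𝓝[≠] (s i), ‖z - s i‖ < ε := h1.eventually_lt tendsto_const_nhds hε
    filter_upwards [h3, h4, self_mem_nhdsWithin] with z h5 h6 h7
    have h0 : 0 < ‖z - s i‖ := norm_pos_iff.2 (sub_ne_zero.2 h7)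
    rw [norm_inv, ← div_eq_mul_inv, le_div_iff₀ h0]
    have h8 : ‖z - s i‖ ^ (e i - ⌈e i⌉ + 1) = ‖z - s i‖ ^ (e i - ⌈e i⌉) * ‖z - s i‖ := by
      rw [Real.rpow_add h0, Real.rpow_one]
    calc ‖K z - K (s i)‖ * ‖z - s i‖ ≤ (‖K z‖ + ‖K (s i)‖) * ‖z - s i‖ := by
          gcongr
          exact norm_sub_le _ _
      _ ≤ (C * ‖z - s i‖ ^ (e i - ⌈e i⌉) + ‖K (s i)‖) * ‖z - s i‖ := by
          gcongr
          exact hC z h7 h6
      _ = C * ‖z - s i‖ ^ (e i - ⌈e i⌉ + 1) + ‖K (s i)‖ * ‖z - s i‖ := by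
          rw [h8]
          ring
      _ ≤ δ := h5.le
  obtain ⟨F, hF, hFK⟩ := exists_entire (Set.finite_range s) hKd ho
  -- growth at infinity
  obtain ⟨R₁, C₁, hC₁⟩ := hinf
  obtain ⟨R₂, hR₂, hfar⟩ := far s
  set M : ℝ := ∏ i, (2 : ℝ) ^ (|(-⌈e i⌉)| : ℤ) with hM
  have hM0 : 0 < M := Finset.prod_pos fun i _ => by positivity
  have hFinf : ∀ z, max R₁ R₂ ≤ ‖z‖ → ‖F z‖ ≤ |C₁| * M * ‖z‖ ^ (-ρ - ∑ i, (⌈e i⌉ : ℝ)) := by
    intro z hz
    have hz1 : R₁ ≤ ‖z‖ := (le_max_left _ _).trans hz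
    have hz2 : R₂ ≤ ‖z‖ := (le_max_right _ _).trans hz
    have hpos : 0 < ‖z‖ := by linarith
    have hzs : z ∉ Set.range s := by
      rintro ⟨i, rfl⟩
      have := (hfar _ hz2 i).1
      rw [sub_self, norm_zero] at this
      linarith
    rw [hFK z hzs, hK]
    show ‖a z * ∏ i, (z - s i) ^ (-⌈e i⌉)‖ ≤ _
    rw [norm_mul, norm_prod]
    have h1 : ∏ i, ‖(z - s i) ^ (-⌈e i⌉)‖ ≤ ∏ i, (2 : ℝ) ^ (|(-⌈e i⌉)| : ℤ) * ‖z‖ ^ (-⌈e i⌉) := by
      refine Finset.prod_le_prod (fun i _ => norm_nonneg _) fun i _ => ?_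
      rw [norm_zpow]
      exact zpow_le hpos (hfar z hz2 i).1 (hfar z hz2 i).2 _
    rw [Finset.prod_mul_distrib] at h1
    have h2 : ∏ i, ‖z‖ ^ (-⌈e i⌉) = ‖z‖ ^ (-∑ i, (⌈e i⌉ : ℝ)) := by
      rw [← Finset.sum_neg_distrib, Real.rpow_sum_of_pos hpos]
      refine Finset.prod_congr rfl fun i _ => ?_
      rw [← Real.rpow_intCast]
      push_cast
      rfl
    rw [h2] at h1
    have h3 : ‖z‖ ^ (-ρ - ∑ i, (⌈e i⌉ : ℝ)) = ‖z‖ ^ (-ρ) * ‖z‖ ^ (-∑ i, (⌈e i⌉ : ℝ)) := by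
      rw [← Real.rpow_add hpos]
      congr 1
    rw [h3]
    have h4 : ‖a z‖ ≤ |C₁| * ‖z‖ ^ (-ρ) := (hC₁ z hz1).trans (by gcongr; exact le_abs_self _)
    calc ‖a z‖ * ∏ i, ‖(z - s i) ^ (-⌈e i⌉)‖ ≤ (|C₁| * ‖z‖ ^ (-ρ)) * (M * ‖z‖ ^ (-∑ i, (⌈e i⌉ : ℝ))) :=
          mul_le_mul h4 h1 (Finset.prod_nonneg fun i _ => norm_nonneg _) (by positivity)
      _ = _ := by ring
  have hbd : Bornology.IsBounded (Set.range F) := by
    obtain ⟨B, hB⟩ := (isCompact_closedBall (0 : ℂ) (max R₁ R₂)).exists_bound_of_continuousOn hF.continuous.continuousOn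
    rw [isBounded_iff_forall_norm_le]
    refine ⟨max B (|C₁| * M), ?_⟩
    rintro _ ⟨z, rfl⟩
    rcases le_total ‖z‖ (max R₁ R₂) with hz | hz
    · exact (hB z (by simpa using hz)).trans (le_max_left _ _)
    · refine (hFinf z hz).trans (le_trans ?_ (le_max_right _ _))
      have h1 : 1 ≤ ‖z‖ := hR₂.trans ((le_max_right _ _).trans hz)
      have h2 : ‖z‖ ^ (-ρ - ∑ i, (⌈e i⌉ : ℝ)) ≤ 1 := Real.rpow_le_one_of_one_le_of_nonpos h1 (by linarith)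
      have h3 : 0 ≤ |C₁| * M := by positivity
      nlinarith
  have hconst : ∀ z, F z = F 0 := fun z => hF.apply_eq_apply_of_bounded hbd z 0
  refine ⟨F 0, fun z hz => ?_, fun hlt => ?_⟩
  · have hzs : z ∉ Set.range s := by
      rintro ⟨i, hi⟩
      exact hz i hi.symm
    have h1 : a z * ∏ i, (z - s i) ^ (-⌈e i⌉) = F 0 := by rw [← hconst z, hFK z hzs]
    rw [← h1, mul_assoc, ← Finset.prod_mul_distrib]
    have h2 : ∏ i, (z - s i) ^ (-⌈e i⌉) * (z - s i) ^ ⌈e i⌉ = 1 := by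
      refine Finset.prod_eq_one fun i _ => ?_
      rw [← zpow_add₀ (sub_ne_zero.2 (hz i))]
      simp
    rw [h2, mul_one]
  · have h1 : Tendsto (fun x : ℝ => |C₁| * M * x ^ (-ρ - ∑ i, (⌈e i⌉ : ℝ))) atTop (𝓝 (|C₁| * M * 0)) := by
      refine Tendsto.const_mul _ ?_
      have h2 := tendsto_rpow_neg_atTop (y := -(-ρ - ∑ i, (⌈e i⌉ : ℝ))) (by linarith)
      rw [neg_neg] at h2
      exact h2
    rw [mul_zero] at h1
    have h2 : ‖F 0‖ ≤ 0 := by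
      refine ge_of_tendsto h1 ?_
      filter_upwards [eventually_ge_atTop (max R₁ R₂), eventually_ge_atTop 0] with x hx hx0
      have h3 := hFinf (x : ℂ) (by rw [Complex.norm_real, Real.norm_of_nonneg hx0]; exact hx)
      rw [hconst, Complex.norm_real, Real.norm_of_nonneg hx0] at h3
      exact h3
    exact norm_le_zero_iff.1 h2

end Pool.Agent.H60.OC
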