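import Pool.Agent.H60.OC.RootAna
import Pool.Agent.H60.OC.Dich
import Pool.Agent.H60.OC.Count

/-!
# OC Main: holomorphic maps of the discriminant level sets with split lift to the ordered level sets
-/

set_option autoImplicit false

open Filter Topology Polynomial

noncomputable section

namespace Pool.Agent.H60.OC

theorem MF_nonempty {k : ℕ} (hk : 2 ≤ k) : ∃ x, x ∈ MF k :=
  ⟨_, pull_mem hk (y := fun i : Fin (k + 1) => ((i : ℕ) : ℂ)) (fun i j h => by
    have h1 : ((i : ℕ) : ℂ) = ((j : ℕ) : ℂ) := h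
    exact Fin.ext (by exact_mod_cast h1))⟩

section

variable {k n : ℕ} {f : (Fin k → ℂ) → (Fin n → ℂ)} {μ : (Fin k → ℂ) → (Fin n → ℂ)}

theorem mu_roots (hμ : ∀ x ∈ MF k, ∀ z, IsRoots x z → IsRoots (μ x) (f z)) {x : Fin k → ℂ} (hx : x ∈ MF k) :
    IsRoots (μ x) (f (zc x)) := hμ x hx _ (zc_roots x)

theorem mu_sq (hmap : Set.MapsTo f (SG k) (SG n)) (hμ : ∀ x ∈ MF k, ∀ z, IsRoots x z → IsRoots (μ x) (f z))
    {x : Fin k → ℂ} (hx : x ∈ MF k) : vd (μ x) ^ 2 = 1 := by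
  obtain ⟨-, x', h1, h2⟩ := hmap (zc_mem hx)
  exact vd_sq_of_roots (mu_roots hμ hx) h1 h2

theorem mu_inj (hmap : Set.MapsTo f (SG k) (SG n)) (hμ : ∀ x ∈ MF k, ∀ z, IsRoots x z → IsRoots (μ x) (f z))
    {x : Fin k → ℂ} (hx : x ∈ MF k) : Function.Injective (μ x) := by
  rw [← vd_ne_iff]
  intro h0
  have h1 := mu_sq hmap hμ hx
  rw [h0] at h1
  norm_num at h1

theorem mu_sum (hn : 0 < n) (hmap : Set.MapsTo f (SG k) (SG n)) (hμ : ∀ x ∈ MF k, ∀ z, IsRoots x z → IsRoots (μ x) (f z))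
    {x : Fin k → ℂ} (hx : x ∈ MF k) : ∑ i, μ x i = 0 := by
  have h1 := sum_of_roots hn (mu_roots hμ hx)
  rw [(hmap (zc_mem hx)).1 ⟨0, hn⟩ rfl] at h1
  exact neg_eq_zero.1 h1.symm

theorem mu_hol (hmap : Set.MapsTo f (SG k) (SG n)) (hf : HoloOn (SG k) f) (hc : ContinuousOn μ (MF k))
    (hμ : ∀ x ∈ MF k, ∀ z, IsRoots x z → IsRoots (μ x) (f z)) (i : Fin n) : CHol (MF k) (fun x => μ x i) := by
  intro γ w₀ hγ hm
  refine root_an (f_an hf hγ hm) (ρ := fun w => μ (γ w)) ?_ ?_ i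
  · filter_upwards [hγ.eventually_analyticAt, hm.eventually_nhds] with w h1 h2
    have h3 : Tendsto γ (𝓝 w) (𝓝[MF k] (γ w)) := tendsto_nhdsWithin_iff.2 ⟨h1.continuousAt, h2⟩
    exact (hc (γ w) h2.self_of_nhds).tendsto.comp h3
  · filter_upwards [hm] with w hw
    exact ⟨mu_roots hμ hw, mu_inj hmap hμ hw⟩

theorem main_theorem (hk : 3 ≤ k) (hkn : k < n) (hmap : Set.MapsTo f (SG k) (SG n)) (hf : HoloOn (SG k) f)
    (hc : ContinuousOn μ (MF k)) (hμ : ∀ x ∈ MF k, ∀ z, IsRoots x z → IsRoots (μ x) (f z)) :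
    ∀ z ∈ SG k, ∀ z' ∈ SG k, f z = f z' := by
  have hk2 : 2 ≤ k := by omega
  have hinj := fun {x} (hx : x ∈ MF k) => mu_inj hmap hμ hx
  have hhol := mu_hol hmap hf hc hμ
  have hcj : ∀ j, ContinuousOn (fun x => μ x j) (MF k) := fun j => continuousOn_pi.1 hc j
  set i0 : Fin n := ⟨0, by omega⟩ with hi0
  set i1 : Fin n := ⟨1, by omega⟩ with hi1
  have h01 : i0 ≠ i1 := by simp [hi0, hi1]
  have hδ : ∀ x ∈ MF k, μ x i1 - μ x i0 ≠ 0 := fun x hx => sub_ne_zero.2 fun h => h01 (hinj hx h).symm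
  -- the difference quotients
  set ix : Fin (n - 2) → Fin n := fun r => ⟨(r : ℕ) + 2, by omega⟩ with hix
  have hix0 : ∀ r, ix r ≠ i0 := fun r h => by
    have := congrArg Fin.val h
    simp [hix, hi0] at this
  have hix1 : ∀ r, ix r ≠ i1 := fun r h => by
    have := congrArg Fin.val h
    simp [hix, hi1] at this
  have hixi : Function.Injective ix := fun r r' h => by
    have := congrArg Fin.val h
    simp [hix] at this
    exact Fin.ext this
  set W : Fin (n - 2) → (Fin k → ℂ) → ℂ := fun r x => (μ x (ix r) - μ x i0) / (μ x i1 - μ x i0) with hW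
  have hHy : ∀ r, Hy (W r) := fun r => by
    refine ⟨fun γ w₀ h1 h2 => ?_, ?_, fun x hx => ⟨?_, ?_⟩⟩
    · exact ((hhol (ix r) γ w₀ h1 h2).fun_sub (hhol i0 γ w₀ h1 h2)).fun_div ((hhol i1 γ w₀ h1 h2).fun_sub (hhol i0 γ w₀ h1 h2))
        (hδ _ h2.self_of_nhds)
    · exact ((hcj (ix r)).sub (hcj i0)).div ((hcj i1).sub (hcj i0)) hδ
    · exact div_ne_zero (sub_ne_zero.2 fun h => hix0 r (hinj hx h)) (hδ x hx)
    · intro h
      rw [hW, div_eq_one_iff_eq (hδ x hx)] at h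
      have h2 : μ x (ix r) = μ x i1 := by linear_combination h
      exact hix1 r (hinj hx h2)
  have hWne : ∀ r r', r ≠ r' → ∀ x ∈ MF k, W r x ≠ W r' x := by
    intro r r' hne x hx h
    have h1 : μ x (ix r) - μ x i0 = μ x (ix r') - μ x i0 := by
      have h2 : (μ x (ix r) - μ x i0) / (μ x i1 - μ x i0) = (μ x (ix r') - μ x i0) / (μ x i1 - μ x i0) := h
      rwa [div_left_inj' (hδ x hx)] at h2
    have h2 : μ x (ix r) = μ x (ix r') := by linear_combination h1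
    exact hne (hixi (hinj hx h2))
  obtain ⟨x₀, hx₀⟩ := MF_nonempty hk2
  -- all the quotients are constant
  have hconst : ∀ r, ∃ c, ∀ x ∈ MF k, W r x = c := by
    by_contra hcon
    push Not at hcon
    obtain ⟨r, hr⟩ := hcon
    have hrcr : ∃ a b c s : Fin (k + 1), a ≠ b ∧ a ≠ c ∧ a ≠ s ∧ b ≠ c ∧ b ≠ s ∧ c ≠ s ∧
        ∀ y, Function.Injective y → W r (pull hk2 y) = cr y a b c s := by
      rcases dich hk2 (hHy r) with h | h
      · obtain ⟨c, hc⟩ := h
        obtain ⟨x, hx, hne⟩ := hr c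
        exact absurd (hc x hx) hne
      · exact h
    have hall : ∀ t, ∃ a b c s : Fin (k + 1), a ≠ b ∧ a ≠ c ∧ a ≠ s ∧ b ≠ c ∧ b ≠ s ∧ c ≠ s ∧
        ∀ y, Function.Injective y → W t (pull hk2 y) = cr y a b c s := by
      intro t
      by_cases htr : t = r
      · rw [htr]
        exact hrcr
      rcases dich hk2 (hHy t) with h | h
      · exfalso
        obtain ⟨c, hc⟩ := h
        have h0 := (hHy t).om x₀ hx₀
        rw [hc x₀ hx₀] at h0
        obtain ⟨a, b, c', s, n1, n2, n3, n4, n5, n6, h1⟩ := hrcr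
        obtain ⟨y, hy, h2⟩ := cr_surj n1 n2 n3 n4 n5 n6 h0.1 h0.2
        apply hWne t r htr (pull hk2 y) (pull_mem hk2 hy)
        rw [hc _ (pull_mem hk2 hy), h1 y hy, h2]
      · exact h
    have h1 := count (K := k + 1) (fun t y => W t (pull hk2 y)) hall (fun t t' hne y hy => hWne t t' hne _ (pull_mem hk2 hy))
    omega
  -- the roots are affine functions of one of the differences
  have haff : ∀ j : Fin n, ∃ c, ∀ x ∈ MF k, μ x j = μ x i0 + c * (μ x i1 - μ x i0) := by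
    intro j
    by_cases hj0 : j = i0
    · exact ⟨0, fun x _ => by rw [hj0]; ring⟩
    by_cases hj1 : j = i1
    · exact ⟨1, fun x _ => by rw [hj1]; ring⟩
    obtain ⟨r, hr⟩ : ∃ r, ix r = j := by
      have h1 : (j : ℕ) ≠ 0 := fun h => hj0 (Fin.ext h)
      have h2 : (j : ℕ) ≠ 1 := fun h => hj1 (Fin.ext h)
      refine ⟨⟨(j : ℕ) - 2, by omega⟩, Fin.ext ?_⟩
      show (j : ℕ) - 2 + 2 = j
      omega
    obtain ⟨c, hc⟩ := hconst r
    refine ⟨c, fun x hx => ?_⟩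
    have h1 : (μ x (ix r) - μ x i0) / (μ x i1 - μ x i0) = c := hc x hx
    rw [div_eq_iff (hδ x hx), hr] at h1
    linear_combination h1
  choose κ hκ using haff
  -- the norm of the difference is constant
  have hvd : ∀ x ∈ MF k, vd (μ x) = (∏ i, ∏ j ∈ Finset.Ioi i, (κ i - κ j)) * (μ x i1 - μ x i0) ^ NN n := by
    intro x hx
    rw [vd_eq, prod_pairs]
    have h1 : ∀ p : Pr n, ell p (μ x) = (κ p.1.1 - κ p.1.2) * (μ x i1 - μ x i0) := by
      intro p
      unfold ell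
      rw [hκ _ x hx, hκ p.1.2 x hx]
      ring
    rw [Finset.prod_congr rfl fun p _ => h1 p, Finset.prod_mul_distrib, Finset.prod_const, Finset.card_univ]
  set P : ℂ := ∏ i, ∏ j ∈ Finset.Ioi i, (κ i - κ j) with hP
  have hnorm : ∀ x ∈ MF k, ‖P‖ * ‖μ x i1 - μ x i0‖ ^ NN n = 1 := by
    intro x hx
    have h1 := mu_sq hmap hμ hx
    have h2 : ‖vd (μ x)‖ ^ 2 = 1 := by rw [← norm_pow, h1, norm_one]
    have h3 : ‖vd (μ x)‖ = 1 := by
      have h4 := norm_nonneg (vd (μ x))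
      nlinarith
    rw [hvd x hx, norm_mul, norm_pow] at h3
    exact h3
  have hNn := NN_pos (show 2 ≤ n by omega)
  set D : ℝ := ‖μ x₀ i1 - μ x₀ i0‖ with hD
  have hD0 : 0 < D := norm_pos_iff.2 (hδ x₀ hx₀)
  have hnD : ∀ x ∈ MF k, ‖μ x i1 - μ x i0‖ = D := by
    intro x hx
    have h1 := hnorm x hx
    have h2 := hnorm x₀ hx₀
    have hP0 : ‖P‖ ≠ 0 := by
      intro h0
      rw [h0, zero_mul] at h1
      exact zero_ne_one h1
    have h3 : ‖μ x i1 - μ x i0‖ ^ NN n = ‖μ x₀ i1 - μ x₀ i0‖ ^ NN n := mul_left_cancel₀ hP0 (h1.trans h2.symm)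
    exact (pow_left_inj₀ (norm_nonneg _) (norm_nonneg _) hNn.ne').1 h3
  -- the difference is constant
  have h2D : (2 * (D : ℂ)) ≠ 0 := mul_ne_zero two_ne_zero (by exact_mod_cast hD0.ne')
  have hUn : ∀ x ∈ MF k, ‖(μ x i1 - μ x i0) / (2 * (D : ℂ))‖ = 1 / 2 := by
    intro x hx
    rw [norm_div, hnD x hx, norm_mul, Complex.norm_real, Real.norm_of_nonneg hD0.le, Complex.norm_ofNat]
    field_simp
  have hU : Hy (fun x => (μ x i1 - μ x i0) / (2 * (D : ℂ))) := by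
    refine ⟨fun γ w₀ h1 h2 => ?_, ?_, fun x hx => ⟨?_, ?_⟩⟩
    · exact ((hhol i1 γ w₀ h1 h2).fun_sub (hhol i0 γ w₀ h1 h2)).fun_div analyticAt_const h2D
    · exact ((hcj i1).sub (hcj i0)).div continuousOn_const fun _ _ => h2D
    · exact div_ne_zero (hδ x hx) h2D
    · intro h
      have h1 := hUn x hx
      rw [h, norm_one] at h1
      norm_num at h1
  have hδc : ∃ c, ∀ x ∈ MF k, μ x i1 - μ x i0 = c := by
    rcases dich hk2 hU with ⟨c, hc⟩ | ⟨a, b, c, s, n1, n2, n3, n4, n5, n6, h1⟩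
    · refine ⟨c * (2 * (D : ℂ)), fun x hx => ?_⟩
      have h1 := hc x hx
      rw [div_eq_iff h2D] at h1
      exact h1
    · exfalso
      obtain ⟨y, hy, h2⟩ := cr_surj n1 n2 n3 n4 n5 n6 (w := 5) (by norm_num) (by norm_num)
      have h3 := hUn _ (pull_mem hk2 hy)
      have h4 := h1 y hy
      rw [h2] at h4
      rw [h4] at h3
      norm_num at h3
  obtain ⟨c, hc'⟩ := hδc
  have hnC : (n : ℂ) ≠ 0 := by
    have : n ≠ 0 := by omega
    exact_mod_cast this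
  have hμ0 : ∀ x ∈ MF k, μ x i0 = -((∑ j, κ j) * c) / n := by
    intro x hx
    have h1 := mu_sum (by omega) hmap hμ hx
    have h2 : ∑ i, μ x i = n * μ x i0 + (∑ j, κ j) * c := by
      rw [Finset.sum_congr rfl fun i _ => hκ i x hx, Finset.sum_add_distrib, Finset.sum_const, Finset.card_univ, Fintype.card_fin,
        nsmul_eq_mul, hc' x hx, Finset.sum_mul]
    rw [h2] at h1
    rw [eq_div_iff hnC]
    linear_combination h1
  have hμc : ∀ x ∈ MF k, ∀ x' ∈ MF k, μ x = μ x' := by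
    intro x hx x' hx'
    funext j
    rw [hκ j x hx, hκ j x' hx', hc' x hx, hc' x' hx', hμ0 x hx, hμ0 x' hx']
  intro z hz z' hz'
  obtain ⟨x, hx, h1⟩ := exists_ordered hk2 hz
  obtain ⟨x', hx', h2⟩ := exists_ordered hk2 hz'
  have h3 := hμ x hx z h1
  have h4 := hμ x' hx' z' h2
  rw [hμc x' hx' x hx] at h4
  exact poly_inj (h3.trans h4.symm)

end

end Pool.Agent.H60.OC
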