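import Mathlib

/-!
# OC Rt: holomorphic branches of the N-th root
-/

set_option autoImplicit false

open Filter Topology

noncomputable section

namespace Pool.Agent.H60.OC

/-- The branch of the `N`-th root near `t₀ ^ N` with value `t₀` there. -/
def rt (N : ℕ) (t₀ v : ℂ) : ℂ := t₀ * Complex.exp (Complex.log (v / t₀ ^ N) / N)

theorem rt_ne {N : ℕ} {t₀ v : ℂ} (h0 : t₀ ≠ 0) : rt N t₀ v ≠ 0 := mul_ne_zero h0 (Complex.exp_ne_zero _)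

theorem rt_pow {N : ℕ} (hN : 0 < N) {t₀ v : ℂ} (h0 : t₀ ≠ 0) (hv : v ≠ 0) : rt N t₀ v ^ N = v := by
  have hN' : (N : ℂ) ≠ 0 := by exact_mod_cast hN.ne'
  have hp : t₀ ^ N ≠ 0 := pow_ne_zero _ h0
  rw [rt, mul_pow, ← Complex.exp_nat_mul, mul_div_cancel₀ _ hN', Complex.exp_log (div_ne_zero hv hp), mul_div_cancel₀ _ hp]

theorem rt_self {N : ℕ} {t₀ : ℂ} (h0 : t₀ ≠ 0) : rt N t₀ (t₀ ^ N) = t₀ := by
  rw [rt, div_self (pow_ne_zero _ h0), Complex.log_one]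
  simp

theorem rt_analyticAt {N : ℕ} {t₀ : ℂ} (h0 : t₀ ≠ 0) : AnalyticAt ℂ (rt N t₀) (t₀ ^ N) := by
  have h1 : t₀ ^ N / t₀ ^ N ∈ Complex.slitPlane := by
    rw [div_self (pow_ne_zero _ h0)]
    exact Complex.one_mem_slitPlane
  have h2 : AnalyticAt ℂ (fun v : ℂ => v / t₀ ^ N) (t₀ ^ N) := analyticAt_id.div analyticAt_const (pow_ne_zero _ h0)
  have h3 : AnalyticAt ℂ (fun v : ℂ => Complex.log (v / t₀ ^ N)) (t₀ ^ N) := h2.clog h1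
  have h4 : AnalyticAt ℂ (fun v : ℂ => Complex.log (v / t₀ ^ N) / N) (t₀ ^ N) := by
    have h5 := h3.fun_mul (analyticAt_const (v := ((N : ℂ)⁻¹)))
    exact h5
  exact analyticAt_const.mul h4.cexp

theorem rt_comp {N : ℕ} {t₀ : ℂ} (h0 : t₀ ≠ 0) {g : ℂ → ℂ} {z₀ : ℂ} (hg : AnalyticAt ℂ g z₀) (ht : t₀ ^ N = g z₀) :
    AnalyticAt ℂ (fun z => rt N t₀ (g z)) z₀ := by
  have h1 := rt_analyticAt (N := N) h0
  rw [ht] at h1
  exact h1.comp hg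

end Pool.Agent.H60.OC
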