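import Pool.Agent.H60.OC.Line
import Pool.Agent.H60.OC.Rt
import Pool.Agent.H41.LR.Pic
import Pool.Agent.H41.LR.Schottky

/-!
# OC Punct: the behaviour at a puncture
-/

set_option autoImplicit false

open Filter Topology

noncomputable section

namespace Pool.Agent.H60.OC

variable {ι : Type*} [Fintype ι]

theorem Q_split [DecidableEq ι] (s : ι → ℂ) (κ : ℂ) (i : ι) (N : ℕ) (w : ℂ) :
    Q s κ (s i + w ^ N) = w ^ N * (κ * ∏ j ∈ Finset.univ.erase i, (s i + w ^ N - s j)) := by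
  rw [Q, ← Finset.mul_prod_erase Finset.univ _ (Finset.mem_univ i)]
  ring

theorem Line.punct {N : ℕ} (hN : 0 < N) {s : ι → ℂ} {κ : ℂ} {V : ℂ → ℂ → ℂ} (h : Line N s κ V)
    (hs : Function.Injective s) (hκ : κ ≠ 0) (i : ι) :
    ∃ (m : ℤ) (C ε : ℝ), 0 < C ∧ 0 < ε ∧ ∀ z t, z ≠ s i → ‖z - s i‖ < ε → t ^ N = Q s κ z →
      ‖V z t‖ ≤ C * ‖z - s i‖ ^ ((m : ℝ) / N) ∧ ‖z - s i‖ ^ ((m : ℝ) / N) ≤ C * ‖V z t‖ := by
  classical
  set g : ℂ → ℂ := fun w => κ * ∏ j ∈ Finset.univ.erase i, (s i + w ^ N - s j) with hg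
  have hga : ∀ w, AnalyticAt ℂ g w := fun w =>
    analyticAt_const.fun_mul (Finset.analyticAt_fun_prod _ fun j _ =>
      (analyticAt_const.fun_add (analyticAt_id.fun_pow N)).fun_sub analyticAt_const)
  have hg0 : g 0 ≠ 0 := by
    rw [hg]
    refine mul_ne_zero hκ (Finset.prod_ne_zero_iff.2 fun j hj => ?_)
    rw [zero_pow hN.ne', add_zero]
    exact sub_ne_zero.2 fun h1 => (Finset.ne_of_mem_erase hj) (hs h1.symm)
  obtain ⟨t₀, ht₀⟩ := IsAlgClosed.exists_pow_nat_eq (g 0) hN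
  have ht0 : t₀ ≠ 0 := pow_ne_of hN ht₀ hg0
  set τ₁ : ℂ → ℂ := fun w => rt N t₀ (g w) with hτ₁
  have hτa : AnalyticAt ℂ τ₁ 0 := rt_comp ht0 (hga 0) ht₀
  set φ : ℂ → ℂ := fun w => V (s i + w ^ N) (w * τ₁ w) with hφ
  have hev : ∀ᶠ w in 𝓝 (0 : ℂ), AnalyticAt ℂ τ₁ w ∧ g w ≠ 0 :=
    hτa.eventually_analyticAt.and ((hga 0).continuousAt.eventually_ne hg0)
  obtain ⟨r, hr, hball⟩ := Metric.eventually_nhds_iff_ball.1 hev
  have hφa : ∀ w ∈ Metric.ball (0 : ℂ) r, w ≠ 0 → AnalyticAt ℂ φ w := by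
    intro w hw hw0
    refine h.hol (fun w => s i + w ^ N) (fun w => w * τ₁ w) w (analyticAt_const.fun_add (analyticAt_id.fun_pow N))
      (analyticAt_id.fun_mul (hball w hw).1) (mul_ne_zero hw0 (rt_ne ht0)) ?_
    filter_upwards [(hga w).continuousAt.eventually_ne (hball w hw).2] with v hv
    rw [Q_split, mul_pow, hτ₁]
    show v ^ N * rt N t₀ (g v) ^ N = v ^ N * g v
    rw [rt_pow hN ht0 hv]
  have hφO : Pool.Agent.H41.LR.Om φ (Metric.ball 0 r \ {0}) := by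
    intro w hw
    have hw0 : w ≠ 0 := hw.2
    refine h.om _ _ (mul_ne_zero hw0 (rt_ne ht0)) ?_
    rw [Q_split, mul_pow]
    show w ^ N * rt N t₀ (g w) ^ N = w ^ N * g w
    rw [rt_pow hN ht0 (hball w hw.1).2]
  have hmer : MeromorphicAt φ 0 := Pool.Agent.H41.LR.picard Pool.Agent.H41.LR.schottky hr
    (fun w hw => (hφa w hw.1 hw.2).differentiableAt.differentiableWithinAt) hφO
  have hord : meromorphicOrderAt φ 0 ≠ ⊤ := by
    intro h1
    rw [meromorphicOrderAt_eq_top_iff] at h1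
    have h2 : ∀ᶠ w in 𝓝[≠] (0 : ℂ), w ∈ Metric.ball (0 : ℂ) r \ {0} := by
      have h3 : ∀ᶠ w in 𝓝[≠] (0 : ℂ), w ∈ Metric.ball (0 : ℂ) r := nhdsWithin_le_nhds (Metric.ball_mem_nhds _ hr)
      filter_upwards [h3, self_mem_nhdsWithin] with w h4 h5 using ⟨h4, h5⟩
    obtain ⟨w, h3, h4⟩ := (h1.and h2).exists
    exact (hφO w h4).1 h3
  obtain ⟨H, hHa, hH0, hHe⟩ := (meromorphicOrderAt_ne_top_iff hmer).1 hord
  set m : ℤ := (meromorphicOrderAt φ 0).untop₀ with hm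
  have hHc : ∀ᶠ w in 𝓝 (0 : ℂ), ‖H w‖ < 2 * ‖H 0‖ ∧ ‖H 0‖ / 2 < ‖H w‖ := by
    have h1 : 0 < ‖H 0‖ := norm_pos_iff.2 hH0
    have h2 := hHa.continuousAt.norm
    exact (h2.eventually_lt continuousAt_const (by linarith)).and (continuousAt_const.eventually_lt h2 (by linarith))
  rw [Filter.EventuallyEq, eventually_nhdsWithin_iff] at hHe
  obtain ⟨δ, hδ, hδb⟩ := Metric.eventually_nhds_iff_ball.1 ((hHc.and hHe).and hev)
  have hpos : 0 < ‖H 0‖ := norm_pos_iff.2 hH0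
  refine ⟨m, max (2 * ‖H 0‖) (2 / ‖H 0‖), δ ^ N, lt_max_of_lt_left (by positivity), by positivity, ?_⟩
  intro z t hz hzε ht
  obtain ⟨w, hw⟩ := IsAlgClosed.exists_pow_nat_eq (z - s i) hN
  have hzi : z - s i ≠ 0 := sub_ne_zero.2 hz
  have hwδ : ∀ v : ℂ, v ^ N = z - s i → v ∈ Metric.ball (0 : ℂ) δ := by
    intro v hv
    rw [mem_ball_zero_iff]
    have h1 : ‖v‖ ^ N < δ ^ N := by rwa [← norm_pow, hv]
    exact lt_of_pow_lt_pow_left₀ N hδ.le h1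
  have hgw : g w ≠ 0 := (hδb w (hwδ w hw)).2.2
  have hτw : τ₁ w ≠ 0 := rt_ne ht0
  set w' : ℂ := t / τ₁ w with hw'
  have hw'N : w' ^ N = z - s i := by
    have h1 : Q s κ z = w ^ N * g w := by
      rw [← Q_split s κ i N w, hw]
      congr 1
      ring
    rw [hw', div_pow, ht, h1, show τ₁ w ^ N = g w from rt_pow hN ht0 hgw, mul_div_cancel_right₀ _ hgw, hw]
  have hgg : g w' = g w := by
    rw [hg]
    simp only [hw'N, hw]
  have hw'0 : w' ≠ 0 := pow_ne_of hN hw'N hzi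
  have hττ : w' * τ₁ w' = t := by
    have h1 : τ₁ w' = τ₁ w := by
      rw [hτ₁]
      show rt N t₀ (g w') = rt N t₀ (g w)
      rw [hgg]
    rw [h1, hw', div_mul_cancel₀ _ hτw]
  have hV : V z t = φ w' := by
    rw [hφ]
    show V z t = V (s i + w' ^ N) (w' * τ₁ w')
    rw [hττ, hw'N]
    congr 1
    ring
  have hmem := hwδ w' hw'N
  obtain ⟨⟨⟨h1, h2⟩, h3⟩, -⟩ := hδb w' hmem
  have h4 : φ w' = w' ^ m * H w' := by
    have h5 := h3 hw'0
    rw [sub_zero, smul_eq_mul] at h5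
    exact h5
  have h5 : ‖w'‖ = ‖z - s i‖ ^ ((1 : ℝ) / N) := by
    have h6 : ‖w'‖ ^ N = ‖z - s i‖ := by rw [← norm_pow, hw'N]
    rw [← h6, ← Real.rpow_natCast, ← Real.rpow_mul (norm_nonneg _), mul_one_div_cancel (by exact_mod_cast hN.ne'), Real.rpow_one]
  have h6 : ‖w' ^ m‖ = ‖z - s i‖ ^ ((m : ℝ) / N) := by
    rw [norm_zpow, h5, ← Real.rpow_intCast, ← Real.rpow_mul (norm_nonneg _)]
    congr 1
    ring
  have h7 : 0 ≤ ‖z - s i‖ ^ ((m : ℝ) / N) := Real.rpow_nonneg (norm_nonneg _) _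
  rw [hV, h4, norm_mul, h6]
  constructor
  · rw [mul_comm]
    refine mul_le_mul_of_nonneg_right (h1.le.trans (le_max_left _ _)) h7
  · have h8 : 1 ≤ max (2 * ‖H 0‖) (2 / ‖H 0‖) * ‖H w'‖ := by
      have h9 : (1 : ℝ) = 2 / ‖H 0‖ * (‖H 0‖ / 2) := by field_simp
      rw [h9]
      exact mul_le_mul (le_max_right _ _) h2.le (by positivity) (le_max_of_le_left (by positivity))
    calc ‖z - s i‖ ^ ((m : ℝ) / N) = ‖z - s i‖ ^ ((m : ℝ) / N) * 1 := (mul_one _).symm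
      _ ≤ ‖z - s i‖ ^ ((m : ℝ) / N) * (max (2 * ‖H 0‖) (2 / ‖H 0‖) * ‖H w'‖) := mul_le_mul_of_nonneg_left h8 h7
      _ = _ := by ring

end Pool.Agent.H60.OC
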