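import Pool.Agent.H60.OC.Conf

/-!
# OC Root: coefficients and roots
-/

set_option autoImplicit false

open Filter Topology Polynomial

noncomputable section

namespace Pool.Agent.H60.OC

/-- The coefficients of `prod (X - x_j)`. -/
def zc {k : ℕ} (x : Fin k → ℂ) : Fin k → ℂ := fun i => (∏ j, (X - C (x j)) : ℂ[X]).coeff (k - 1 - (i : ℕ))

theorem monic_form {k : ℕ} {P : ℂ[X]} (hP : P.Monic) (hd : P.natDegree = k) :
    P = X ^ k + ∑ i : Fin k, C (P.coeff (k - 1 - (i : ℕ))) * X ^ (k - 1 - (i : ℕ)) := by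
  conv_lhs => rw [hP.as_sum, hd]
  congr 1
  rw [Fin.sum_univ_eq_sum_range (fun i => C (P.coeff (k - 1 - i)) * X ^ (k - 1 - i)) k]
  exact (Finset.sum_range_reflect (fun i => C (P.coeff i) * X ^ i) k).symm

theorem prod_monic {k : ℕ} (x : Fin k → ℂ) : (∏ j, (X - C (x j)) : ℂ[X]).Monic :=
  monic_prod_of_monic _ _ fun _ _ => monic_X_sub_C _

theorem prod_natDegree {k : ℕ} (x : Fin k → ℂ) : (∏ j, (X - C (x j)) : ℂ[X]).natDegree = k := by
  rw [natDegree_prod_of_monic _ _ fun _ _ => monic_X_sub_C _]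
  simp

theorem zc_roots {k : ℕ} (x : Fin k → ℂ) : IsRoots x (zc x) := (monic_form (prod_monic x) (prod_natDegree x)).symm

theorem poly_coeff {n : ℕ} (z : Fin n → ℂ) (i : Fin n) : (poly z).coeff (n - 1 - (i : ℕ)) = z i := by
  unfold poly
  rw [coeff_add, finsetSum_coeff, coeff_X_pow, if_neg (by omega), zero_add, Finset.sum_eq_single i]
  · rw [coeff_C_mul, coeff_X_pow, if_pos rfl, mul_one]
  · intro j _ hj
    rw [coeff_C_mul, coeff_X_pow, if_neg, mul_zero]
    intro h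
    apply hj
    ext
    omega
  · intro h
    exact absurd (Finset.mem_univ i) h

theorem poly_inj {n : ℕ} {z z' : Fin n → ℂ} (h : poly z = poly z') : z = z' := by
  funext i
  rw [← poly_coeff z i, h, poly_coeff]

theorem sum_of_roots {n : ℕ} (hn : 0 < n) {x z : Fin n → ℂ} (h : IsRoots x z) : z ⟨0, hn⟩ = -∑ i, x i := by
  rw [← poly_coeff z ⟨0, hn⟩, h]
  have h1 := prod_X_sub_C_coeff_card_pred (Finset.univ : Finset (Fin n)) x (by rw [Finset.card_univ, Fintype.card_fin]; exact hn)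
  rw [Finset.card_univ, Fintype.card_fin] at h1
  exact h1

theorem vd_det {k : ℕ} (x : Fin k → ℂ) : vd x = (Matrix.vandermonde fun i => -x i).det := by
  rw [Matrix.det_vandermonde, vd]
  refine Finset.prod_congr rfl fun i _ => Finset.prod_congr rfl fun j _ => ?_
  ring

theorem vd_perm {k : ℕ} (x : Fin k → ℂ) (σ : Equiv.Perm (Fin k)) : vd (fun i => x (σ i)) = (Equiv.Perm.sign σ : ℤ) * vd x := by
  rw [vd_det, vd_det, ← Matrix.det_permute]
  rfl

theorem roots_eval {n : ℕ} {x z : Fin n → ℂ} (h : IsRoots x z) (i : Fin n) : (poly z).eval (x i) = 0 := by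
  rw [h, eval_prod]
  exact Finset.prod_eq_zero (Finset.mem_univ i) (by simp)

/-- Two lists of the roots: a permutation, if one of them has no repetitions. -/
theorem exists_perm {n : ℕ} {x x' z : Fin n → ℂ} (h : IsRoots x z) (h' : IsRoots x' z) (hx : Function.Injective x') :
    ∃ σ : Equiv.Perm (Fin n), x' = fun i => x (σ i) := by
  have h1 : ∀ i, ∃ j, x' i = x j := by
    intro i
    have h2 := roots_eval h' i
    rw [h, eval_prod] at h2
    obtain ⟨j, -, hj⟩ := Finset.prod_eq_zero_iff.1 h2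
    rw [eval_sub, eval_X, eval_C] at hj
    exact ⟨j, sub_eq_zero.1 hj⟩
  choose g hg using h1
  have hgi : Function.Injective g := by
    intro i j hij
    apply hx
    rw [hg i, hg j, hij]
  exact ⟨Equiv.ofBijective g (Finite.injective_iff_bijective.1 hgi), funext hg⟩

theorem vd_sq_of_roots {n : ℕ} {x x' z : Fin n → ℂ} (h : IsRoots x z) (h' : IsRoots x' z) (hx : vd x' ^ 2 = 1) : vd x ^ 2 = 1 := by
  have hne : vd x' ≠ 0 := by
    intro h0
    rw [h0] at hx
    norm_num at hx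
  obtain ⟨σ, hσ⟩ := exists_perm h h' (vd_ne_iff.1 hne)
  rw [hσ, vd_perm, mul_pow] at hx
  have h1 : (((Equiv.Perm.sign σ : ℤˣ) : ℤ) : ℂ) ^ 2 = 1 := by
    rcases Int.units_eq_one_or (Equiv.Perm.sign σ) with h2 | h2 <;> rw [h2] <;> simp
  rw [h1, one_mul] at hx
  exact hx

theorem zc_mem {k : ℕ} {x : Fin k → ℂ} (hx : x ∈ MF k) : zc x ∈ SG k := by
  refine ⟨fun i hi => ?_, x, zc_roots x, by rw [hx.2, one_pow]⟩
  have hk : 0 < k := i.pos
  have h1 := sum_of_roots hk (zc_roots x)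
  rw [hx.1, neg_zero] at h1
  have h2 : i = ⟨0, hk⟩ := Fin.ext hi
  rw [h2, h1]

/-- Every point of `SG k` comes from `MF k`. -/
theorem exists_ordered {k : ℕ} (hk : 2 ≤ k) {z : Fin k → ℂ} (hz : z ∈ SG k) : ∃ x ∈ MF k, IsRoots x z := by
  obtain ⟨h0, x, hx, hv⟩ := hz
  have hsum : ∑ i, x i = 0 := by
    have h1 := sum_of_roots (by omega : 0 < k) hx
    rw [h0 ⟨0, by omega⟩ rfl] at h1
    exact neg_eq_zero.1 h1.symm
  have hor : vd x = 1 ∨ vd x = -1 := by
    have h : (vd x - 1) * (vd x + 1) = 0 := by linear_combination hv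
    rcases mul_eq_zero.1 h with h | h
    · exact Or.inl (sub_eq_zero.1 h)
    · exact Or.inr (eq_neg_of_add_eq_zero_left h)
  rcases hor with h1 | h1
  · exact ⟨x, ⟨hsum, h1⟩, hx⟩
  · set σ : Equiv.Perm (Fin k) := Equiv.swap ⟨0, by omega⟩ ⟨1, by omega⟩ with hσ
    refine ⟨fun i => x (σ i), ⟨?_, ?_⟩, ?_⟩
    · rw [Equiv.sum_comp σ x, hsum]
    · rw [vd_perm, hσ, Equiv.Perm.sign_swap (by simp), h1]
      simp
    · rw [IsRoots, hx, ← Equiv.prod_comp σ]

end Pool.Agent.H60.OC
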