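import Pool.Agent.H60.OC.Root

/-!
# OC RootAna: continuous simple roots are holomorphic
-/

set_option autoImplicit false

open Filter Topology Polynomial

noncomputable section

namespace Pool.Agent.H60.OC

theorem coeff_an {k : ℕ} {γ : ℂ → (Fin k → ℂ)} {w₀ : ℂ} (hγ : AnalyticAt ℂ γ w₀) (s : Finset (Fin k)) (m : ℕ) :
    AnalyticAt ℂ (fun w => (∏ j ∈ s, (X - C (γ w j)) : ℂ[X]).coeff m) w₀ := by
  classical
  have hγj : ∀ j, AnalyticAt ℂ (fun w => γ w j) w₀ := fun j => analyticAt_pi_iff.1 hγ j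
  induction s using Finset.induction_on generalizing m with
  | empty =>
    simp only [Finset.prod_empty]
    exact analyticAt_const
  | insert i s hi ih =>
    simp only [Finset.prod_insert hi, sub_mul, coeff_sub, coeff_C_mul]
    refine AnalyticAt.fun_sub ?_ ((hγj i).fun_mul (ih m))
    cases m with
    | zero =>
      simp only [coeff_X_mul_zero]
      exact analyticAt_const
    | succ m =>
      simp only [coeff_X_mul]
      exact ih m

theorem zc_an {k : ℕ} {γ : ℂ → (Fin k → ℂ)} {w₀ : ℂ} (hγ : AnalyticAt ℂ γ w₀) : AnalyticAt ℂ (fun w => zc (γ w)) w₀ :=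
  analyticAt_pi_iff.2 fun i => coeff_an hγ Finset.univ (k - 1 - (i : ℕ))

theorem f_an {k n : ℕ} {f : (Fin k → ℂ) → (Fin n → ℂ)} (hf : HoloOn (SG k) f) {γ : ℂ → (Fin k → ℂ)} {w₀ : ℂ}
    (hγ : AnalyticAt ℂ γ w₀) (hm : ∀ᶠ w in 𝓝 w₀, γ w ∈ MF k) : AnalyticAt ℂ (fun w => f (zc (γ w))) w₀ := by
  have hz := zc_an hγ
  have hmem : ∀ᶠ w in 𝓝 w₀, zc (γ w) ∈ SG k := by
    filter_upwards [hm] with w hw using zc_mem hw
  obtain ⟨g, hg, hfg⟩ := hf _ hmem.self_of_nhds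
  have h1 : Tendsto (fun w => zc (γ w)) (𝓝 w₀) (𝓝[SG k] (zc (γ w₀))) :=
    tendsto_nhdsWithin_iff.2 ⟨hz.continuousAt, hmem⟩
  have h2 : AnalyticAt ℂ (fun w => g (zc (γ w))) w₀ := AnalyticAt.comp_of_eq hg hz rfl
  refine h2.congr ?_
  filter_upwards [h1.eventually hfg] with w hw using hw.symm

theorem root_diff {n : ℕ} {a ρ : ℂ → (Fin n → ℂ)} {w₁ : ℂ} (ha : DifferentiableAt ℂ a w₁) (hρ : ContinuousAt ρ w₁)
    (hr : ∀ᶠ w in 𝓝 w₁, IsRoots (ρ w) (a w)) (hi : Function.Injective (ρ w₁)) (i : Fin n) :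
    DifferentiableAt ℂ (fun w => ρ w i) w₁ := by
  classical
  have hρj : ∀ j, ContinuousAt (fun w => ρ w j) w₁ := fun j => continuousAt_pi.1 hρ j
  have haj : ∀ j, DifferentiableAt ℂ (fun w => a w j) w₁ := fun j => differentiableAt_pi.1 ha j
  set R : ℂ → ℂ := fun w => ∏ j ∈ Finset.univ.erase i, (ρ w i - ρ w₁ j) with hR
  have hRc : ContinuousAt R w₁ := by
    rw [hR]
    exact tendsto_finsetProd _ fun j _ => (hρj i).sub continuousAt_const
  have hR0 : R w₁ ≠ 0 := Finset.prod_ne_zero_iff.2 fun j hj => sub_ne_zero.2 fun h =>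
    (Finset.ne_of_mem_erase hj) (hi h).symm
  have hRe : ∀ᶠ w in 𝓝 w₁, R w ≠ 0 := hRc.eventually_ne hR0
  have key : ∀ᶠ w in 𝓝 w₁, (ρ w i - ρ w₁ i) * R w = -∑ j : Fin n, (a w j - a w₁ j) * ρ w i ^ (n - 1 - (j : ℕ)) := by
    have h1 := hr.self_of_nhds
    filter_upwards [hr] with w hw
    have h2 : (poly (a w₁)).eval (ρ w i) = (ρ w i - ρ w₁ i) * R w := by
      rw [h1, eval_prod, ← Finset.mul_prod_erase Finset.univ _ (Finset.mem_univ i)]
      simp [hR]
    have h3 := roots_eval hw i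
    rw [← h2]
    have h4 : (poly (a w₁)).eval (ρ w i) = (poly (a w₁)).eval (ρ w i) - (poly (a w)).eval (ρ w i) := by rw [h3, sub_zero]
    rw [h4]
    unfold poly
    simp only [eval_add, eval_pow, eval_X, eval_finsetSum, eval_mul, eval_C]
    rw [add_sub_add_left_eq_sub, ← Finset.sum_sub_distrib, ← Finset.sum_neg_distrib]
    refine Finset.sum_congr rfl fun j _ => ?_
    ring
  have hlim : HasDerivAt (fun w => ρ w i) (-∑ j : Fin n, deriv (fun w => a w j) w₁ * ρ w₁ i ^ (n - 1 - (j : ℕ)) * (R w₁)⁻¹) w₁ := by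
    rw [hasDerivAt_iff_tendsto_slope]
    have h1 : Tendsto (fun w => -∑ j : Fin n, slope (fun w => a w j) w₁ w * ρ w i ^ (n - 1 - (j : ℕ)) * (R w)⁻¹) (𝓝[≠] w₁)
        (𝓝 (-∑ j : Fin n, deriv (fun w => a w j) w₁ * ρ w₁ i ^ (n - 1 - (j : ℕ)) * (R w₁)⁻¹)) := by
      refine (tendsto_finsetSum _ fun j _ => ?_).neg
      refine Tendsto.mul (Tendsto.mul (hasDerivAt_iff_tendsto_slope.1 (haj j).hasDerivAt) ?_) ?_
      · exact (((hρj i).pow _).tendsto).mono_left nhdsWithin_le_nhds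
      · exact ((hRc.inv₀ hR0).tendsto).mono_left nhdsWithin_le_nhds
    refine h1.congr' ?_
    have h2 : ∀ᶠ w in 𝓝[≠] w₁, w ∈ ({w₁}ᶜ : Set ℂ) := self_mem_nhdsWithin
    filter_upwards [h2, nhdsWithin_le_nhds key, nhdsWithin_le_nhds hRe] with w hw hk hRw
    have hne : w - w₁ ≠ 0 := sub_ne_zero.2 hw
    rw [slope_def_field, eq_div_iff hne]
    refine mul_right_cancel₀ hRw ?_
    rw [hk, neg_mul, neg_mul, Finset.sum_mul, Finset.sum_mul]
    congr 1
    refine Finset.sum_congr rfl fun j _ => ?_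
    rw [slope_def_field]
    field_simp
  exact hlim.differentiableAt

theorem root_an {n : ℕ} {a ρ : ℂ → (Fin n → ℂ)} {w₀ : ℂ} (ha : AnalyticAt ℂ a w₀) (hρ : ∀ᶠ w in 𝓝 w₀, ContinuousAt ρ w)
    (hr : ∀ᶠ w in 𝓝 w₀, IsRoots (ρ w) (a w) ∧ Function.Injective (ρ w)) (i : Fin n) : AnalyticAt ℂ (fun w => ρ w i) w₀ := by
  rw [Complex.analyticAt_iff_eventually_differentiableAt]
  filter_upwards [ha.eventually_analyticAt, hρ, hr.eventually_nhds] with w h1 h2 h3
  exact root_diff h1.differentiableAt h2 (h3.mono fun w hw => hw.1) h3.self_of_nhds.2 i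

end Pool.Agent.H60.OC
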