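import Pool.Agent.H60.OC.TriComb
import Pool.Agent.H60.OC.Cfg
import Pool.Agent.H60.OC.Expo

/-!
# OC TD: the unit equation for balanced monomials
-/

set_option autoImplicit false

open Filter Topology

noncomputable section

namespace Pool.Agent.H60.OC

/-- The monomial with natural exponents. -/
def mo {K : ℕ} (f : Fin K → Fin K → ℕ) (y : Fin K → ℂ) : ℂ := ∏ i, ∏ j ∈ Finset.Ioi i, (y i - y j) ^ f i j

theorem mo_zero {K : ℕ} {f : Fin K → Fin K → ℕ} (hf : ∀ i j, f i j = f j i) (g : Fin K → Fin K) :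
    mo f (fun i => ((g i : ℕ) : ℂ)) = 0 ↔ Zf f g := by
  have hg : ∀ i j, ((g i : ℕ) : ℂ) - ((g j : ℕ) : ℂ) = 0 ↔ g i = g j := by
    intro i j
    rw [sub_eq_zero]
    constructor
    · intro h
      exact Fin.ext (by exact_mod_cast h)
    · intro h
      rw [h]
  unfold mo Zf
  rw [Finset.prod_eq_zero_iff]
  constructor
  · rintro ⟨i, -, h⟩
    obtain ⟨j, hj, h⟩ := Finset.prod_eq_zero_iff.1 h
    have hne : f i j ≠ 0 := fun h1 => by
      rw [h1, pow_zero] at h
      exact one_ne_zero h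
    exact ⟨i, j, (Finset.mem_Ioi.1 hj).ne, hne, (hg i j).1 ((pow_eq_zero_iff hne).1 h)⟩
  · rintro ⟨i, j, hij, hne, he⟩
    rcases lt_or_gt_of_ne hij with h1 | h1
    · exact ⟨i, Finset.mem_univ _, Finset.prod_eq_zero (Finset.mem_Ioi.2 h1) ((pow_eq_zero_iff hne).2 ((hg i j).2 he))⟩
    · have hne' : f j i ≠ 0 := by rwa [hf]
      exact ⟨j, Finset.mem_univ _, Finset.prod_eq_zero (Finset.mem_Ioi.2 h1) ((pow_eq_zero_iff hne').2 ((hg j i).2 he.symm))⟩

theorem mo_cont {K : ℕ} (f : Fin K → Fin K → ℕ) : Continuous (mo f) := by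
  unfold mo
  fun_prop

/-- An identity for the injective configurations holds everywhere. -/
theorem ext_all {K : ℕ} {F : (Fin K → ℂ) → ℂ} (hF : Continuous F) (h : ∀ y, Function.Injective y → F y = 0) (y : Fin K → ℂ) : F y = 0 := by
  set v : Fin K → ℂ := fun i => ((i : ℕ) : ℂ) with hv
  have hv0 : ∀ H : Pr K, ell H v ≠ 0 := by
    intro H h1
    have h2 : ((H.1.1 : ℕ) : ℂ) = ((H.1.2 : ℕ) : ℂ) := sub_eq_zero.1 h1
    exact H.2.ne (Fin.ext (by exact_mod_cast h2))
  set S : Set ℂ := ⋃ H : Pr K, {σ : ℂ | ell H y + σ * ell H v = 0} with hS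
  have hfin : S.Finite := Set.finite_iUnion fun H => lin_fin (Or.inr (hv0 H))
  have hinj : ∀ σ ∈ Sᶜ, Function.Injective (fun i => y i + σ * v i) := by
    intro σ hσ
    rw [← vd_ne_iff, vd_eq]
    refine Finset.prod_ne_zero_iff.2 fun H _ h1 => hσ (Set.mem_iUnion.2 ⟨H, ?_⟩)
    rw [ell_line] at h1
    exact h1
  have hc : Continuous (fun σ : ℂ => F (fun i => y i + σ * v i)) := hF.comp (by fun_prop)
  have hd : Dense Sᶜ := hfin.countable.dense_compl ℝ
  have h1 : (fun σ : ℂ => F (fun i => y i + σ * v i)) = fun _ => 0 :=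
    Continuous.ext_on hd hc continuous_const fun σ hσ => h _ (hinj σ hσ)
  have h2 := congrFun h1 0
  simpa using h2

theorem mono_dl {K : ℕ} {a b : Fin K} (hab : a ≠ b) (n : ℤ) :
    ∃ ε : ℂ, ε ≠ 0 ∧ ∀ y : Fin K → ℂ, mono (fun i j => n * dl a b i j) y = ε * (y a - y b) ^ n := by
  have key : ∀ (a b : Fin K) (_ : a < b) (y : Fin K → ℂ), mono (fun i j => n * dl a b i j) y = (y a - y b) ^ n := by
    intro a b hlt y
    unfold mono
    rw [Finset.prod_eq_single a]
    · rw [Finset.prod_eq_single b]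
      · show (y a - y b) ^ (n * dl a b a b) = _
        unfold dl
        rw [if_pos (Or.inl ⟨rfl, rfl⟩), mul_one]
      · intro j hj hne
        show (y a - y j) ^ (n * dl a b a j) = _
        unfold dl
        rw [if_neg, mul_zero, zpow_zero]
        rintro (⟨_, h1⟩ | ⟨h1, _⟩)
        · exact hne h1
        · exact hlt.ne h1
      · intro h1
        exact absurd (Finset.mem_Ioi.2 hlt) h1
    · intro i _ hi
      refine Finset.prod_eq_one fun j hj => ?_
      show (y i - y j) ^ (n * dl a b i j) = _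
      unfold dl
      rw [if_neg, mul_zero, zpow_zero]
      rintro (⟨h1, _⟩ | ⟨h1, h2⟩)
      · exact hi h1
      · rw [h1, h2] at hj
        exact absurd (Finset.mem_Ioi.1 hj) hlt.asymm
    · intro h1
      exact absurd (Finset.mem_univ a) h1
  rcases lt_or_gt_of_ne hab with h | h
  · exact ⟨1, one_ne_zero, fun y => by rw [key a b h, one_mul]⟩
  · refine ⟨(-1) ^ n, zpow_ne_zero _ (by norm_num), fun y => ?_⟩
    have h1 : (fun i j => n * dl a b i j) = fun i j => n * dl b a i j := by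
      funext i j
      unfold dl
      congr 1
      refine if_congr ?_ rfl rfl
      tauto
    rw [h1, key b a h, ← mul_zpow]
    congr 1
    ring

/-- Four edges: the monomial is a power of a product of differences. -/
theorem mono_four {K : ℕ} {a b c d a' b' c' d' : Fin K} (h1 : a ≠ b) (h2 : c ≠ d) (h3 : a' ≠ b') (h4 : c' ≠ d') (e : ℕ)
    {E : Fin K → Fin K → ℤ} (hE : ∀ i j, E i j = (e * dl a b i j + e * dl c d i j) - (e * dl a' b' i j + e * dl c' d' i j)) :
    ∃ ε : ℂ, ε ≠ 0 ∧ ∀ y : Fin K → ℂ, Function.Injective y →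
      mono E y = ε * ((y a - y b) * (y c - y d) / ((y a' - y b') * (y c' - y d'))) ^ e := by
  obtain ⟨ε₁, n1, e1⟩ := mono_dl h1 (e : ℤ)
  obtain ⟨ε₂, n2, e2⟩ := mono_dl h2 (e : ℤ)
  obtain ⟨ε₃, n3, e3⟩ := mono_dl h3 (-(e : ℤ))
  obtain ⟨ε₄, n4, e4⟩ := mono_dl h4 (-(e : ℤ))
  refine ⟨ε₁ * ε₂ * ε₃ * ε₄, mul_ne_zero (mul_ne_zero (mul_ne_zero n1 n2) n3) n4, fun y hy => ?_⟩
  have h5 : E = fun i j => ((e : ℤ) * dl a b i j + (e : ℤ) * dl c d i j) + (-(e : ℤ) * dl a' b' i j + -(e : ℤ) * dl c' d' i j) := by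
    funext i j
    rw [hE]
    ring
  rw [h5, mono_add _ _ hy, mono_add _ _ hy, mono_add _ _ hy, e1, e2, e3, e4, div_pow, mul_pow, mul_pow, zpow_neg, zpow_neg,
    zpow_natCast, zpow_natCast, zpow_natCast, zpow_natCast]
  have h6 : y a' - y b' ≠ 0 := sub_ne_zero.2 fun h => h3 (hy h)
  have h7 : y c' - y d' ≠ 0 := sub_ne_zero.2 fun h => h4 (hy h)
  field_simp

theorem exp_one {e : ℕ} {κ κ' : ℂ} (he : 1 ≤ e) (h1 : κ * 2 ^ e + κ' * (-1) ^ e = 1) (h2 : κ * (-1) ^ e + κ' * 2 ^ e = 1)
    (h3 : κ * (1 / 2) ^ e + κ' * (1 / 2) ^ e = 1) : e = 1 ∧ κ = 1 := by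
  have h4 : κ + κ' = 2 ^ e := by
    have h5 : ((1 : ℂ) / 2) ^ e * 2 ^ e = 1 := by rw [← mul_pow]; norm_num
    linear_combination 2 ^ e * h3 - (κ + κ') * h5
  have h5 : (2 : ℂ) ^ e * (2 ^ e + (-1) ^ e) = 2 := by
    rw [← h4]
    linear_combination h1 + h2 + (κ + κ') * h4
  have h6 : (2 : ℤ) ^ e * (2 ^ e + (-1) ^ e) = 2 := by exact_mod_cast h5
  have he1 : e = 1 := by
    by_contra hne
    have h7 : 2 ≤ e := by omega
    have h8 : (2 : ℤ) ^ 2 ≤ 2 ^ e := pow_le_pow_right₀ (by norm_num) h7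
    have h9 : (-1 : ℤ) ≤ (-1) ^ e := by
      rcases neg_one_pow_eq_or ℤ e with h | h <;> rw [h] <;> norm_num
    nlinarith
  subst he1
  refine ⟨rfl, ?_⟩
  rw [pow_one, pow_one] at h1
  rw [pow_one] at h4
  linear_combination (h1 + h4) / 3

/-- The unit equation for balanced monomials: trivial or a cross ratio. -/
theorem TD {K : ℕ} {c c' : ℂ} {E E' : Fin K → Fin K → ℤ} (hc : c ≠ 0) (hc' : c' ≠ 0) (hE : Bal E) (hE' : Bal E')
    (h : ∀ y, Function.Injective y → c * mono E y + c' * mono E' y = 1) :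
    E = (fun _ _ => 0) ∨ ∃ α β γ σ : Fin K, α ≠ β ∧ α ≠ γ ∧ α ≠ σ ∧ β ≠ γ ∧ β ≠ σ ∧ γ ≠ σ ∧
      ∀ y, Function.Injective y → c * mono E y = cr y α β γ σ := by
  by_cases hE0 : ∀ i j, E i j ≤ 0
  · left
    funext i j
    have h1 := (Finset.sum_eq_zero_iff_of_nonpos fun j _ => hE0 i j).1 (hE.bal i) j (Finset.mem_univ j)
    exact h1
  right
  push Not at hE0
  obtain ⟨a, b, hab⟩ := hE0
  set M : Fin K → Fin K → ℤ := fun i j => min 0 (min (E i j) (E' i j)) with hM
  set A : Fin K → Fin K → ℕ := fun i j => (E i j - M i j).toNat with hA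
  set B : Fin K → Fin K → ℕ := fun i j => (E' i j - M i j).toNat with hB
  set C : Fin K → Fin K → ℕ := fun i j => (-M i j).toNat with hC
  have hAi : ∀ i j, (A i j : ℤ) = E i j - M i j := fun i j => by
    rw [hA]
    show ((E i j - M i j).toNat : ℤ) = _
    have : M i j ≤ E i j := (min_le_right _ _).trans (min_le_left _ _)
    omega
  have hBi : ∀ i j, (B i j : ℤ) = E' i j - M i j := fun i j => by
    rw [hB]
    show ((E' i j - M i j).toNat : ℤ) = _
    have : M i j ≤ E' i j := (min_le_right _ _).trans (min_le_right _ _)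
    omega
  have hCi : ∀ i j, (C i j : ℤ) = -M i j := fun i j => by
    rw [hC]
    show ((-M i j).toNat : ℤ) = _
    have : M i j ≤ 0 := min_le_left _ _
    omega
  have hMs : ∀ i j, M i j = M j i := fun i j => by
    rw [hM]
    show min 0 (min (E i j) (E' i j)) = min 0 (min (E j i) (E' j i))
    rw [hE.symm i j, hE'.symm i j]
  have hMd : ∀ i, M i i = 0 := fun i => by
    rw [hM]
    show min 0 (min (E i i) (E' i i)) = 0
    rw [hE.diag, hE'.diag]
    simp
  have mo_eq : ∀ (f : Fin K → Fin K → ℕ) (y : Fin K → ℂ), mo f y = mono (fun i j => (f i j : ℤ)) y := by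
    intro f y
    unfold mo mono
    simp only [zpow_natCast]
  have hpoly : ∀ y, Function.Injective y → c * mo A y + c' * mo B y - mo C y = 0 := by
    intro y hy
    have h1 : mo A y = mono E y * mo C y := by
      rw [mo_eq, mo_eq, ← mono_add _ _ hy]
      congr 1
      funext i j
      rw [hAi, hCi]
      ring
    have h2 : mo B y = mono E' y * mo C y := by
      rw [mo_eq, mo_eq, ← mono_add _ _ hy]
      congr 1
      funext i j
      rw [hBi, hCi]
      ring
    rw [h1, h2]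
    linear_combination mo C y * h y hy
  have hall : ∀ y, c * mo A y + c' * mo B y - mo C y = 0 :=
    ext_all (((continuous_const.mul (mo_cont A)).add (continuous_const.mul (mo_cont B))).sub (mo_cont C)) hpoly
  have sA : ∀ i j, A i j = A j i := fun i j => by
    have h1 := hAi i j
    have h2 := hAi j i
    rw [hE.symm i j, hMs i j] at h1
    omega
  have sB : ∀ i j, B i j = B j i := fun i j => by
    have h1 := hBi i j
    have h2 := hBi j i
    rw [hE'.symm i j, hMs i j] at h1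
    omega
  have sC : ∀ i j, C i j = C j i := fun i j => by
    have h1 := hCi i j
    have h2 := hCi j i
    rw [hMs i j] at h1
    omega
  have hT : Tri A B C := by
    refine ⟨sA, sB, sC, fun g h1 h2 => ?_, fun g h1 h2 => ?_, fun g h1 h2 => ?_, fun i j => ?_⟩
    · have h3 := hall (fun i => ((g i : ℕ) : ℂ))
      rw [(mo_zero sA g).2 h1, (mo_zero sB g).2 h2, mul_zero, mul_zero, add_zero, zero_sub, neg_eq_zero] at h3
      exact (mo_zero sC g).1 h3
    · have h3 := hall (fun i => ((g i : ℕ) : ℂ))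
      rw [(mo_zero sB g).2 h1, (mo_zero sC g).2 h2, mul_zero, sub_zero, add_zero] at h3
      exact (mo_zero sA g).1 ((mul_eq_zero.1 h3).resolve_left hc)
    · have h3 := hall (fun i => ((g i : ℕ) : ℂ))
      rw [(mo_zero sC g).2 h1, (mo_zero sA g).2 h2, mul_zero, sub_zero, zero_add] at h3
      exact (mo_zero sB g).1 ((mul_eq_zero.1 h3).resolve_left hc')
    · have h1 := hAi i j
      have h2 := hBi i j
      have h3 := hCi i j
      have h4 : M i j = 0 ∨ M i j = E i j ∨ M i j = E' i j := by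
        rw [hM]
        show min 0 (min (E i j) (E' i j)) = 0 ∨ min 0 (min (E i j) (E' i j)) = E i j ∨ min 0 (min (E i j) (E' i j)) = E' i j
        rcases min_choice 0 (min (E i j) (E' i j)) with h5 | h5
        · exact Or.inl h5
        · rcases min_choice (E i j) (E' i j) with h6 | h6
          · exact Or.inr (Or.inl (h5.trans h6))
          · exact Or.inr (Or.inr (h5.trans h6))
      omega
  have dA : ∀ i, A i i = 0 := fun i => by
    have h1 := hAi i i
    rw [hE.diag, hMd] at h1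
    omega
  have dB : ∀ i, B i i = 0 := fun i => by
    have h1 := hBi i i
    rw [hE'.diag, hMd] at h1
    omega
  have dC : ∀ i, C i i = 0 := fun i => by
    have h1 := hCi i i
    rw [hMd] at h1
    omega
  have hAC : ∀ i j, (A i j : ℤ) - C i j = E i j := fun i j => by
    rw [hAi, hCi]
    ring
  have hBC : ∀ i j, (B i j : ℤ) - C i j = E' i j := fun i j => by
    rw [hBi, hCi]
    ring
  have h0 : A a b ≠ 0 := by
    have h1 := hAi a b
    have h2 : M a b ≤ 0 := min_le_left _ _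
    omega
  obtain ⟨c₁, d, e, hab, hac, had, hbc, hbd, hcd, he, hEe, hEe'⟩ := hT.main dA dB dC
    (fun i => by simp only [hAC]; exact hE.bal i) (fun i => by simp only [hBC]; exact hE'.bal i) h0
  -- the monomials
  have dlsym : ∀ (x y : Fin K) i j, dl x y i j = dl y x i j := by
    intro x y i j
    unfold dl
    refine if_congr ?_ rfl rfl
    tauto
  obtain ⟨ε, hε, h1⟩ := mono_four (E := E) hab hcd had hbc.symm e (fun i j => by
    rw [← hAC, hEe, dlsym c₁ b]
    ring)
  obtain ⟨ε', hε', h2⟩ := mono_four (E := E') hac hbd.symm had hbc.symm e (fun i j => by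
    rw [← hBC, hEe', dlsym c₁ b, dlsym d b]
    ring)
  have key : ∀ y, Function.Injective y → (c * ε) * ((y a - y b) * (y c₁ - y d) / ((y a - y d) * (y c₁ - y b))) ^ e +
      (c' * ε') * ((y a - y c₁) * (y d - y b) / ((y a - y d) * (y c₁ - y b))) ^ e = 1 := by
    intro y hy
    rw [← h y hy, h1 y hy, h2 y hy]
    ring
  have key2 : ∀ β : ℂ, β ≠ 0 → β ≠ 1 → β ≠ 3 → (c * ε) * (2 * β / (3 - β)) ^ e + (c' * ε') * (3 * (1 - β) / (3 - β)) ^ e = 1 := by
    intro β hβ0 hβ1 hβ3
    obtain ⟨y, hy, ya, yb, yc, yd⟩ := exists_inj4 hab hac had hbc hbd hcd (A := 0) (B := β) (C := 3) (D := 1)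
      hβ0.symm (by norm_num) (by norm_num) hβ3 hβ1 (by norm_num)
    have h3 := key y hy
    rw [ya, yb, yc, yd] at h3
    have h4 : (3 : ℂ) - β ≠ 0 := sub_ne_zero.2 (Ne.symm hβ3)
    have h5 : (0 - β) * (3 - 1) / ((0 - 1) * (3 - β)) = 2 * β / (3 - β) := by
      field_simp
      ring
    have h6 : ((0 : ℂ) - 3) * (1 - β) / ((0 - 1) * (3 - β)) = 3 * (1 - β) / (3 - β) := by
      field_simp
      ring
    rwa [h5, h6] at h3
  obtain ⟨he1, hκ⟩ := exp_one (e := e) (κ := c * ε) (κ' := c' * ε') he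
    (by
      have := key2 (3 / 2) (by norm_num) (by norm_num) (by norm_num)
      norm_num at this ⊢
      exact this)
    (by
      have := key2 (-3) (by norm_num) (by norm_num) (by norm_num)
      norm_num at this ⊢
      exact this)
    (by
      have := key2 (3 / 5) (by norm_num) (by norm_num) (by norm_num)
      norm_num at this ⊢
      exact this)
  refine ⟨b, c₁, d, a, hbc, hbd, hab.symm, hcd, hac.symm, had.symm, fun y hy => ?_⟩
  rw [h1 y hy, he1, pow_one, ← mul_assoc, hκ, one_mul, cr]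

end Pool.Agent.H60.OC
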