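import Mathlib

/-!
# OC TriComb: the combinatorics of the unit equation

`Zf f g`: the monomial with the exponents `f` vanishes at the points `i ↦ g i`.
-/

set_option autoImplicit false

namespace Pool.Agent.H60.OC

variable {K : ℕ}

/-- The monomial with exponents `f` vanishes at the point `g`. -/
def Zf (f : Fin K → Fin K → ℕ) (g : Fin K → Fin K) : Prop := ∃ i j, i ≠ j ∧ f i j ≠ 0 ∧ g i = g j

/-- Three monomials with a linear relation. -/
structure Tri (A B C : Fin K → Fin K → ℕ) : Prop where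
  sA : ∀ i j, A i j = A j i
  sB : ∀ i j, B i j = B j i
  sC : ∀ i j, C i j = C j i
  ab : ∀ g, Zf A g → Zf B g → Zf C g
  bc : ∀ g, Zf B g → Zf C g → Zf A g
  ca : ∀ g, Zf C g → Zf A g → Zf B g
  min : ∀ i j, A i j = 0 ∨ B i j = 0 ∨ C i j = 0

variable {A B C : Fin K → Fin K → ℕ}

theorem Tri.rot (h : Tri A B C) : Tri B C A :=
  ⟨h.sB, h.sC, h.sA, h.bc, h.ca, h.ab, fun i j => by rcases h.min i j with h1 | h1 | h1 <;> tauto⟩

theorem Tri.swap (h : Tri A B C) : Tri B A C :=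
  ⟨h.sB, h.sA, h.sC, fun g h1 h2 => h.ab g h2 h1, fun g h1 h2 => h.ca g h2 h1, fun g h1 h2 => h.bc g h2 h1,
    fun i j => by rcases h.min i j with h1 | h1 | h1 <;> tauto⟩

theorem Tri.single (h : Tri A B C) {a b : Fin K} (hab : a ≠ b) (h1 : A a b ≠ 0) (h2 : B a b ≠ 0) : False := by
  set g : Fin K → Fin K := fun i => if i = b then a else i with hg
  have hgab : g a = g b := by simp [hg]
  obtain ⟨i, j, hij, hC, he⟩ := h.ab g ⟨a, b, hab, h1, hgab⟩ ⟨a, b, hab, h2, hgab⟩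
  have h3 : (i = a ∧ j = b) ∨ (i = b ∧ j = a) := by
    simp only [hg] at he
    split_ifs at he with h4 h5 h5 <;> grind
  have h4 : C a b ≠ 0 := by
    rcases h3 with ⟨rfl, rfl⟩ | ⟨rfl, rfl⟩
    · exact hC
    · rw [h.sC]
      exact hC
  rcases h.min a b with h5 | h5 | h5
  · exact h1 h5
  · exact h2 h5
  · exact h4 h5

theorem Tri.tri3 (h : Tri A B C) {a b c : Fin K} (hab : a ≠ b) (hbc : b ≠ c) (hac : a ≠ c) (h1 : A a b ≠ 0) (h2 : B b c ≠ 0) :
    C a c ≠ 0 := by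
  set g : Fin K → Fin K := fun i => if i = b ∨ i = c then a else i with hg
  have ga : g a = a := by simp [hg]
  have gb : g b = a := by simp [hg]
  have gc : g c = a := by simp [hg]
  obtain ⟨i, j, hij, hC, he⟩ := h.ab g ⟨a, b, hab, h1, by rw [ga, gb]⟩ ⟨b, c, hbc, h2, by rw [gb, gc]⟩
  have h3 : C a b ≠ 0 ∨ C b c ≠ 0 ∨ C a c ≠ 0 := by
    have sC := h.sC
    simp only [hg] at he
    split_ifs at he with h4 h5 h5 <;> grind
  rcases h3 with h3 | h3 | h3
  · exact (h.rot.rot.single hab h3 h1).elim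
  · exact (h.rot.single hbc h2 h3).elim
  · exact h3

theorem Tri.disj (h : Tri A B C) {a b c d : Fin K} (hab : a ≠ b) (hcd : c ≠ d) (hac : a ≠ c) (had : a ≠ d) (hbc : b ≠ c)
    (hbd : b ≠ d) (h1 : A a b ≠ 0) (h2 : B c d ≠ 0) : False := by
  set g : Fin K → Fin K := fun i => if i = b then a else if i = d then c else i with hg
  have ga : g a = a := by simp [hg, hab, had]
  have gb : g b = a := by simp [hg]
  have gc : g c = c := by simp [hg, hbc.symm, hcd]
  have gd : g d = c := by simp [hg, hbd.symm]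
  obtain ⟨i, j, hij, hC, he⟩ := h.ab g ⟨a, b, hab, h1, by rw [ga, gb]⟩ ⟨c, d, hcd, h2, by rw [gc, gd]⟩
  have h3 : C a b ≠ 0 ∨ C c d ≠ 0 := by
    have sC := h.sC
    simp only [hg] at he
    grind
  rcases h3 with h3 | h3
  · exact h.rot.rot.single hab h3 h1
  · exact h.rot.single hcd h2 h3

theorem cover {α : Type*} {a b c d i j : α} (hab : a ≠ b) (hac : a ≠ c) (had : a ≠ d) (hbc : b ≠ c) (hbd : b ≠ d) (hcd : c ≠ d)
    (hij : i ≠ j) (h1 : i = b ∨ i = c ∨ j = b ∨ j = c) (h2 : i = a ∨ i = d ∨ j = a ∨ j = d)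
    (h3 : i = a ∨ i = c ∨ j = a ∨ j = c) (h4 : i = b ∨ i = d ∨ j = b ∨ j = d) :
    (i = a ∧ j = b) ∨ (i = b ∧ j = a) ∨ (i = c ∧ j = d) ∨ (i = d ∧ j = c) := by
  grind

/-- The edges of the first class meet all edges of the second class. -/
theorem Tri.meet (h : Tri A B C) {i j c d : Fin K} (hij : i ≠ j) (hcd : c ≠ d) (h1 : A i j ≠ 0) (h2 : B c d ≠ 0) :
    i = c ∨ i = d ∨ j = c ∨ j = d := by
  by_contra hcon
  push Not at hcon
  exact h.disj hij hcd hcon.1 hcon.2.1 hcon.2.2.1 hcon.2.2.2 h1 h2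

/-- Support of the first class. -/
theorem Tri.supp (h : Tri A B C) (dA : ∀ i, A i i = 0) {a b c d : Fin K} (hab : a ≠ b) (hac : a ≠ c) (had : a ≠ d) (hbc : b ≠ c)
    (hbd : b ≠ d) (hcd : c ≠ d) (h1 : C b c ≠ 0) (h2 : C a d ≠ 0) (h3 : B a c ≠ 0) (h4 : B b d ≠ 0) (i j : Fin K) (hA : A i j ≠ 0) :
    (i = a ∧ j = b) ∨ (i = b ∧ j = a) ∨ (i = c ∧ j = d) ∨ (i = d ∧ j = c) := by
  have hij : i ≠ j := fun h => hA (by rw [h, dA])
  exact cover hab hac had hbc hbd hcd hij (h.rot.rot.swap.meet hij hbc hA h1) (h.rot.rot.swap.meet hij had hA h2)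
    (h.meet hij hac hA h3) (h.meet hij hbd hA h4)

/-- The indicator of the edge `{a, b}`. -/
def dl (a b : Fin K) : Fin K → Fin K → ℤ := fun i j => if (i = a ∧ j = b) ∨ (i = b ∧ j = a) then 1 else 0

theorem val_of_supp {F : Fin K → Fin K → ℕ} (hs : ∀ i j, F i j = F j i) {a b c d : Fin K} (hab : a ≠ b) (hac : a ≠ c) (had : a ≠ d)
    (hbc : b ≠ c) (hbd : b ≠ d) (hcd : c ≠ d)
    (h : ∀ i j, F i j ≠ 0 → (i = a ∧ j = b) ∨ (i = b ∧ j = a) ∨ (i = c ∧ j = d) ∨ (i = d ∧ j = c)) {e : ℕ} (h1 : F a b = e)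
    (h2 : F c d = e) (i j : Fin K) : (F i j : ℤ) = e * dl a b i j + e * dl c d i j := by
  unfold dl
  by_cases h3 : F i j = 0
  · rw [h3]
    have h4 : ¬ ((i = a ∧ j = b) ∨ (i = b ∧ j = a)) ∨ e = 0 := by
      by_contra hcon
      push Not at hcon
      rcases hcon.1 with ⟨rfl, rfl⟩ | ⟨rfl, rfl⟩
      · exact hcon.2 (by rw [← h1, h3])
      · exact hcon.2 (by rw [← h1, hs, h3])
    have h5 : ¬ ((i = c ∧ j = d) ∨ (i = d ∧ j = c)) ∨ e = 0 := by
      by_contra hcon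
      push Not at hcon
      rcases hcon.1 with ⟨rfl, rfl⟩ | ⟨rfl, rfl⟩
      · exact hcon.2 (by rw [← h2, h3])
      · exact hcon.2 (by rw [← h2, hs, h3])
    rcases h4 with h4 | h4
    · rcases h5 with h5 | h5
      · rw [if_neg h4, if_neg h5]
        simp
      · rw [h5]
        simp
    · rw [h4]
      simp
  · rcases h i j h3 with ⟨rfl, rfl⟩ | ⟨rfl, rfl⟩ | ⟨rfl, rfl⟩ | ⟨rfl, rfl⟩
    · rw [if_pos (Or.inl ⟨rfl, rfl⟩), if_neg (by tauto), h1]
      ring
    · rw [if_pos (Or.inr ⟨rfl, rfl⟩), if_neg (by tauto), hs, h1]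
      ring
    · rw [if_neg (by rintro (⟨h6, _⟩ | ⟨h6, _⟩); exact hac h6.symm; exact hbc h6.symm), if_pos (Or.inl ⟨rfl, rfl⟩), h2]
      ring
    · rw [if_neg (by rintro (⟨h6, _⟩ | ⟨h6, _⟩); exact had h6.symm; exact hbd h6.symm), if_pos (Or.inr ⟨rfl, rfl⟩), hs, h2]
      ring

theorem row_of_supp {F : Fin K → Fin K → ℕ} {a b c d : Fin K} (hab : a ≠ b) (hac : a ≠ c) (had : a ≠ d)
    (h : ∀ i j, F i j ≠ 0 → (i = a ∧ j = b) ∨ (i = b ∧ j = a) ∨ (i = c ∧ j = d) ∨ (i = d ∧ j = c)) :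
    ∑ j, (F a j : ℤ) = F a b := by
  refine Finset.sum_eq_single b (fun j _ hj => ?_) (fun h1 => absurd (Finset.mem_univ b) h1)
  by_contra hne
  have h1 : F a j ≠ 0 := fun h2 => hne (by rw [h2]; rfl)
  rcases h a j h1 with ⟨_, h2⟩ | ⟨h2, _⟩ | ⟨h2, _⟩ | ⟨h2, _⟩
  · exact hj h2
  · exact hab h2
  · exact hac h2
  · exact had h2

theorem Tri.main (h : Tri A B C) (dA : ∀ i, A i i = 0) (dB : ∀ i, B i i = 0) (dC : ∀ i, C i i = 0)
    (hE : ∀ i, ∑ j, ((A i j : ℤ) - C i j) = 0) (hE' : ∀ i, ∑ j, ((B i j : ℤ) - C i j) = 0) {a b : Fin K} (h0 : A a b ≠ 0) :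
    ∃ (c d : Fin K) (e : ℕ), a ≠ b ∧ a ≠ c ∧ a ≠ d ∧ b ≠ c ∧ b ≠ d ∧ c ≠ d ∧ 1 ≤ e ∧
      (∀ i j, (A i j : ℤ) - C i j = (e * dl a b i j + e * dl c d i j) - (e * dl b c i j + e * dl a d i j)) ∧
      (∀ i j, (B i j : ℤ) - C i j = (e * dl a c i j + e * dl b d i j) - (e * dl b c i j + e * dl a d i j)) := by
  have hab : a ≠ b := fun h1 => h0 (by rw [h1, dA])
  have hba0 : A b a ≠ 0 := by rwa [h.sA]
  have hCab : C a b = 0 := by
    by_contra h1
    exact h.rot.rot.single hab h1 h0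
  have hCba : C b a = 0 := by rwa [h.sC]
  -- an edge of the third class at a vertex with an edge of the first class
  have key : ∀ (P R : Fin K → Fin K → ℕ) (_ : ∀ i, ∑ j, ((P i j : ℤ) - R i j) = 0) (x y : Fin K), P x y ≠ 0 → R x y = 0 →
      ∃ w, R x w ≠ 0 := by
    intro P R hs x y h1 h2
    by_contra hcon
    push Not at hcon
    have h3 := hs x
    have h4 : ∑ j, ((P x j : ℤ) - R x j) = ∑ j, (P x j : ℤ) := Finset.sum_congr rfl fun j _ => by rw [hcon j]; simp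
    rw [h4] at h3
    have h5 : (P x y : ℤ) ≤ ∑ j, (P x j : ℤ) :=
      Finset.single_le_sum (f := fun j => (P x j : ℤ)) (fun j _ => Int.natCast_nonneg _) (Finset.mem_univ y)
    omega
  obtain ⟨c, hc⟩ := key A C hE b a hba0 hCba
  have hbc : b ≠ c := fun h1 => hc (by rw [← h1, dC])
  have hac : a ≠ c := fun h1 => hc (by rw [← h1, hCba])
  have hBac : B a c ≠ 0 := h.rot.rot.swap.tri3 hab hbc hac h0 hc
  have hCac : C a c = 0 := by
    by_contra h1
    exact h.rot.single hac hBac h1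
  obtain ⟨d, hd⟩ := key B C hE' a c hBac hCac
  have had : a ≠ d := fun h1 => hd (by rw [← h1, dC])
  have hcd : c ≠ d := fun h1 => hd (by rw [← h1, hCac])
  have hbd : b ≠ d := fun h1 => hd (by rw [← h1, hCab])
  have hBbd : B b d ≠ 0 := h.rot.rot.swap.tri3 hab.symm had hbd hba0 hd
  have hAcd : A c d ≠ 0 := h.rot.tri3 hac.symm had hcd (by rwa [h.sB]) hd
  have sA := h.supp dA hab hac had hbc hbd hcd hc hd hBac hBbd
  have sB : ∀ i j, B i j ≠ 0 → (i = a ∧ j = c) ∨ (i = c ∧ j = a) ∨ (i = b ∧ j = d) ∨ (i = d ∧ j = b) :=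
    h.swap.supp dB hac hab had hbc.symm hcd hbd (by rwa [h.sC]) hd h0 hAcd
  have sC : ∀ i j, C i j ≠ 0 → (i = b ∧ j = c) ∨ (i = c ∧ j = b) ∨ (i = a ∧ j = d) ∨ (i = d ∧ j = a) := by
    refine h.rot.rot.supp dC hbc hab.symm hbd hac.symm hcd had ?_ ?_ ?_ ?_
    · show B c a ≠ 0
      rwa [h.sB]
    · exact hBbd
    · exact hba0
    · exact hAcd
  have rA := row_of_supp hab hac had sA
  have rC := row_of_supp (F := C) (a := a) (b := d) (c := b) (d := c) had hab hac (fun i j hij => by have := sC i j hij; tauto)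
  have rAb := row_of_supp (F := A) (a := b) (b := a) (c := c) (d := d) hab.symm hbc hbd (fun i j hij => by have := sA i j hij; tauto)
  have rCb := row_of_supp (F := C) (a := b) (b := c) (c := a) (d := d) hbc hab.symm hbd (fun i j hij => by have := sC i j hij; tauto)
  have rAc := row_of_supp (F := A) (a := c) (b := d) (c := a) (d := b) hcd hac.symm hbc.symm (fun i j hij => by have := sA i j hij; tauto)
  have rCc := row_of_supp (F := C) (a := c) (b := b) (c := a) (d := d) hbc.symm hac.symm hcd (fun i j hij => by have := sC i j hij; tauto)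
  have rB := row_of_supp (F := B) (a := a) (b := c) (c := b) (d := d) hac hab had (fun i j hij => by have := sB i j hij; tauto)
  have rBb := row_of_supp (F := B) (a := b) (b := d) (c := a) (d := c) hbd hab.symm hbc (fun i j hij => by have := sB i j hij; tauto)
  have e1 := hE a
  have e2 := hE b
  have e3 := hE c
  have e4 := hE' a
  have e5 := hE' b
  rw [Finset.sum_sub_distrib] at e1 e2 e3 e4 e5
  rw [rA, rC] at e1
  rw [rAb, rCb] at e2
  rw [rAc, rCc] at e3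
  rw [rB, rC] at e4
  rw [rBb, rCb] at e5
  have s1 := h.sA b a
  have s2 := h.sC c b
  refine ⟨c, d, A a b, hab, hac, had, hbc, hbd, hcd, by omega, fun i j => ?_, fun i j => ?_⟩
  · rw [val_of_supp h.sA hab hac had hbc hbd hcd sA (e := A a b) rfl (by omega) i j,
      val_of_supp h.sC (a := b) (b := c) (c := a) (d := d) hbc hab.symm hbd hac.symm hcd had sC (e := A a b) (by omega) (by omega) i j]
  · rw [val_of_supp h.sB (a := a) (b := c) (c := b) (d := d) hac hab had hbc.symm hcd hbd sB (e := A a b) (by omega) (by omega) i j,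
      val_of_supp h.sC (a := b) (b := c) (c := a) (d := d) hbc hab.symm hbd hac.symm hcd had sC (e := A a b) (by omega) (by omega) i j]

end Pool.Agent.H60.OC
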